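import Pool.Agent.Lib.MP_c77da8_nt.CL.Defs

/-!
# CL-BoxL: the boxes

`box_card`: the box is a product: `card (box w M H) = H ^ π(w)` (`H < M`; `Fintype.piFinset`, `Fintype.card_piFinset_const`; the one-dimensional
factor `{x : ZMod M | 1 ≤ x.val ≤ H}` has `H` elements).
`inv_box`: `x ∈ box H`, `t ∈ box H'`, `|e| ≤ B`: `x + e • t ∉ box H` implies that for some `p` the integer `x_p + e t_p` is not in
`[1, H]` (its absolute value is `< M`, so there is no wrap-around); for each `p` there are at most `B H'` values of `x_p` in `[1, H]` with this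
property, the others are free: at most `π(w) · B H' · H^(π(w) - 1) ≤ κ |box|`.
-/

set_option autoImplicit false

namespace Pool.CL

open Finset Pool.CG

private def fac (M H : ℕ) [NeZero M] : Finset (ZMod M) :=
  univ.filter fun z => 1 ≤ z.val ∧ z.val ≤ H

private theorem fac_card (M H : ℕ) [NeZero M] (hH : H < M) : (fac M H).card = H := by
  have h : (fac M H).card = (Icc 1 H).card := by
    apply Finset.card_bij (fun z _ => z.val)
    · intro z hz
      simpa [fac] using hz
    · intro a _ b _ hab
      exact ZMod.val_injective M hab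
    · intro b hb
      have hb' := Finset.mem_Icc.mp hb
      have hv : ((b : ZMod M)).val = b := ZMod.val_natCast_of_lt (by omega)
      refine ⟨(b : ZMod M), ?_, hv⟩
      simp only [fac, mem_filter, mem_univ, true_and, hv]
      exact hb'
  rw [h, Nat.card_Icc]
  omega

private theorem box_eq (w M H : ℕ) [NeZero M] :
    box w M H = Fintype.piFinset (fun _ : Pw w => fac M H) := by
  ext x
  simp [box, fac, Fintype.mem_piFinset]

theorem box_card (w M H : ℕ) [NeZero M] (hH : H < M) : (box w M H).card = H ^ Fintype.card (Pw w) := by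
  rw [box_eq, Fintype.card_piFinset, prod_const, card_univ, fac_card M H hH]

theorem box_nonempty (w M H : ℕ) [NeZero M] (h1 : 1 ≤ H) (hH : H < M) : (box w M H).Nonempty := by
  rw [← Finset.card_pos, box_card w M H hH]
  exact pow_pos (by omega) _

/-- the points of the one-dimensional box which leave it -/
private def bad (M H : ℕ) [NeZero M] (s : ℤ) : Finset (ZMod M) :=
  (fac M H).filter fun z => ¬ (1 ≤ (z.val : ℤ) + s ∧ (z.val : ℤ) + s ≤ H)

private theorem bad_card (M H : ℕ) [NeZero M] (s : ℤ) : (bad M H s).card ≤ s.natAbs := by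
  have h : (bad M H s).card ≤ (if 0 ≤ s then Finset.Ioc ((H : ℤ) - s) H else Finset.Icc 1 (-s)).card := by
    apply Finset.card_le_card_of_injOn (fun z => (z.val : ℤ))
    · intro z hz
      simp only [bad, fac, coe_filter, mem_filter, mem_univ, true_and, Set.mem_ofPred_eq] at hz
      obtain ⟨⟨h1, h2⟩, h3⟩ := hz
      have h1' : (1 : ℤ) ≤ z.val := by exact_mod_cast h1
      have h2' : (z.val : ℤ) ≤ H := by exact_mod_cast h2
      split_ifs with hs
      · simp only [coe_Ioc, Set.mem_Ioc]
        refine ⟨?_, h2'⟩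
        by_contra hc
        exact h3 ⟨by linarith, by linarith⟩
      · simp only [coe_Icc, Set.mem_Icc]
        refine ⟨h1', ?_⟩
        by_contra hc
        exact h3 ⟨by omega, by omega⟩
    · intro a _ b _ hab
      have hab' : (a.val : ℤ) = (b.val : ℤ) := hab
      exact ZMod.val_injective M (by exact_mod_cast hab')
  refine h.trans ?_
  split_ifs with hs
  · rw [Int.card_Ioc]; omega
  · rw [Int.card_Icc]; omega

private theorem add_val (M H : ℕ) [NeZero M] (hH : H < M) (z u : ZMod M) (e : ℤ)
    (h : 1 ≤ (z.val : ℤ) + e * u.val ∧ (z.val : ℤ) + e * u.val ≤ H) :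
    1 ≤ (z + e • u).val ∧ (z + e • u).val ≤ H := by
  obtain ⟨c, hc⟩ : ∃ c : ℕ, (z.val : ℤ) + e * u.val = c := ⟨((z.val : ℤ) + e * u.val).toNat, by omega⟩
  have h1 : z + e • u = (c : ZMod M) := by
    have h2 : (((z.val : ℤ) + e * u.val : ℤ) : ZMod M) = ((c : ℤ) : ZMod M) := by rw [hc]
    push_cast at h2
    rw [ZMod.natCast_zmod_val, ZMod.natCast_zmod_val] at h2
    rw [zsmul_eq_mul]
    exact h2
  rw [hc] at h
  have hcM : c < M := by
    have : (c : ℤ) ≤ H := h.2
    have : c ≤ H := by exact_mod_cast this
    omega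
  rw [h1, ZMod.val_natCast_of_lt hcM]
  exact ⟨by exact_mod_cast h.1, by exact_mod_cast h.2⟩

theorem inv_box (w M H H' B : ℕ) [NeZero M] (κ : ℝ) (h1 : 1 ≤ H) (hM : H + B * H' < M)
    (hκ : (Fintype.card (Pw w) : ℝ) * (B * H') ≤ κ * H) : Inv (box w M H) (box w M H') B κ := by
  classical
  intro t ht e he
  have hH : H < M := by omega
  have ht' : ∀ p, 1 ≤ (t p).val ∧ (t p).val ≤ H' := by simpa [box] using ht
  set s : Pw w → ℤ := fun p => e * ((t p).val : ℤ) with hs
  have hsB : ∀ p, (s p).natAbs ≤ B * H' := by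
    intro p
    rw [hs]
    simp only [Int.natAbs_mul, Int.natAbs_natCast]
    apply Nat.mul_le_mul _ (ht' p).2
    rw [Int.abs_eq_natAbs] at he
    exact_mod_cast he
  have hsub : ((box w M H).filter fun x => x + e • t ∉ box w M H) ⊆
      (univ : Finset (Pw w)).biUnion fun p =>
        Fintype.piFinset (Function.update (fun _ : Pw w => fac M H) p (bad M H (s p))) := by
    intro x hx
    rw [mem_filter] at hx
    obtain ⟨hx1, hx2⟩ := hx
    rw [box_eq, Fintype.mem_piFinset] at hx1
    have hx3 : ∃ p, ¬ (1 ≤ ((x + e • t) p).val ∧ ((x + e • t) p).val ≤ H) := by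
      by_contra hc
      push Not at hc
      apply hx2
      simp only [box, mem_filter, mem_univ, true_and]
      exact hc
    obtain ⟨p, hp⟩ := hx3
    rw [mem_biUnion]
    refine ⟨p, mem_univ _, ?_⟩
    rw [Fintype.mem_piFinset]
    intro j
    by_cases hj : j = p
    · subst hj
      rw [Function.update_self, bad, mem_filter]
      refine ⟨hx1 j, ?_⟩
      intro hc
      exact hp (add_val M H hH (x j) (t j) e hc)
    · rw [Function.update_of_ne hj]
      exact hx1 j
  have hcard : ∀ p : Pw w,
      (Fintype.piFinset (Function.update (fun _ : Pw w => fac M H) p (bad M H (s p)))).card * H ≤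
        (B * H') * H ^ Fintype.card (Pw w) := by
    intro p
    rw [Fintype.card_piFinset, ← Finset.mul_prod_erase univ _ (mem_univ p), Function.update_self]
    have h2 : ∏ x ∈ univ.erase p, (Function.update (fun _ : Pw w => fac M H) p (bad M H (s p)) x).card =
        H ^ (Fintype.card (Pw w) - 1) := by
      rw [Finset.prod_congr rfl (g := fun _ => H)]
      · rw [prod_const, card_erase_of_mem (mem_univ p), card_univ]
      · intro j hj
        rw [Function.update_of_ne (ne_of_mem_erase hj), fac_card M H hH]
    rw [h2, mul_assoc, ← pow_succ]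
    have h3 : Fintype.card (Pw w) - 1 + 1 = Fintype.card (Pw w) :=
      Nat.succ_pred_eq_of_pos (Fintype.card_pos_iff.mpr ⟨p⟩)
    rw [h3]
    exact Nat.mul_le_mul_right _ ((bad_card M H (s p)).trans (hsB p))
  have hH0 : (0 : ℝ) < H := by exact_mod_cast h1
  have htot : ((box w M H).filter fun x => x + e • t ∉ box w M H).card * H ≤
      Fintype.card (Pw w) * ((B * H') * H ^ Fintype.card (Pw w)) := by
    calc ((box w M H).filter fun x => x + e • t ∉ box w M H).card * H
        ≤ (∑ p : Pw w, (Fintype.piFinset
            (Function.update (fun _ : Pw w => fac M H) p (bad M H (s p)))).card) * H :=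
          Nat.mul_le_mul_right _ ((card_le_card hsub).trans card_biUnion_le)
      _ = ∑ p : Pw w, (Fintype.piFinset
            (Function.update (fun _ : Pw w => fac M H) p (bad M H (s p)))).card * H := by
          rw [Finset.sum_mul]
      _ ≤ ∑ _p : Pw w, (B * H') * H ^ Fintype.card (Pw w) :=
          Finset.sum_le_sum fun p _ => hcard p
      _ = Fintype.card (Pw w) * ((B * H') * H ^ Fintype.card (Pw w)) := by
          rw [sum_const, card_univ, smul_eq_mul]
  have htot' : (((box w M H).filter fun x => x + e • t ∉ box w M H).card : ℝ) * H ≤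
      (Fintype.card (Pw w) : ℝ) * (((B : ℝ) * H') * (H : ℝ) ^ Fintype.card (Pw w)) := by
    exact_mod_cast htot
  rw [box_card w M H hH]
  push_cast
  have h4 : (((box w M H).filter fun x => x + e • t ∉ box w M H).card : ℝ) * H ≤
      (κ * (H : ℝ) ^ Fintype.card (Pw w)) * H := by
    calc _ ≤ (Fintype.card (Pw w) : ℝ) * (((B : ℝ) * H') * (H : ℝ) ^ Fintype.card (Pw w)) := htot'
      _ = ((Fintype.card (Pw w) : ℝ) * (B * H')) * (H : ℝ) ^ Fintype.card (Pw w) := by ring
      _ ≤ (κ * H) * (H : ℝ) ^ Fintype.card (Pw w) :=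
          mul_le_mul_of_nonneg_right hκ (by positivity)
      _ = (κ * (H : ℝ) ^ Fintype.card (Pw w)) * H := by ring
  exact le_of_mul_le_mul_right h4 hH0

end Pool.CL
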