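import Pool.Agent.Lib.MP_c77da8_nt.CL.Defs

/-!
# CL-TestL: the local test functions

`av_phiL`: exchange the averages (`av_comm`) and substitute `z = y + b psi_j(x)` for fixed `x` (`av_equiv (Equiv.addRight _)`).
`phiL_nonneg`, `phiL_le_one`: `0 ≤ ∏ ≤ 1` (the type `Fin (k+2) → Pt D` is not empty; if `D` is empty the average is `0`).
`affF_patt`: `psi j (cv x) = ∑ l, (l - j) • x l`, `smul_sum`, `smul_smul` (`b • z = (b : ℤ) • z`).
`psi_const`-type fact used later: `psi j x = psi 0 x + j • (- ∑ x_i)` is `Pool.CG.psi_eq` (file `CG/Dense.lean`).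
-/

set_option autoImplicit false

namespace Pool.CL

open Finset Pool.CG

theorem av_phiL {G : Type} [AddCommGroup G] [Fintype G] {k : ℕ} {D : Finset G} (b : ℕ) (j : Fin (k + 2))
    (u : G → Fin (k + 2) → (Fin (k + 2) → Pt D) → ℝ) (F : G → ℝ) :
    av (fun z : G => F z * phiL b j u z) = av (fun y : G => av (fun x : Fin (k + 2) → Pt D =>
      F (y + b • psi j (cv x)) * ∏ i ∈ univ.erase j, u y i x)) := by
  have h1 : ∀ z : G, F z * phiL b j u z = av (fun x : Fin (k + 2) → Pt D =>
      F z * ∏ i ∈ univ.erase j, u (z - b • psi j (cv x)) i x) := by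
    intro z
    rw [av_const_mul]
    rfl
  rw [av_congr h1, av_comm (fun (z : G) (x : Fin (k + 2) → Pt D) =>
    F z * ∏ i ∈ univ.erase j, u (z - b • psi j (cv x)) i x),
    av_comm (fun (y : G) (x : Fin (k + 2) → Pt D) =>
      F (y + b • psi j (cv x)) * ∏ i ∈ univ.erase j, u y i x)]
  refine av_congr fun x => ?_
  rw [← av_equiv (Equiv.addRight (b • psi j (cv x)))
    (fun z : G => F z * ∏ i ∈ univ.erase j, u (z - b • psi j (cv x)) i x)]
  refine av_congr fun y => ?_
  simp only [Equiv.coe_addRight, add_sub_cancel_right]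

theorem phiL_nonneg {G : Type} [AddCommGroup G] {k : ℕ} {D : Finset G} (b : ℕ) (j : Fin (k + 2))
    (u : G → Fin (k + 2) → (Fin (k + 2) → Pt D) → ℝ) (hu : GoodL u) (z : G) : 0 ≤ phiL b j u z := by
  unfold phiL
  exact av_nonneg fun x => prod_nonneg fun i _ => (hu.1 _ i x).1

theorem phiL_le_one {G : Type} [AddCommGroup G] {k : ℕ} {D : Finset G} (b : ℕ) (j : Fin (k + 2))
    (u : G → Fin (k + 2) → (Fin (k + 2) → Pt D) → ℝ) (hu : GoodL u) (z : G) : phiL b j u z ≤ 1 := by
  unfold phiL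
  rcases isEmpty_or_nonempty (Fin (k + 2) → Pt D) with h | h
  · simp [av]
  · exact av_le_of_le fun x => prod_le_one (fun i _ => (hu.1 _ i x).1) (fun i _ => (hu.1 _ i x).2)

theorem affF_patt {G : Type} [AddCommGroup G] {k : ℕ} {D : Finset G} (ν : G → ℝ) (b : ℕ) (y : G) (i : Fin (k + 2))
    (x : Fin (k + 2) → Pt D) : affF ν (patt k b) univ y i x = ν (y + b • psi i (cv x)) := by
  unfold affF patt psi cv
  rw [if_pos (mem_univ i), smul_sum]
  congr 2
  refine sum_congr rfl fun l _ => ?_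
  rw [mul_smul, natCast_zsmul]

end Pool.CL
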