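import Pool.Agent.Lib.MP_c77da8_nt.CL.GoodY
import Pool.Agent.Lib.MP_c77da8_nt.CL.TestL
import Pool.Agent.Lib.MP_c77da8_nt.CG.Count
import Pool.Agent.Lib.MP_c77da8_nt.CG.Test
import Pool.Agent.Lib.MP_c77da8_nt.CG.Count

/-!
# CL-CntL: the counting lemma, averaged over the base point

PROOF.  `K = Fin (k+2)`, `e = min e' 1 / 4`.  `Pool.CG.count K (k+2)` with `e` gives `η₁, ε₁`; `lfav_good K η₁ e` gives `η`;
`ε = ε₁ e / (2 (k + 2))`.  For `y : G` put `ν_y j x = ν (y + b psi_j(x))`, `f_y`, `g_y` likewise (`affF_patt`; `Ind j`: as in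
`Pool.CG.psi_ind`).  `y` is bad if `¬ LF η₁ ν_y` or `¬ Cut j (f_y j - g_y j) ε₁` for some `j`.  Measure of the bad `y`: first kind `≤ e`.
Second kind, for fixed `j`: choose `u_y` with `|av_x (f_y j - g_y j) ∏_{i ≠ j} u_y i| > ε₁` for the bad `y`; let `u⁺ y = u_y` if `y` is bad
with positive sign and `0` otherwise (`univ.erase j` is not empty because `k + 2 ≥ 2`, so the product is `0` there); it is `GoodL`;
by `av_phiL`: `ε ≥ av_z (f - g) phiL b j u⁺ = av_y [bad⁺] av_x .. ≥ ε₁ · measure (bad⁺)`.  Same for the negative sign.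
So the second kind has measure `≤ (k+2) · 2 ε/ε₁ = e`.
For good `y`: `count` (`A = univ`) gives `av_x ∏ f_y ≥ av_x ∏ g_y - e`; for bad `y`: `av_x ∏ f_y ≥ 0 ≥ av_x ∏ g_y - 1`.
Average: `≥ av_y av_x ∏ g - e - 2e ≥ .. - e'`.
-/

set_option autoImplicit false

namespace Pool.CL

open Finset Pool.CG

private theorem cntl_ind {G : Type} [AddCommGroup G] [Fintype G] {k : ℕ} {D : Finset G} (b : ℕ) (j : Fin (k + 2)) (F : G → ℝ)
    (y : G) : Ind j (fun x : Fin (k + 2) → Pt D => F (y + b • psi j (cv x))) := by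
  classical
  intro x v
  have h := psi_ind j (fun z : G => F (y + b • z)) (cv x) (v : G)
  have hu : cv (Function.update x j v) = Function.update (cv x) j (v : G) := by
    funext i
    by_cases hi : i = j
    · subst hi
      simp [cv]
    · simp [cv, Function.update_of_ne hi]
  show F (y + b • psi j (cv (Function.update x j v))) = F (y + b • psi j (cv x))
  rw [hu]
  exact h

/-- the test functions of the points `y` with `P y`, and `0` at the other points -/
private theorem cntl_side {G : Type} [AddCommGroup G] [Fintype G] {k : ℕ} {D : Finset G} (b : ℕ)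
    (j : Fin (k + 2)) (F : G → ℝ) (ε : ℝ)
    (hε : ∀ u : G → Fin (k + 2) → (Fin (k + 2) → Pt D) → ℝ, GoodL u →
        |av (fun z : G => F z * phiL b j u z)| ≤ ε)
    (U : G → Fin (k + 2) → (Fin (k + 2) → Pt D) → ℝ) (hU : GoodL U) (P : G → Prop) :
    |av (fun y : G => open Classical in if P y then av (fun x : Fin (k + 2) → Pt D =>
      F (y + b • psi j (cv x)) * ∏ i ∈ univ.erase j, U y i x) else 0)| ≤ ε := by
  classical
  have hne : (univ.erase j : Finset (Fin (k + 2))).Nonempty := by
    rw [← Finset.card_pos, Finset.card_erase_of_mem (mem_univ j), card_univ, Fintype.card_fin]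
    omega
  let u : G → Fin (k + 2) → (Fin (k + 2) → Pt D) → ℝ := fun y i x => if P y then U y i x else 0
  have hu : GoodL u := by
    refine ⟨fun y i x => ?_, fun y i => ?_⟩
    · by_cases h : P y
      · simp only [u, h, if_true]
        exact hU.1 y i x
      · simp only [u, h, if_false]
        exact ⟨le_refl 0, zero_le_one⟩
    · intro x v
      by_cases h : P y
      · simp only [u, h, if_true]
        exact hU.2 y i x v
      · simp only [u, h, if_false]
  have h1 := hε u hu
  rw [av_phiL b j u F] at h1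
  have e1 : ∀ y : G, av (fun x : Fin (k + 2) → Pt D => F (y + b • psi j (cv x)) * ∏ i ∈ univ.erase j, u y i x) =
      if P y then av (fun x : Fin (k + 2) → Pt D =>
        F (y + b • psi j (cv x)) * ∏ i ∈ univ.erase j, U y i x) else 0 := by
    intro y
    by_cases h : P y
    · simp only [u, h, if_true]
    · simp only [u, h, if_false]
      have h2 : ∀ x : Fin (k + 2) → Pt D,
          F (y + b • psi j (cv x)) * ∏ _i ∈ univ.erase j, (0 : ℝ) = 0 := by
        intro x
        obtain ⟨i, hi⟩ := hne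
        rw [Finset.prod_eq_zero hi rfl, mul_zero]
      rw [av_congr h2, av_zero]
  rw [av_congr e1] at h1
  exact h1

/-- the measure of the base points where the cut norm is large -/
private theorem cntl_bad {G : Type} [AddCommGroup G] [Fintype G] {k : ℕ} {D : Finset G} (b : ℕ)
    (j : Fin (k + 2)) (F : G → ℝ) (ε ε₁ : ℝ) (hε₁ : 0 < ε₁)
    (hε : ∀ u : G → Fin (k + 2) → (Fin (k + 2) → Pt D) → ℝ, GoodL u →
        |av (fun z : G => F z * phiL b j u z)| ≤ ε) :
    av (fun y : G => open Classical in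
      if Cut j (fun x : Fin (k + 2) → Pt D => F (y + b • psi j (cv x))) ε₁ then (0 : ℝ) else 1) ≤ 2 * ε / ε₁ := by
  classical
  have hex : ∀ y : G, ∃ U : Fin (k + 2) → (Fin (k + 2) → Pt D) → ℝ,
      (∀ i x, 0 ≤ U i x ∧ U i x ≤ 1) ∧ (∀ i, Ind i (U i)) ∧
      (¬ Cut j (fun x : Fin (k + 2) → Pt D => F (y + b • psi j (cv x))) ε₁ →
        ε₁ < |av (fun x : Fin (k + 2) → Pt D => F (y + b • psi j (cv x)) * ∏ i ∈ univ.erase j, U i x)|) := by
    intro y
    by_cases h : Cut j (fun x : Fin (k + 2) → Pt D => F (y + b • psi j (cv x))) ε₁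
    · exact ⟨fun _ _ => 0, fun _ _ => ⟨le_refl 0, zero_le_one⟩, fun i => Ind.const i 0, fun h' => absurd h h'⟩
    · have h' := h
      unfold Cut at h'
      push Not at h'
      obtain ⟨U, h1, h2, h3⟩ := h'
      exact ⟨U, h1, h2, fun _ => h3⟩
  choose U hU1 hU2 hU3 using hex
  have hU : GoodL U := ⟨hU1, hU2⟩
  set val : G → ℝ := fun y => av (fun x : Fin (k + 2) → Pt D =>
    F (y + b • psi j (cv x)) * ∏ i ∈ univ.erase j, U y i x) with hval
  have hp := cntl_side b j F ε hε U hU (fun y => ε₁ < val y)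
  have hn := cntl_side b j F ε hε U hU (fun y => val y < -ε₁)
  have hp1 : ε₁ * av (fun y : G => if ε₁ < val y then (1 : ℝ) else 0) ≤ ε := by
    refine le_trans ?_ ((le_abs_self _).trans hp)
    rw [← av_const_mul]
    refine av_mono fun y => ?_
    by_cases h : ε₁ < val y
    · simp only [h, if_true, mul_one]
      exact h.le
    · simp only [h, if_false, mul_zero]
      exact le_refl 0
  have hn1 : ε₁ * av (fun y : G => if val y < -ε₁ then (1 : ℝ) else 0) ≤ ε := by
    refine le_trans ?_ ((neg_le_abs _).trans hn)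
    rw [← av_const_mul, ← av_neg]
    refine av_mono fun y => ?_
    by_cases h : val y < -ε₁
    · simp only [h, if_true, mul_one]
      have h5 : val y < -ε₁ := h
      have h6 : ε₁ ≤ -val y := by linarith
      exact h6
    · simp only [h, if_false, mul_zero, neg_zero]
      exact le_refl 0
  have hsum : av (fun y : G =>
      if Cut j (fun x : Fin (k + 2) → Pt D => F (y + b • psi j (cv x))) ε₁ then (0 : ℝ) else 1) ≤
      av (fun y : G => (if ε₁ < val y then (1 : ℝ) else 0) + if val y < -ε₁ then (1 : ℝ) else 0) := by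
    refine av_mono fun y => ?_
    by_cases h : Cut j (fun x : Fin (k + 2) → Pt D => F (y + b • psi j (cv x))) ε₁
    · rw [if_pos h]
      have a1 : (0 : ℝ) ≤ (if ε₁ < val y then (1 : ℝ) else 0) := by split_ifs <;> norm_num
      have a2 : (0 : ℝ) ≤ (if val y < -ε₁ then (1 : ℝ) else 0) := by split_ifs <;> norm_num
      linarith
    · rw [if_neg h]
      have h3 : ε₁ < |val y| := hU3 y h
      rcases lt_abs.1 h3 with h4 | h4
      · have a2 : (0 : ℝ) ≤ (if val y < -ε₁ then (1 : ℝ) else 0) := by split_ifs <;> norm_num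
        rw [if_pos h4]
        linarith
      · have a1 : (0 : ℝ) ≤ (if ε₁ < val y then (1 : ℝ) else 0) := by split_ifs <;> norm_num
        have h5 : val y < -ε₁ := by linarith
        rw [if_pos h5]
        linarith
  refine hsum.trans ?_
  rw [av_add, le_div_iff₀ hε₁]
  nlinarith

theorem cnt_loc (k : ℕ) (e' : ℝ) (he' : 0 < e') : ∃ (η ε : ℝ), 0 < η ∧ 0 < ε ∧
    ∀ (G : Type) [AddCommGroup G] [Fintype G] [DecidableEq G] (D : Finset G) (b : ℕ) (ν f g : G → ℝ), D.Nonempty →
      (∀ x, 0 ≤ f x ∧ f x ≤ ν x) → (∀ x, 0 ≤ g x ∧ g x ≤ 1) → LFav η (affF (D := D) ν (patt k b) univ) →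
      (∀ (j : Fin (k + 2)) (u : G → Fin (k + 2) → (Fin (k + 2) → Pt D) → ℝ), GoodL u →
        |av (fun z : G => (f z - g z) * phiL b j u z)| ≤ ε) →
      av (fun y : G => av (fun x : Fin (k + 2) → Pt D => ∏ j, g (y + b • psi j (cv x)))) - e' ≤
        av (fun y : G => av (fun x : Fin (k + 2) → Pt D => ∏ j, f (y + b • psi j (cv x)))) := by
  classical
  obtain ⟨η₁, ε₁, hη₁, hε₁, hcount⟩ := count (Fin (k + 2)) (k + 2) (e' / 4) (by linarith)
  obtain ⟨η, hη, hgood⟩ := lfav_good (Fin (k + 2)) η₁ (e' / 4) hη₁ (by linarith)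
  have hk : (0 : ℝ) < (k : ℝ) + 2 := by positivity
  refine ⟨η, ε₁ * (e' / 4) / (2 * ((k : ℝ) + 2)), hη, by positivity, ?_⟩
  intro G _ _ _ D b ν f g hD hf hg hLF hcut
  have hGn : Nonempty G := ⟨0⟩
  obtain ⟨d, hd⟩ := hD
  have hPn : Nonempty (Fin (k + 2) → Pt D) := ⟨fun _ => ⟨d, hd⟩⟩
  -- the bad points
  set IA : G → ℝ := fun y => if LF η₁ (affF (D := D) ν (patt k b) univ y) then (0 : ℝ) else 1 with hIA
  set IC : Fin (k + 2) → G → ℝ := fun j y =>
    if Cut j (fun x : Fin (k + 2) → Pt D => (fun z => f z - g z) (y + b • psi j (cv x))) ε₁ then (0 : ℝ) else 1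
    with hIC
  have hA : av IA ≤ e' / 4 := hgood G (Pt D) (affF (D := D) ν (patt k b) univ) hLF
  have hC : ∀ j, av (IC j) ≤ e' / 4 / ((k : ℝ) + 2) := by
    intro j
    have h1 := cntl_bad b j (fun z => f z - g z) (ε₁ * (e' / 4) / (2 * ((k : ℝ) + 2))) ε₁ hε₁
      (fun u hu => hcut j u hu)
    refine h1.trans (le_of_eq ?_)
    field_simp
  have hIA0 : ∀ y, 0 ≤ IA y := fun y => by
    simp only [hIA]
    split_ifs <;> norm_num
  have hIC0 : ∀ j y, 0 ≤ IC j y := fun j y => by
    simp only [hIC]
    split_ifs <;> norm_num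
  have hpt : ∀ y : G, av (fun x : Fin (k + 2) → Pt D => ∏ j, g (y + b • psi j (cv x))) ≤
      av (fun x : Fin (k + 2) → Pt D => ∏ j, f (y + b • psi j (cv x))) + (e' / 4 + (IA y + ∑ j, IC j y)) := by
    intro y
    have hsn : 0 ≤ ∑ j, IC j y := sum_nonneg fun j _ => hIC0 j y
    by_cases hgd : LF η₁ (affF (D := D) ν (patt k b) univ y) ∧
        ∀ j, Cut j (fun x : Fin (k + 2) → Pt D => (fun z => f z - g z) (y + b • psi j (cv x))) ε₁
    · have h1 := hcount (Pt D) (affF (D := D) ν (patt k b) univ y)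
        (fun j x => f (y + b • psi j (cv x))) (fun j x => g (y + b • psi j (cv x))) univ (by simp)
        (fun i x => by
          rw [affF_patt]
          exact (hf _).1.trans (hf _).2)
        (fun i => by
          have h2 := cntl_ind (D := D) b i ν y
          intro x v
          rw [affF_patt, affF_patt]
          exact h2 x v)
        hgd.1 (fun i => cntl_ind b i f y) (fun i => cntl_ind b i g y) (fun i x => (hf _).1)
        (fun i x => by
          unfold nuA
          rw [if_pos (mem_univ i), affF_patt]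
          exact (hf _).2)
        (fun i x => hg _) hgd.2
      have h3 := (abs_le.1 h1).1
      have h4 := hIA0 y
      linarith
    · have h5 : 1 ≤ IA y + ∑ j, IC j y := by
        by_cases hL : LF η₁ (affF (D := D) ν (patt k b) univ y)
        · have h6 : ∃ j, ¬ Cut j (fun x : Fin (k + 2) → Pt D => (fun z => f z - g z) (y + b • psi j (cv x))) ε₁ := by
            by_contra hcon
            push Not at hcon
            exact hgd ⟨hL, hcon⟩
          obtain ⟨j, hj⟩ := h6
          have h7 : IC j y = 1 := by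
            simp only [hIC]
            rw [if_neg hj]
          have h8 : IC j y ≤ ∑ j, IC j y := single_le_sum (fun i _ => hIC0 i y) (mem_univ j)
          have h4 := hIA0 y
          linarith
        · have h7 : IA y = 1 := by
            simp only [hIA]
            rw [if_neg hL]
          linarith
      have h9 : av (fun x : Fin (k + 2) → Pt D => ∏ j, g (y + b • psi j (cv x))) ≤ 1 :=
        av_le_of_le fun x => prod_le_one (fun i _ => (hg _).1) (fun i _ => (hg _).2)
      have h10 : 0 ≤ av (fun x : Fin (k + 2) → Pt D => ∏ j, f (y + b • psi j (cv x))) :=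
        av_nonneg fun x => prod_nonneg fun i _ => (hf _).1
      linarith
  have hfin := av_mono hpt
  rw [av_add, av_add, av_const, av_add, av_sum] at hfin
  have hs : ∑ j : Fin (k + 2), av (IC j) ≤ e' / 4 := by
    calc ∑ j : Fin (k + 2), av (IC j) ≤ ∑ _j : Fin (k + 2), e' / 4 / ((k : ℝ) + 2) :=
          sum_le_sum fun j _ => hC j
      _ = e' / 4 := by
          rw [sum_const, card_univ, Fintype.card_fin, nsmul_eq_mul]
          push_cast
          field_simp
  linarith

end Pool.CL
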