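import Pool.Agent.Lib.MP_c77da8_nt.CG.Basic
import Pool.Agent.Lib.MP_c77da8_nt.CG.SDefs

/-!
# CL-Defs: narrow geometric progressions in the shifted primes (MP_c77da8_nt), definitions

Half R (relative Szemerédi theorem for narrow progressions in a finite abelian group `G`, uniform in `G`): the variables `x_i`
run over a small set `D ⊆ G`, the base point `y` over `G`; `D` is almost invariant under the translations by `e t`, `t ∈ D'`,
`|e| ≤ B`.  Half N: `G = (ℤ/M)^π(w)`, `m(z) = ∏_(p ≤ w) p^(z_p)`, `D` and `D'` boxes of sides `H > H'`.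
-/

set_option autoImplicit false

namespace Pool.CL

open Finset Pool.CG

noncomputable section

/-- the points of the finite set `D` -/
abbrev Pt {G : Type} (D : Finset G) : Type := {x : G // x ∈ D}

/-- a vector of points of `D` as a vector of elements of `G` -/
def cv {G K : Type} {D : Finset G} (x : K → Pt D) : K → G := fun i => (x i : G)

/-- `D` is almost invariant under the translations by `e t`, `t ∈ D'`, `|e| ≤ B` -/
def Inv {G : Type} [AddCommGroup G] [DecidableEq G] (D D' : Finset G) (B : ℕ) (κ : ℝ) : Prop :=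
  ∀ t ∈ D', ∀ e : ℤ, |e| ≤ (B : ℤ) → ((D.filter fun x => x + e • t ∉ D).card : ℝ) ≤ κ * D.card

/-- the linear forms condition, in mean square with respect to the parameter `y` -/
def LFav {Y K X : Type} [Fintype Y] [Fintype K] [DecidableEq K] [Fintype X] (η : ℝ)
    (ν : Y → K → (K → X) → ℝ) : Prop :=
  ∀ S : Finset (K × Finset K), (∀ p ∈ S, p.1 ∉ p.2) →
    av (fun y : Y => (av (fun z : (K → X) × (K → X) => ∏ p ∈ S, ν y p.1 (mix p.2 z.1 z.2)) - 1) ^ 2) ≤ η

/-- the weight `ν` at the forms `y + ∑_l a i l x_l`, `i ∈ J`; `1` for `i ∉ J` -/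
def affF {G K : Type} [AddCommGroup G] [Fintype K] [DecidableEq K] {D : Finset G} (ν : G → ℝ) (a : K → K → ℤ)
    (J : Finset K) (y : G) (i : K) (x : K → Pt D) : ℝ :=
  if i ∈ J then ν (y + ∑ l, a i l • (x l : G)) else 1

/-- the matrix of the forms `b psi_j` -/
def patt (k b : ℕ) : Fin (k + 2) → Fin (k + 2) → ℤ := fun i l => (b : ℤ) * (((l : ℕ) : ℤ) - ((i : ℕ) : ℤ))

/-- the matrix of the form `B ∑_(l ≠ 0) t_l` -/
def cube (k B : ℕ) : Fin (k + 2) → Fin (k + 2) → ℤ := fun i l => if l = i then 0 else (B : ℤ)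

/-- the functions `u` which are allowed in the local cut norm (they may depend on the base point) -/
def GoodL {G : Type} {k : ℕ} {D : Finset G} (u : G → Fin (k + 2) → (Fin (k + 2) → Pt D) → ℝ) : Prop :=
  (∀ y i x, 0 ≤ u y i x ∧ u y i x ≤ 1) ∧ ∀ y i, Ind i (u y i)

/-- the local test function for the form `b psi_j` -/
def phiL {G : Type} [AddCommGroup G] {k : ℕ} {D : Finset G} (b : ℕ) (j : Fin (k + 2))
    (u : G → Fin (k + 2) → (Fin (k + 2) → Pt D) → ℝ) (z : G) : ℝ :=
  av (fun x : Fin (k + 2) → Pt D => ∏ i ∈ univ.erase j, u (z - b • psi j (cv x)) i x)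

/-! ### Half N -/

/-- the primes `≤ w` -/
abbrev Pw (w : ℕ) : Type := {p : ℕ // p ∈ (Icc 1 w).filter Nat.Prime}

/-- the group `(ℤ/M)^π(w)` -/
abbrev GG (w M : ℕ) : Type := Pw w → ZMod M

/-- the multiplier `m(z) = ∏_(p ≤ w) p^(z_p)` -/
def mL (w M : ℕ) (z : GG w M) : ℕ := ∏ p : Pw w, p.1 ^ (z p).val

/-- the multiplier `W m(z)` -/
def AL (w M : ℕ) (z : GG w M) : ℕ := Wp w * mL w M z

/-- the majorant -/
def nuL (w M R n : ℕ) (z : GG w M) : ℝ := nuw w R (AL w M z * n - 1)

/-- the weighted primes, in the inner box `E ≤ z_p < M - E` -/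
def fL (w M R E n : ℕ) (z : GG w M) : ℝ :=
  open Classical in
  if (AL w M z * n - 1).Prime ∧ ∀ p, E ≤ (z p).val ∧ (z p).val + E < M then VV (vp w R) R else 0

/-- the box `{1, ..., H}^π(w)` -/
def box (w M H : ℕ) [NeZero M] : Finset (GG w M) := univ.filter fun x => ∀ p, 1 ≤ (x p).val ∧ (x p).val ≤ H

/-- two random multipliers: they rarely coincide, and a prime `p > w` rarely divides the difference -/
def PairL {Ω : Type} [Fintype Ω] (w H : ℕ) (C P : ℝ) (A A' : Ω → ℕ) : Prop :=
  ((univ.filter fun ω => A ω = A' ω).card : ℝ) * P ≤ Fintype.card Ω ∧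
    ∀ p : ℕ, p.Prime → w < p →
      ((univ.filter fun ω => A ω ≠ A' ω ∧ A ω ≡ A' ω [MOD p]).card : ℝ) / Fintype.card Ω ≤
        C * (1 / (orderOf (2 : ZMod p) : ℝ) + 1 / (H : ℝ))

/-- the sample space of the systems of forms: a base point and variables in the box -/
abbrev Om (w M H : ℕ) [NeZero M] (J : Type) : Type := GG w M × (J → Pt (box w M H))

/-- the point `y + ∑_l c_l x_l` -/
def pt {w M H : ℕ} [NeZero M] {J : Type} [Fintype J] (c : J → ℤ) (ω : Om w M H J) : GG w M :=
  ω.1 + ∑ l, c l • (ω.2 l : GG w M)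

end

end Pool.CL
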