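import Pool.Agent.Lib.MP_c77da8_nt.CL.Defs
import Pool.Agent.Lib.MP_c77da8_nt.CG.OrdA

/-!
# CL-OrdL: solutions of `2^(val (β + d x)) = g (mod p)` in a short interval

PROOF.  `β' = β.val ∈ [0, M)`.  For `x ∈ [1, H]` the integer `β' + d x` lies in `(-M, 2M)`, so `val (β + d x)` is `β' + d x`, or `β' + d x - M` (only
for `d > 0`, when `β' + d x ≥ M`), or `β' + d x + M` (only for `d < 0`, when `β' + d x < 0`).  So `[1, H]` is the union of two disjoint
intervals on each of which `val (β + d x) = const + d x`.  On an interval of length `h` (`h` consecutive integers) the equation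
`2^(const + d x) = g` in `(ZMod p)ˣ` has at most `1 + h / ord_p(2^|d|)` solutions (`Pool.CG.pow_count` with `g = 2^|d|`, after a shift, or
directly: two solutions `x, x'` have `ord_p(2^|d|) ∣ x - x'`).  `ord_p(2^|d|) ≥ ord_p(2) / |d|` (`orderOf_pow`).  Total
`≤ 2 + H |d| / ord_p(2)`.
-/

set_option autoImplicit false

namespace Pool.CL

open Finset Pool.CG

private theorem sep_count (o D : ℤ) (ho : 0 ≤ o) (hD : 0 ≤ D) (A : Finset ℕ) :
    ∀ (m M' : ℤ), (∀ x ∈ A, m ≤ (x : ℤ)) → (∀ x ∈ A, (x : ℤ) ≤ M') → m ≤ M' →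
      (∀ x ∈ A, ∀ y ∈ A, x < y → o ≤ D * ((y : ℤ) - x)) → (A.card : ℤ) * o ≤ o + D * (M' - m) := by
  induction A using Finset.induction_on_max with
  | empty =>
    intro m M' _ _ hmM _
    have := mul_nonneg hD (sub_nonneg.2 hmM)
    simp only [card_empty, Nat.cast_zero, zero_mul]
    linarith
  | insert a s hs ih =>
    intro m M' h1 h2 hmM hg
    have has : a ∉ s := fun h => lt_irrefl _ (hs a h)
    rw [card_insert_of_notMem has]
    have ha1 : m ≤ (a : ℤ) := h1 a (mem_insert_self a s)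
    have ha2 : (a : ℤ) ≤ M' := h2 a (mem_insert_self a s)
    have h5 : D * ((a : ℤ) - m) ≤ D * (M' - m) := mul_le_mul_of_nonneg_left (by linarith) hD
    rcases s.eq_empty_or_nonempty with rfl | hne
    · simp only [card_empty]
      have h4 : 0 ≤ D * (M' - m) := mul_nonneg hD (by linarith)
      push_cast
      linarith
    · have hb := s.max'_mem hne
      have h3 := ih m (s.max' hne : ℕ) (fun x hx => h1 x (mem_insert_of_mem hx))
        (fun x hx => by exact_mod_cast s.le_max' x hx) (h1 _ (mem_insert_of_mem hb))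
        (fun x hx y hy hxy => hg x (mem_insert_of_mem hx) y (mem_insert_of_mem hy) hxy)
      have h4 := hg _ (mem_insert_of_mem hb) a (mem_insert_self a s) (hs _ hb)
      push_cast
      nlinarith

theorem ord_count (p M H : ℕ) [NeZero M] (hp : p.Prime) (hp2 : 2 < p) (β : ZMod M) (d : ℤ) (hd : d ≠ 0)
    (hM : |d| * (H : ℤ) < M) (g : ZMod p) :
    (((Icc 1 H).filter fun x : ℕ => (2 : ZMod p) ^ (β + d • (x : ZMod M)).val = g).card : ℝ) ≤
      2 + (H : ℝ) * (|d| : ℤ) / (orderOf (2 : ZMod p) : ℝ) := by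
  classical
  have := Fact.mk hp
  have h20 : (2 : ZMod p) ≠ 0 := by
    have h : ((2 : ℕ) : ZMod p) ≠ 0 := by
      rw [Ne, ZMod.natCast_eq_zero_iff]
      exact fun h => absurd (Nat.le_of_dvd (by norm_num) h) (by omega)
    exact_mod_cast h
  obtain ⟨u, hu⟩ : ∃ u : (ZMod p)ˣ, (u : ZMod p) = (2 : ZMod p) := ⟨Units.mk0 _ h20, rfl⟩
  have hoo : orderOf (2 : ZMod p) = orderOf u := by rw [← hu, orderOf_units]
  have hpos : 0 < orderOf u := orderOf_pos u
  rw [hoo]
  have hmod : ∀ v w : ℕ, (2 : ZMod p) ^ v = g → (2 : ZMod p) ^ w = g → ((orderOf u : ℕ) : ℤ) ∣ (w : ℤ) - v := by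
    intro v w hv hw
    have h1 : v ≡ w [MOD orderOf u] := by
      rw [← pow_eq_pow_iff_modEq]
      apply Units.ext
      rw [Units.val_pow_eq_pow_val, Units.val_pow_eq_pow_val, hu, hv, hw]
    exact (Nat.modEq_iff_dvd.1 h1)
  have hMpos : (0 : ℤ) < M := by exact_mod_cast Nat.pos_of_ne_zero (NeZero.ne M)
  have hβ0 : (0 : ℤ) ≤ (β.val : ℤ) := Int.natCast_nonneg _
  have hβ1 : (β.val : ℤ) < M := by exact_mod_cast ZMod.val_lt β
  have habs : ∀ x : ℕ, x ≤ H → |d * (x : ℤ)| < M := by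
    intro x hx
    rw [abs_mul, Nat.abs_cast]
    have : (x : ℤ) ≤ H := by exact_mod_cast hx
    exact lt_of_le_of_lt (mul_le_mul_of_nonneg_left this (abs_nonneg d)) hM
  -- the value
  have hval : ∀ x : ℕ, (M : ℤ) ∣ ((β + d • (x : ZMod M)).val : ℤ) - ((β.val : ℤ) + d * x) := by
    intro x
    rw [← ZMod.intCast_zmod_eq_zero_iff_dvd]
    push_cast
    rw [ZMod.natCast_zmod_val, ZMod.natCast_zmod_val]
    rw [zsmul_eq_mul]
    ring
  have hv0 : ∀ x : ℕ, (0 : ℤ) ≤ ((β + d • (x : ZMod M)).val : ℤ) := fun x => Int.natCast_nonneg _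
  have hv1 : ∀ x : ℕ, ((β + d • (x : ZMod M)).val : ℤ) < M := fun x => by exact_mod_cast ZMod.val_lt _
  have key : ∀ a b : ℤ, (M : ℤ) ∣ a - b → 0 ≤ a → a < M → 0 ≤ b → b < M → a = b := by
    intro a b h1 h2 h3 h4 h5
    have h6 : |a - b| < M := by rw [abs_lt]; constructor <;> linarith
    have := Int.eq_zero_of_abs_lt_dvd h1 h6
    linarith
  set S := (Icc 1 H).filter fun x : ℕ => (2 : ZMod p) ^ (β + d • (x : ZMod M)).val = g with hS
  let Q : ℕ → Prop := fun x => 0 ≤ (β.val : ℤ) + d * x ∧ (β.val : ℤ) + d * x < M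
  set S0 := S.filter Q with hS0
  set S1 := S.filter (fun x => ¬ Q x) with hS1
  have hcard : S.card = S0.card + S1.card := (card_filter_add_card_filter_not (s := S) (p := Q)).symm
  have hQ0 : ∀ x : ℕ, Q x → ((β + d • (x : ZMod M)).val : ℤ) = (β.val : ℤ) + d * x := by
    intro x hx
    exact key _ _ (hval x) (hv0 x) (hv1 x) hx.1 hx.2
  have hmem : ∀ x ∈ S, 1 ≤ x ∧ x ≤ H ∧ (2 : ZMod p) ^ (β + d • (x : ZMod M)).val = g := by
    intro x hx
    rw [hS, mem_filter, mem_Icc] at hx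
    exact ⟨hx.1.1, hx.1.2, hx.2⟩
  -- the difference of the values
  have hsum0 : ∀ x : ℕ, x ≤ H → ¬ Q x →
      ((β + d • (x : ZMod M)).val : ℤ) = (β.val : ℤ) + d * x + (if 0 < d then -(M : ℤ) else M) := by
    intro x hxH hx
    have h1 := abs_lt.1 (habs x hxH)
    have hx0 : (0 : ℤ) ≤ (x : ℤ) := Int.natCast_nonneg _
    by_cases hd0 : 0 < d
    · rw [if_pos hd0]
      have h2 : 0 ≤ d * (x : ℤ) := mul_nonneg hd0.le hx0
      have h3 : (M : ℤ) ≤ (β.val : ℤ) + d * x := by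
        by_contra h
        exact hx ⟨by linarith, by linarith⟩
      apply key
      · have := hval x
        have h4 : ((β + d • (x : ZMod M)).val : ℤ) - ((β.val : ℤ) + d * x + -(M : ℤ)) =
            (((β + d • (x : ZMod M)).val : ℤ) - ((β.val : ℤ) + d * x)) + M := by ring
        rw [h4]
        exact dvd_add this (dvd_refl _)
      · exact hv0 x
      · exact hv1 x
      · linarith
      · linarith [h1.2]
    · rw [if_neg hd0]
      have hd1 : d < 0 := lt_of_le_of_ne (not_lt.1 hd0) hd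
      have h2 : d * (x : ℤ) ≤ 0 := mul_nonpos_of_nonpos_of_nonneg hd1.le hx0
      have h3 : (β.val : ℤ) + d * x < 0 := by
        by_contra h
        exact hx ⟨by linarith, by linarith⟩
      apply key
      · have := hval x
        have h4 : ((β + d • (x : ZMod M)).val : ℤ) - ((β.val : ℤ) + d * x + (M : ℤ)) =
            (((β + d • (x : ZMod M)).val : ℤ) - ((β.val : ℤ) + d * x)) - M := by ring
        rw [h4]
        exact dvd_sub this (dvd_refl _)
      · exact hv0 x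
      · exact hv1 x
      · linarith [h1.1]
      · linarith
  have hdpos : 0 < |d| := abs_pos.2 hd
  have hgap : ∀ x y : ℕ, x < y → ((orderOf u : ℕ) : ℤ) ∣ d * ((y : ℤ) - x) → ((orderOf u : ℕ) : ℤ) ≤ |d| * ((y : ℤ) - x) := by
    intro x y hxy h
    have h1 : (0 : ℤ) < (y : ℤ) - x := by
      have : (x : ℤ) < y := by exact_mod_cast hxy
      linarith
    have h2 : ((orderOf u : ℕ) : ℤ) ∣ |d| * ((y : ℤ) - x) := by
      have h3 : |d| * ((y : ℤ) - x) = |d * ((y : ℤ) - x)| := by rw [abs_mul, abs_of_pos h1]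
      rw [h3]
      exact (dvd_abs _ _).2 h
    exact Int.le_of_dvd (mul_pos hdpos h1) h2
  have hg0 : ∀ x ∈ S0, ∀ y ∈ S0, x < y → ((orderOf u : ℕ) : ℤ) ≤ |d| * ((y : ℤ) - x) := by
    intro x hx y hy hxy
    rw [hS0, mem_filter] at hx hy
    apply hgap x y hxy
    have h1 := hmod _ _ (hmem x hx.1).2.2 (hmem y hy.1).2.2
    rw [hQ0 x hx.2, hQ0 y hy.2] at h1
    have h2 : (β.val : ℤ) + d * y - ((β.val : ℤ) + d * x) = d * ((y : ℤ) - x) := by ring
    rwa [h2] at h1
  have hg1 : ∀ x ∈ S1, ∀ y ∈ S1, x < y → ((orderOf u : ℕ) : ℤ) ≤ |d| * ((y : ℤ) - x) := by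
    intro x hx y hy hxy
    rw [hS1, mem_filter] at hx hy
    apply hgap x y hxy
    have h1 := hmod _ _ (hmem x hx.1).2.2 (hmem y hy.1).2.2
    rw [hsum0 x (hmem x hx.1).2.1 hx.2, hsum0 y (hmem y hy.1).2.1 hy.2] at h1
    have h2 : (β.val : ℤ) + d * y + (if 0 < d then -(M : ℤ) else M) -
        ((β.val : ℤ) + d * x + (if 0 < d then -(M : ℤ) else M)) = d * ((y : ℤ) - x) := by ring
    rwa [h2] at h1
  -- S0 lies below S1
  have hmono : ∀ x y : ℕ, ¬ Q x → x ≤ y → ¬ Q y := by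
    intro x y hx hxy hy
    apply hx
    have h1 : (x : ℤ) ≤ y := by exact_mod_cast hxy
    have hx0 : (0 : ℤ) ≤ (x : ℤ) := Int.natCast_nonneg _
    rcases lt_or_gt_of_ne hd with h | h
    · have h2 : d * (y : ℤ) ≤ d * x := mul_le_mul_of_nonpos_left h1 h.le
      have h3 : d * (x : ℤ) ≤ 0 := mul_nonpos_of_nonpos_of_nonneg h.le hx0
      exact ⟨by linarith [hy.1], by linarith⟩
    · have h2 : d * (x : ℤ) ≤ d * y := mul_le_mul_of_nonneg_left h1 h.le
      have h3 : 0 ≤ d * (x : ℤ) := mul_nonneg h.le hx0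
      exact ⟨by linarith, by linarith [hy.2]⟩
  have ho0 : (0 : ℤ) ≤ ((orderOf u : ℕ) : ℤ) := Int.natCast_nonneg _
  have hfin : (S.card : ℤ) * ((orderOf u : ℕ) : ℤ) ≤ 2 * ((orderOf u : ℕ) : ℤ) + |d| * (H : ℤ) := by
    have hH0 : (0 : ℤ) ≤ |d| * (H : ℤ) := mul_nonneg hdpos.le (Int.natCast_nonneg _)
    have hc : (S.card : ℤ) = S0.card + S1.card := by exact_mod_cast hcard
    have hb0 : ∀ x ∈ S0, 1 ≤ x ∧ x ≤ H := fun x hx => ⟨(hmem x (mem_of_mem_filter x hx)).1, (hmem x (mem_of_mem_filter x hx)).2.1⟩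
    have hb1 : ∀ x ∈ S1, 1 ≤ x ∧ x ≤ H := fun x hx => ⟨(hmem x (mem_of_mem_filter x hx)).1, (hmem x (mem_of_mem_filter x hx)).2.1⟩
    rcases S0.eq_empty_or_nonempty with h0 | h0 <;> rcases S1.eq_empty_or_nonempty with h1 | h1
    · rw [hc, h0, h1]
      simp only [card_empty, Nat.cast_zero, add_zero, zero_mul]
      linarith
    · rw [hc, h0]
      obtain ⟨x, hx⟩ := h1
      have hxb := hb1 x hx
      have h2 := sep_count _ _ ho0 hdpos.le S1 1 H (fun x hx => by exact_mod_cast (hb1 x hx).1)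
        (fun x hx => by exact_mod_cast (hb1 x hx).2) (by exact_mod_cast hxb.1.trans hxb.2) hg1
      simp only [card_empty, Nat.cast_zero, zero_add]
      nlinarith
    · rw [hc, h1]
      obtain ⟨x, hx⟩ := h0
      have hxb := hb0 x hx
      have h2 := sep_count _ _ ho0 hdpos.le S0 1 H (fun x hx => by exact_mod_cast (hb0 x hx).1)
        (fun x hx => by exact_mod_cast (hb0 x hx).2) (by exact_mod_cast hxb.1.trans hxb.2) hg0
      simp only [card_empty, Nat.cast_zero, add_zero]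
      nlinarith
    · have hm0 := S0.max'_mem h0
      have hm1 := S1.min'_mem h1
      have hlt : S0.max' h0 < S1.min' h1 := by
        by_contra hcon
        have h5 : ¬ Q (S1.min' h1) := (mem_filter.1 hm1).2
        exact hmono _ _ h5 (not_lt.1 hcon) (mem_filter.1 hm0).2
      have h2 := sep_count _ _ ho0 hdpos.le S0 1 (S0.max' h0 : ℕ) (fun x hx => by exact_mod_cast (hb0 x hx).1)
        (fun x hx => by exact_mod_cast S0.le_max' x hx) (by exact_mod_cast (hb0 _ hm0).1) hg0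
      have h3 := sep_count _ _ ho0 hdpos.le S1 (S1.min' h1 : ℕ) H (fun x hx => by exact_mod_cast S1.min'_le x hx)
        (fun x hx => by exact_mod_cast (hb1 x hx).2) (by exact_mod_cast (hb1 _ hm1).2) hg1
      have hlt' : ((S0.max' h0 : ℕ) : ℤ) < ((S1.min' h1 : ℕ) : ℤ) := by exact_mod_cast hlt
      rw [hc]
      nlinarith
  have hor : (0 : ℝ) < (orderOf u : ℝ) := by exact_mod_cast hpos
  have hfinR : (S.card : ℝ) * (orderOf u : ℝ) ≤ 2 * (orderOf u : ℝ) + ((|d| : ℤ) : ℝ) * (H : ℝ) := by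
    exact_mod_cast hfin
  have h9 : (S.card : ℝ) ≤ (2 * (orderOf u : ℝ) + ((|d| : ℤ) : ℝ) * (H : ℝ)) / (orderOf u : ℝ) := by
    rw [le_div_iff₀ hor]
    exact hfinR
  have h10 : (2 * (orderOf u : ℝ) + ((|d| : ℤ) : ℝ) * (H : ℝ)) / (orderOf u : ℝ) = 2 + (H : ℝ) * ((|d| : ℤ) : ℝ) / (orderOf u : ℝ) := by
    field_simp
  rw [h10] at h9
  exact h9

end Pool.CL
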