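import Pool.Agent.Lib.MP_c77da8_nt.CL.BoxL
import Pool.Agent.Lib.MP_c77da8_nt.CL.OrdL

/-!
# CL-PairPt: two different forms `y + ∑ c_l x_l`, `y + ∑ c'_l x_l` give a good pair of multipliers

Let `d = c' l0 - c l0 ≠ 0`, `|d| ≤ 2 Bc`, `|d| H < M`.
First part: `AL (pt c ω) = AL (pt c' ω)` implies `pt c ω = pt c' ω` (`mL_inj`: unique factorization, `Nat.factorization` of
`∏ p^(z_p)` at `p` is `(z_p).val`), i.e. `∑ (c' - c)_l x_l = 0`; if all `x_l`, `l ≠ l0`, are fixed there is at most one `x_{l0}` in the box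
(in each coordinate `d x ≡ g (mod M)` has at most one solution `x ∈ [1, H]` as `|d| H < M`).  So at most `card Ω / card (box)`
points, `card (box) = H^π(w)` (`box_card`).
Second part: `p > w ≥ 2` prime, `p ∤ Wp w`, so the condition is `mL (pt c ω) ≡ mL (pt c' ω) [MOD p]`.  Fix all coordinates of `y` and of
`x_{l0}` except the coordinate `2` (`2 ∈ Pw w`), and all `x_l`, `l ≠ l0`.  For fixed `x_{l0,2}` substitute `y_2 = a - (∑ c_l x_{l,2})` (translation of `ZMod M`),
`a ∈ ZMod M` = the coordinate `2` of `pt c ω`; then the coordinate `2` of `pt c' ω` is `β + d x`, `x = x_{l0,2} ∈ [1, H]`, `β ∈ ZMod M` not depending on `x`,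
and the condition is `2^(a.val) u = 2^((β + d x).val) u'` in `ZMod p`, `u, u'` units: at most `2 + H |d|/ord` values of `x` for each `a`
(`ord_count`).  So the probability is at most `2/H + 2 Bc/ord_p(2) ≤ (2 Bc + 2)(1/ord + 1/H)`.
-/

set_option autoImplicit false

namespace Pool.CL

open Finset Pool.CG

private theorem pwPrime {w : ℕ} (p : Pw w) : p.1.Prime := (mem_filter.1 p.2).2

private theorem pwLe {w : ℕ} (p : Pw w) : p.1 ≤ w := (mem_Icc.1 (mem_filter.1 p.2).1).2

private theorem mL_fact (w M : ℕ) [NeZero M] (z : GG w M) (q : Pw w) :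
    (mL w M z).factorization q.1 = (z q).val := by
  unfold mL
  rw [Nat.factorization_prod_apply fun p _ => pow_ne_zero _ (pwPrime p).ne_zero]
  rw [Finset.sum_eq_single q]
  · rw [(pwPrime q).factorization_pow, Finsupp.single_eq_same]
  · intro p _ hpq
    rw [(pwPrime p).factorization_pow, Finsupp.single_eq_of_ne]
    intro h
    exact hpq (Subtype.ext h.symm)
  · intro h
    exact absurd (mem_univ q) h

theorem mL_inj (w M : ℕ) [NeZero M] (z z' : GG w M) (h : mL w M z = mL w M z') : z = z' := by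
  funext q
  apply ZMod.val_injective M
  rw [← mL_fact w M z q, ← mL_fact w M z' q, h]

private theorem cancelD (M H : ℕ) [NeZero M] (d : ℤ) (hd : d ≠ 0) (hM : |d| * (H : ℤ) < M) (x x' : ZMod M)
    (hx : x.val ≤ H) (hx' : x'.val ≤ H) (h : d • x = d • x') : x = x' := by
  apply ZMod.val_injective M
  have h1 : ((d * ((x.val : ℤ) - (x'.val : ℤ)) : ℤ) : ZMod M) = 0 := by
    push_cast
    rw [ZMod.natCast_zmod_val, ZMod.natCast_zmod_val, mul_sub, ← zsmul_eq_mul, ← zsmul_eq_mul, h, sub_self]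
  rw [ZMod.intCast_zmod_eq_zero_iff_dvd] at h1
  have h2 : |d * ((x.val : ℤ) - (x'.val : ℤ))| < (M : ℤ) := by
    rw [abs_mul]
    have h3 : |(x.val : ℤ) - (x'.val : ℤ)| ≤ (H : ℤ) := by
      rw [abs_le]
      constructor <;> omega
    exact lt_of_le_of_lt (mul_le_mul_of_nonneg_left h3 (abs_nonneg d)) hM
  have h4 := Int.eq_zero_of_abs_lt_dvd h1 h2
  rcases mul_eq_zero.1 h4 with h5 | h5
  · exact absurd h5 hd
  · omega

private theorem wp_pos (w : ℕ) : 0 < Wp w := by
  unfold Wp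
  exact Finset.prod_pos fun p hp => (mem_filter.1 hp).2.pos

private theorem pt_apply {w M H : ℕ} [NeZero M] {J : Type} [Fintype J] (c : J → ℤ) (ω : Om w M H J)
    (q : Pw w) : pt c ω q = ω.1 q + ∑ l, c l • (ω.2 l : GG w M) q := by
  unfold pt
  rw [Pi.add_apply, Finset.sum_apply]
  rfl

/-- the first part -/
private theorem part1 (w M H : ℕ) [NeZero M] (J : Type)
    [Fintype J] [DecidableEq J] (c c' : J → ℤ) (l0 : J) (hd : c' l0 - c l0 ≠ 0)
    (hM : |c' l0 - c l0| * (H : ℤ) < M) (hHM : H < M) :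
    ((univ.filter fun ω : Om w M H J => AL w M (pt c ω) = AL w M (pt c' ω)).card : ℝ) *
      ((H : ℝ) ^ Fintype.card (Pw w)) ≤ Fintype.card (Om w M H J) := by
  have hbox : Fintype.card (Pt (box w M H)) = H ^ Fintype.card (Pw w) := by
    rw [Fintype.card_coe, box_card w M H hHM]
  have key : (univ.filter fun ω : Om w M H J => AL w M (pt c ω) = AL w M (pt c' ω)).card *
      H ^ Fintype.card (Pw w) ≤ Fintype.card (Om w M H J) := by
    rw [← hbox, ← card_univ (α := Pt (box w M H)), ← card_product, ← card_univ]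
    refine card_le_card_of_injOn
      (fun q : Om w M H J × Pt (box w M H) => ((q.1.1, Function.update q.1.2 l0 q.2) : Om w M H J))
      (fun _ _ => mem_coe.2 (mem_univ _)) ?_
    rintro ⟨⟨y, x⟩, b⟩ h1 ⟨⟨y', x'⟩, b'⟩ h2 h3
    have h1' := (mem_filter.1 (mem_product.1 (mem_coe.1 h1)).1).2
    have h2' := (mem_filter.1 (mem_product.1 (mem_coe.1 h2)).1).2
    simp only [Prod.mk.injEq] at h3
    obtain ⟨hy, hx⟩ := h3
    subst hy
    have hb : b = b' := by
      have := congrFun hx l0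
      simpa using this
    subst hb
    have hne : ∀ l, l ≠ l0 → x l = x' l := by
      intro l hl
      have := congrFun hx l
      simpa [Function.update_of_ne hl] using this
    have e1 : ∀ q, ∑ l, c l • (x l : GG w M) q = ∑ l, c' l • (x l : GG w M) q := by
      intro q
      have h4 := mL_inj w M _ _ (Nat.eq_of_mul_eq_mul_left (wp_pos w) h1')
      have h5 := congrFun h4 q
      rw [pt_apply, pt_apply] at h5
      exact add_left_cancel h5
    have e2 : ∀ q, ∑ l, c l • (x' l : GG w M) q = ∑ l, c' l • (x' l : GG w M) q := by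
      intro q
      have h4 := mL_inj w M _ _ (Nat.eq_of_mul_eq_mul_left (wp_pos w) h2')
      have h5 := congrFun h4 q
      rw [pt_apply, pt_apply] at h5
      exact add_left_cancel h5
    have e3 : x l0 = x' l0 := by
      apply Subtype.ext
      funext q
      have hxb := (mem_filter.1 (x l0).2).2 q
      have hxb' := (mem_filter.1 (x' l0).2).2 q
      apply cancelD M H (c' l0 - c l0) hd hM _ _ hxb.2 hxb'.2
      have s1 : ∑ l, (c' l - c l) • (x l : GG w M) q = 0 := by
        simp only [sub_smul, Finset.sum_sub_distrib]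
        rw [e1 q, sub_self]
      have s2 : ∑ l, (c' l - c l) • (x' l : GG w M) q = 0 := by
        simp only [sub_smul, Finset.sum_sub_distrib]
        rw [e2 q, sub_self]
      rw [← Finset.add_sum_erase _ _ (mem_univ l0)] at s1 s2
      have s3 : ∑ l ∈ univ.erase l0, (c' l - c l) • (x l : GG w M) q =
          ∑ l ∈ univ.erase l0, (c' l - c l) • (x' l : GG w M) q := by
        apply Finset.sum_congr rfl
        intro l hl
        rw [hne l (ne_of_mem_erase hl)]
      rw [s3] at s1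
      exact add_right_cancel (s1.trans s2.symm)
    have e4 : x = x' := by
      funext l
      by_cases hl : l = l0
      · rw [hl, e3]
      · exact hne l hl
    rw [e4]
  exact_mod_cast key

/-- the side of the box -/
private abbrev HI (H : ℕ) : Type := {h : ℕ // h ∈ Icc 1 H}

/-- replace the coordinate `q` -/
private def upd {w M H : ℕ} [NeZero M] (hHM : H < M) (q : Pw w) (x : Pt (box w M H))
    (h : HI H) : Pt (box w M H) :=
  ⟨Function.update (x : GG w M) q ((h : ℕ) : ZMod M), by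
    have hx := (mem_filter.1 x.2).2
    have hh := mem_Icc.1 h.2
    refine mem_filter.2 ⟨mem_univ _, fun p => ?_⟩
    by_cases hp : p = q
    · subst hp
      rw [Function.update_self, ZMod.val_natCast_of_lt (lt_of_le_of_lt hh.2 hHM)]
      exact hh
    · rw [Function.update_of_ne hp]
      exact hx p⟩

/-- replace the coordinate `q` of `x_{l0}`, and the coordinate `q` of `y` such that `pt c ω` does not change -/
private def tr {w M H : ℕ} [NeZero M] {J : Type} [DecidableEq J] (c : J → ℤ) (hHM : H < M) (q : Pw w) (l0 : J)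
    (ω : Om w M H J) (h : HI H) : Om w M H J :=
  (Function.update ω.1 q (ω.1 q + c l0 • ((ω.2 l0 : GG w M) q - ((h : ℕ) : ZMod M))),
    Function.update ω.2 l0 (upd hHM q (ω.2 l0) h))

private theorem upd_self {w M H : ℕ} [NeZero M] (hHM : H < M) (q : Pw w) (x : Pt (box w M H))
    (h : HI H) : (upd hHM q x h : GG w M) q = ((h : ℕ) : ZMod M) := by
  unfold upd
  exact Function.update_self _ _ _

private theorem upd_ne {w M H : ℕ} [NeZero M] (hHM : H < M) (q : Pw w) (x : Pt (box w M H))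
    (h : HI H) (p : Pw w) (hp : p ≠ q) : (upd hHM q x h : GG w M) p = (x : GG w M) p := by
  unfold upd
  exact Function.update_of_ne hp _ _

/-- a coordinate of a point of the box -/
private def rd {w M H : ℕ} [NeZero M] (q : Pw w) (x : Pt (box w M H)) : HI H :=
  ⟨((x : GG w M) q).val, mem_Icc.2 ((mem_filter.1 x.2).2 q)⟩

private theorem rd_upd {w M H : ℕ} [NeZero M] (hHM : H < M) (q : Pw w) (x : Pt (box w M H))
    (h : HI H) : rd q (upd hHM q x h) = h := by
  apply Subtype.ext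
  show ((upd hHM q x h : GG w M) q).val = h.1
  rw [upd_self, ZMod.val_natCast_of_lt (lt_of_le_of_lt (mem_Icc.1 h.2).2 hHM)]

private theorem upd_upd {w M H : ℕ} [NeZero M] (hHM : H < M) (q : Pw w) (x : Pt (box w M H))
    (h : HI H) : upd hHM q (upd hHM q x h) (rd q x) = x := by
  apply Subtype.ext
  funext p
  by_cases hp : p = q
  · subst hp
    rw [upd_self]
    unfold rd
    exact ZMod.natCast_zmod_val _
  · rw [upd_ne _ _ _ _ _ hp, upd_ne _ _ _ _ _ hp]

private theorem tr_tr {w M H : ℕ} [NeZero M] {J : Type} [DecidableEq J] (c : J → ℤ) (hHM : H < M) (q : Pw w)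
    (l0 : J) (ω : Om w M H J) (h : HI H) :
    tr c hHM q l0 (tr c hHM q l0 ω h) (rd q (ω.2 l0)) = ω := by
  obtain ⟨y, x⟩ := ω
  refine Prod.ext ?_ ?_
  · funext p
    by_cases hp : p = q
    · subst hp
      simp only [tr, Function.update_self, upd_self]
      have : ((rd p (x l0) : ℕ) : ZMod M) = (x l0 : GG w M) p := by
        unfold rd
        exact ZMod.natCast_zmod_val _
      rw [this, ← neg_sub ((x l0 : GG w M) p) ((h : ℕ) : ZMod M), smul_neg, add_neg_cancel_right]
    · simp only [tr, Function.update_of_ne hp]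
  · funext l
    by_cases hl : l = l0
    · subst hl
      simp only [tr, Function.update_self, upd_upd]
    · simp only [tr, Function.update_of_ne hl]

private theorem rd_tr {w M H : ℕ} [NeZero M] {J : Type} [DecidableEq J] (c : J → ℤ) (hHM : H < M) (q : Pw w)
    (l0 : J) (ω : Om w M H J) (h : HI H) :
    rd q ((tr c hHM q l0 ω h).2 l0) = h := by
  simp only [tr, Function.update_self, rd_upd]

/-- the other coordinates do not change -/
private theorem pt_tr_ne {w M H : ℕ} [NeZero M] {J : Type} [Fintype J] [DecidableEq J] (c c'' : J → ℤ)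
    (hHM : H < M) (q : Pw w) (l0 : J) (ω : Om w M H J) (h : HI H) (p : Pw w) (hp : p ≠ q) :
    pt c'' (tr c hHM q l0 ω h) p = pt c'' ω p := by
  rw [pt_apply, pt_apply]
  congr 1
  · simp only [tr, Function.update_of_ne hp]
  · apply Finset.sum_congr rfl
    intro l _
    congr 1
    by_cases hl : l = l0
    · subst hl
      simp only [tr, Function.update_self, upd_ne _ _ _ _ _ hp]
    · simp only [tr, Function.update_of_ne hl]

/-- the coordinate `q` -/
private theorem pt_tr_self {w M H : ℕ} [NeZero M] {J : Type} [Fintype J] [DecidableEq J] (c c'' : J → ℤ)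
    (hHM : H < M) (q : Pw w) (l0 : J) (ω : Om w M H J) (h : HI H) :
    pt c'' (tr c hHM q l0 ω h) q =
      (pt c'' ω q - (c'' l0 - c l0) • (ω.2 l0 : GG w M) q) + (c'' l0 - c l0) • ((h : ℕ) : ZMod M) := by
  rw [pt_apply, pt_apply, ← Finset.add_sum_erase _ _ (mem_univ l0),
    ← Finset.add_sum_erase (univ : Finset J) (fun l => c'' l • (ω.2 l : GG w M) q) (mem_univ l0)]
  have s3 : ∑ l ∈ univ.erase l0, c'' l • ((tr c hHM q l0 ω h).2 l : GG w M) q =
      ∑ l ∈ univ.erase l0, c'' l • (ω.2 l : GG w M) q := by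
    apply Finset.sum_congr rfl
    intro l hl
    simp only [tr, Function.update_of_ne (ne_of_mem_erase hl)]
  rw [s3]
  simp only [tr, Function.update_self, upd_self, zsmul_eq_mul]
  push_cast
  ring

/-- the other primes -/
private def rest (w M : ℕ) (q : Pw w) (z : GG w M) : ℕ := ∏ p ∈ univ.erase q, p.1 ^ (z p).val

private theorem mL_split (w M : ℕ) (q : Pw w) (z : GG w M) :
    mL w M z = q.1 ^ (z q).val * rest w M q z := by
  unfold mL rest
  exact (Finset.mul_prod_erase univ (fun p : Pw w => p.1 ^ (z p).val) (mem_univ q)).symm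

private theorem unit_of_small {p n : ℕ} (hn : ¬ p ∣ n) : (n : ZMod p) ≠ 0 := by
  rwa [Ne, ZMod.natCast_eq_zero_iff]

private theorem rest_ne {w M p : ℕ} (hp : p.Prime) (hwp : w < p) (q : Pw w) (z : GG w M) :
    ((rest w M q z : ℕ) : ZMod p) ≠ 0 := by
  apply unit_of_small
  intro h
  unfold rest at h
  obtain ⟨r, _, hr⟩ := (hp.prime.dvd_finsetProd_iff _).1 h
  have h1 := hp.dvd_of_dvd_pow hr
  have h2 := Nat.le_of_dvd (pwPrime r).pos h1
  have h3 := pwLe r
  omega

private theorem wp_ne {w p : ℕ} (hp : p.Prime) (hwp : w < p) : ((Wp w : ℕ) : ZMod p) ≠ 0 := by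
  apply unit_of_small
  intro h
  unfold Wp at h
  obtain ⟨r, hr1, hr⟩ := (hp.prime.dvd_finsetProd_iff _).1 h
  have h2 := Nat.le_of_dvd (mem_filter.1 hr1).2.pos hr
  have h3 := (mem_Icc.1 (mem_filter.1 hr1).1).2
  omega

/-- at most `2 + H |d| / ord` values of the coordinate -/
private theorem fibre (w M H : ℕ) [NeZero M] (J : Type) [Fintype J] [DecidableEq J] (c c' : J → ℤ) (l0 : J)
    (hd : c' l0 - c l0 ≠ 0) (hM : |c' l0 - c l0| * (H : ℤ) < M) (hHM : H < M) (p : ℕ) (hp : p.Prime)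
    (hp2 : 2 < p) (hwp : w < p) (q : Pw w) (hq : q.1 = 2) (ω : Om w M H J) :
    ((univ.filter fun h : HI H =>
      AL w M (pt c (tr c hHM q l0 ω h)) ≡ AL w M (pt c' (tr c hHM q l0 ω h)) [MOD p]).card : ℝ) ≤
      2 + (H : ℝ) * (|c' l0 - c l0| : ℤ) / (orderOf (2 : ZMod p) : ℝ) := by
  have := Fact.mk hp
  obtain ⟨β, hβ⟩ : ∃ β : ZMod M, β = pt c' ω q - (c' l0 - c l0) • (ω.2 l0 : GG w M) q := ⟨_, rfl⟩
  obtain ⟨u, hu⟩ : ∃ u : ZMod p, u = ((rest w M q (pt c ω) : ℕ) : ZMod p) := ⟨_, rfl⟩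
  obtain ⟨u', hu'⟩ : ∃ u : ZMod p, u = ((rest w M q (pt c' ω) : ℕ) : ZMod p) := ⟨_, rfl⟩
  have hu0 : u' ≠ 0 := by rw [hu']; exact rest_ne hp hwp q _
  have hrest : ∀ (c'' : J → ℤ) (h : HI H),
      rest w M q (pt c'' (tr c hHM q l0 ω h)) = rest w M q (pt c'' ω) := by
    intro c'' h
    unfold rest
    apply Finset.prod_congr rfl
    intro r hr
    rw [pt_tr_ne c c'' hHM q l0 ω h r (ne_of_mem_erase hr)]
  refine le_trans ?_ (ord_count p M H hp hp2 β (c' l0 - c l0) hd hM ((2 : ZMod p) ^ (pt c ω q).val * u / u'))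
  rw [Nat.cast_le]
  refine card_le_card_of_injOn (fun h => (h : ℕ)) ?_ ?_
  · intro h hh
    have h1 := (mem_filter.1 (mem_coe.1 hh)).2
    refine mem_coe.2 (mem_filter.2 ⟨h.2, ?_⟩)
    rw [← ZMod.natCast_eq_natCast_iff] at h1
    unfold AL at h1
    rw [Nat.cast_mul, Nat.cast_mul] at h1
    have h2 := mul_left_cancel₀ (wp_ne hp hwp) h1
    rw [mL_split w M q, mL_split w M q, hrest, hrest, Nat.cast_mul, Nat.cast_mul, ← hu, ← hu', hq,
      pt_tr_self c c hHM q l0 ω h, pt_tr_self c c' hHM q l0 ω h, ← hβ, sub_self, zero_smul, zero_smul,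
      sub_zero, add_zero] at h2
    push_cast at h2
    rw [eq_div_iff hu0, ← h2]
  · intro h _ h' _ hh
    exact Subtype.ext hh

/-- the second part -/
private theorem part2 (w M H : ℕ) [NeZero M] (hw : 2 ≤ w) (J : Type) [Fintype J] [DecidableEq J]
    (c c' : J → ℤ) (l0 : J)
    (hd : c' l0 - c l0 ≠ 0) (hM : |c' l0 - c l0| * (H : ℤ) < M) (hHM : H < M) (p : ℕ) (hp : p.Prime)
    (hwp : w < p) :
    ((univ.filter fun ω : Om w M H J =>
      AL w M (pt c ω) ≡ AL w M (pt c' ω) [MOD p]).card : ℝ) * H ≤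
      Fintype.card (Om w M H J) *
        (2 + (H : ℝ) * (|c' l0 - c l0| : ℤ) / (orderOf (2 : ZMod p) : ℝ)) := by
  obtain ⟨q, hq⟩ : ∃ q : Pw w, q.1 = 2 :=
    ⟨⟨2, mem_filter.2 ⟨mem_Icc.2 ⟨by norm_num, hw⟩, Nat.prime_two⟩⟩, rfl⟩
  have hI : Fintype.card (HI H) = H := by
    rw [Fintype.card_coe, Nat.card_Icc]
    omega
  have key : (univ.filter fun ω : Om w M H J => AL w M (pt c ω) ≡ AL w M (pt c' ω) [MOD p]).card *
      Fintype.card (HI H) ≤
      ∑ ω : Om w M H J, (univ.filter fun h : HI H =>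
        AL w M (pt c (tr c hHM q l0 ω h)) ≡ AL w M (pt c' (tr c hHM q l0 ω h)) [MOD p]).card := by
    have e1 : ∑ ω : Om w M H J, (univ.filter fun h : HI H =>
        AL w M (pt c (tr c hHM q l0 ω h)) ≡ AL w M (pt c' (tr c hHM q l0 ω h)) [MOD p]).card =
        (univ.filter fun r : Om w M H J × HI H =>
        AL w M (pt c (tr c hHM q l0 r.1 r.2)) ≡ AL w M (pt c' (tr c hHM q l0 r.1 r.2)) [MOD p]).card := by
      simp only [Finset.card_filter]
      exact (Fintype.sum_prod_type (fun r : Om w M H J × HI H =>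
        if AL w M (pt c (tr c hHM q l0 r.1 r.2)) ≡ AL w M (pt c' (tr c hHM q l0 r.1 r.2)) [MOD p] then 1
        else 0)).symm
    rw [e1, ← card_univ (α := HI H), ← card_product]
    refine card_le_card_of_injOn
      (fun r : Om w M H J × HI H => (tr c hHM q l0 r.1 r.2, rd q (r.1.2 l0))) ?_ ?_
    · rintro ⟨ω, h⟩ hr
      have h1 := (mem_filter.1 (mem_product.1 (mem_coe.1 hr)).1).2
      refine mem_coe.2 (mem_filter.2 ⟨mem_univ _, ?_⟩)
      simp only [tr_tr]
      exact h1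
    · rintro ⟨ω, h⟩ _ ⟨ω', h'⟩ _ hr
      simp only [Prod.mk.injEq] at hr
      have e2 : ω = ω' := by
        rw [← tr_tr c hHM q l0 ω h, ← tr_tr c hHM q l0 ω' h', hr.1, hr.2]
      have e3 : h = h' := by
        rw [← rd_tr c hHM q l0 ω h, ← rd_tr c hHM q l0 ω' h', hr.1]
      rw [e2, e3]
  rw [hI] at key
  calc ((univ.filter fun ω : Om w M H J =>
        AL w M (pt c ω) ≡ AL w M (pt c' ω) [MOD p]).card : ℝ) * H
      ≤ ∑ ω : Om w M H J, ((univ.filter fun h : HI H =>
        AL w M (pt c (tr c hHM q l0 ω h)) ≡ AL w M (pt c' (tr c hHM q l0 ω h)) [MOD p]).card : ℝ) := by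
        exact_mod_cast key
    _ ≤ ∑ _ω : Om w M H J, (2 + (H : ℝ) * (|c' l0 - c l0| : ℤ) / (orderOf (2 : ZMod p) : ℝ)) := by
        apply Finset.sum_le_sum
        intro ω _
        exact fibre w M H J c c' l0 hd hM hHM p hp (lt_of_le_of_lt hw hwp) hwp q hq ω
    _ = _ := by
        rw [Finset.sum_const, card_univ, nsmul_eq_mul]

theorem pair_pt (w M H Bc : ℕ) [NeZero M] (hw : 2 ≤ w) (hH : 1 ≤ H) (hM : (2 * Bc + 1) * H < M) (J : Type)
    [Fintype J] [DecidableEq J] (c c' : J → ℤ) (hc : ∀ l, |c l| ≤ (Bc : ℤ)) (hc' : ∀ l, |c' l| ≤ (Bc : ℤ))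
    (hne : c ≠ c') :
    PairL (Ω := Om w M H J) w H (2 * Bc + 2) ((H : ℝ) ^ Fintype.card (Pw w)) (fun ω => AL w M (pt c ω))
      (fun ω => AL w M (pt c' ω)) := by
  obtain ⟨l0, hl0⟩ := Function.ne_iff.1 hne
  have hd : c' l0 - c l0 ≠ 0 := sub_ne_zero.2 (Ne.symm hl0)
  have hdB : |c' l0 - c l0| ≤ 2 * (Bc : ℤ) := by
    have h1 := hc l0
    have h2 := hc' l0
    calc |c' l0 - c l0| ≤ |c' l0| + |c l0| := abs_sub _ _
      _ ≤ 2 * (Bc : ℤ) := by linarith
  have hHM : H < M := by nlinarith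
  have hM' : |c' l0 - c l0| * (H : ℤ) < M := by
    have h1 : |c' l0 - c l0| * (H : ℤ) ≤ 2 * (Bc : ℤ) * H :=
      mul_le_mul_of_nonneg_right hdB (by positivity)
    have h2 : ((2 * Bc + 1) * H : ℤ) < M := by exact_mod_cast hM
    nlinarith
  refine ⟨part1 w M H J c c' l0 hd hM' hHM, ?_⟩
  intro p hp hwp
  have h1 := part2 w M H hw J c c' l0 hd hM' hHM p hp hwp
  have hH0 : (0 : ℝ) < H := by exact_mod_cast hH
  have hN : 0 < Fintype.card (Om w M H J) := by
    have : Nonempty (Pt (box w M H)) := (box_nonempty w M H hH hHM).to_subtype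
    exact Fintype.card_pos
  have hN0 : (0 : ℝ) < Fintype.card (Om w M H J) := by exact_mod_cast hN
  have h2 : ((univ.filter fun ω : Om w M H J =>
      AL w M (pt c ω) ≠ AL w M (pt c' ω) ∧ AL w M (pt c ω) ≡ AL w M (pt c' ω) [MOD p]).card : ℝ) ≤
      ((univ.filter fun ω : Om w M H J => AL w M (pt c ω) ≡ AL w M (pt c' ω) [MOD p]).card : ℝ) := by
    rw [Nat.cast_le]
    apply card_le_card
    intro ω hω
    exact mem_filter.2 ⟨mem_univ _, (mem_filter.1 hω).2.2⟩
  have h3 : ((|c' l0 - c l0| : ℤ) : ℝ) ≤ 2 * Bc := by exact_mod_cast hdB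
  have ho : (0 : ℝ) ≤ (orderOf (2 : ZMod p) : ℝ) := Nat.cast_nonneg _
  rw [div_le_iff₀ hN0]
  have h4 : ((univ.filter fun ω : Om w M H J =>
      AL w M (pt c ω) ≡ AL w M (pt c' ω) [MOD p]).card : ℝ) ≤
      Fintype.card (Om w M H J) * (2 + (H : ℝ) * (|c' l0 - c l0| : ℤ) / (orderOf (2 : ZMod p) : ℝ)) / H := by
    rw [le_div_iff₀ hH0]
    exact h1
  refine le_trans h2 (le_trans h4 ?_)
  have h5 : (2 + (H : ℝ) * (|c' l0 - c l0| : ℤ) / (orderOf (2 : ZMod p) : ℝ)) / H ≤
      (2 * (Bc : ℝ) + 2) * (1 / (orderOf (2 : ZMod p) : ℝ) + 1 / (H : ℝ)) := by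
    have e1 : (2 + (H : ℝ) * (|c' l0 - c l0| : ℤ) / (orderOf (2 : ZMod p) : ℝ)) / H =
        2 * (1 / (H : ℝ)) + ((|c' l0 - c l0| : ℤ) : ℝ) * (1 / (orderOf (2 : ZMod p) : ℝ)) := by
      field_simp
    rw [e1]
    have e2 : (0 : ℝ) ≤ 1 / (orderOf (2 : ZMod p) : ℝ) := by positivity
    have e3 : (0 : ℝ) ≤ 1 / (H : ℝ) := by positivity
    have e4 : (0 : ℝ) ≤ (Bc : ℝ) := Nat.cast_nonneg _
    have e5 := mul_le_mul_of_nonneg_right h3 e2
    nlinarith [mul_nonneg e4 e3]
  calc Fintype.card (Om w M H J) * (2 + (H : ℝ) * (|c' l0 - c l0| : ℤ) / (orderOf (2 : ZMod p) : ℝ)) / H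
      = Fintype.card (Om w M H J) *
        ((2 + (H : ℝ) * (|c' l0 - c l0| : ℤ) / (orderOf (2 : ZMod p) : ℝ)) / H) := by ring
    _ ≤ Fintype.card (Om w M H J) *
        ((2 * (Bc : ℝ) + 2) * (1 / (orderOf (2 : ZMod p) : ℝ) + 1 / (H : ℝ))) :=
        mul_le_mul_of_nonneg_left h5 hN0.le
    _ = _ := by ring

end Pool.CL
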