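import Pool.Agent.Lib.MP_c77da8_nt.CL.LfA
import Pool.Agent.Lib.MP_c77da8_nt.CL.PairPt

/-!
# CL-SysL: the linear forms estimate for systems of different forms

PROOF.  `lf_abs` with `C = 2 Bc + 2`, `A i ω = AL w M (pt (c i) ω)`, `w ≥ 2`; `pair_pt` and the hypothesis
`(log N)^(9^t+t+1) ≤ H^π(w)` (the first part of `PairL` is monotone in `P`).  `AL ≥ 1`; the primes of `AL` are `≤ w`
(`Wp_prime_dvd'`-type lemma in `CG/LfC.lean`); `AL ≤ (Wp w)^M ≤ 4^(w M) ≤ exp (2 w M) ≤ exp (H^σ)` (`(z p).val ≤ M - 1`;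
`Wp w = primorial w ≤ 4^w`: `primorial_le_four_pow`).  `nuL w M R n z = nuw w R (AL w M z * n - 1)` by definition.
-/

set_option autoImplicit false

namespace Pool.CL

open Finset Pool.CG

private theorem sysWp_pos (w : ℕ) : 0 < Wp w := by
  unfold Wp
  exact Finset.prod_pos fun p hp => (mem_filter.1 hp).2.pos

private theorem sysmL_pos (w M : ℕ) (z : GG w M) : 0 < mL w M z := by
  unfold mL
  exact Finset.prod_pos fun p _ => pow_pos (mem_filter.1 p.2).2.pos _

theorem AL_pos (w M : ℕ) (z : GG w M) : 1 ≤ AL w M z := by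
  unfold AL
  exact Nat.one_le_iff_ne_zero.2 (Nat.mul_ne_zero (sysWp_pos w).ne' (sysmL_pos w M z).ne')

theorem AL_prime (w M : ℕ) (z : GG w M) (p : ℕ) (hp : p.Prime) (h : p ∣ AL w M z) : p ≤ w := by
  unfold AL at h
  rcases hp.dvd_mul.1 h with h | h
  · unfold Wp at h
    obtain ⟨r, hr1, hr⟩ := (hp.prime.dvd_finsetProd_iff _).1 h
    have h2 := Nat.le_of_dvd (mem_filter.1 hr1).2.pos hr
    have h3 := (mem_Icc.1 (mem_filter.1 hr1).1).2
    omega
  · unfold mL at h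
    obtain ⟨r, _, hr⟩ := (hp.prime.dvd_finsetProd_iff _).1 h
    have h1 := hp.dvd_of_dvd_pow hr
    have h2 := Nat.le_of_dvd (mem_filter.1 r.2).2.pos h1
    have h3 := (mem_Icc.1 (mem_filter.1 r.2).1).2
    omega

private theorem sysWp_le (w : ℕ) : Wp w ≤ 4 ^ w := by
  refine le_trans (le_of_eq ?_) (primorial_le_four_pow w)
  unfold Wp primorial
  refine Finset.prod_congr ?_ fun _ _ => rfl
  ext p
  simp only [mem_filter, mem_Icc, mem_range]
  constructor
  · rintro ⟨h1, h2⟩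
    exact ⟨by omega, h2⟩
  · rintro ⟨h1, h2⟩
    exact ⟨⟨h2.pos, by omega⟩, h2⟩

theorem AL_le (w M : ℕ) [NeZero M] (z : GG w M) : (AL w M z : ℝ) ≤ Real.exp (2 * w * M) := by
  have hM : 0 < M := Nat.pos_of_ne_zero (NeZero.ne M)
  have h1 : mL w M z ≤ Wp w ^ (M - 1) := by
    have e1 : Wp w = ∏ p : Pw w, p.1 := by
      unfold Wp
      exact (Finset.prod_coe_sort ((Icc 1 w).filter Nat.Prime) (fun p => p)).symm
    rw [e1, ← Finset.prod_pow]
    unfold mL
    refine Finset.prod_le_prod' fun p _ => ?_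
    refine Nat.pow_le_pow_right (mem_filter.1 p.2).2.pos ?_
    have := ZMod.val_lt (z p)
    omega
  have h2 : AL w M z ≤ Wp w ^ M := by
    unfold AL
    calc Wp w * mL w M z ≤ Wp w * Wp w ^ (M - 1) := Nat.mul_le_mul_left _ h1
      _ = Wp w ^ M := by
        rw [← pow_succ']
        congr 1
        omega
  have h3 : AL w M z ≤ 4 ^ (w * M) := by
    refine h2.trans ?_
    rw [pow_mul]
    exact Nat.pow_le_pow_left (sysWp_le w) M
  have h4 : (4 : ℝ) ≤ Real.exp 2 := by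
    have e1 : Real.exp 2 = Real.exp 1 * Real.exp 1 := by
      rw [← Real.exp_add]
      norm_num
    have e2 : (2 : ℝ) ≤ Real.exp 1 := by
      have := Real.add_one_le_exp (1 : ℝ)
      linarith
    rw [e1]
    nlinarith
  calc (AL w M z : ℝ) ≤ ((4 ^ (w * M) : ℕ) : ℝ) := by exact_mod_cast h3
    _ = (4 : ℝ) ^ (w * M) := by push_cast; ring
    _ ≤ (Real.exp 2) ^ (w * M) := pow_le_pow_left₀ (by norm_num) h4 _
    _ = Real.exp (2 * w * M) := by
      rw [← Real.exp_nat_mul]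
      congr 1
      push_cast
      ring

theorem lf_sys (t Bc σ : ℕ) (ht : 1 ≤ t) (η : ℝ) (hη : 0 < η) :
    ∃ w0 H0 N0 : ℕ, ∀ w ≥ w0, ∀ H ≥ H0, ∀ N ≥ N0, ∀ (M : ℕ) [NeZero M], (2 * Bc + 1) * H < M →
      Real.log N ^ (9 ^ t + t + 1) ≤ (H : ℝ) ^ Fintype.card (Pw w) → 2 * w * M ≤ H ^ σ →
      ∀ (I J : Type) [Fintype I] [DecidableEq I] [Fintype J] [DecidableEq J], Fintype.card I ≤ t →
      ∀ c : I → J → ℤ, (∀ i l, |c i l| ≤ (Bc : ℤ)) → Function.Injective c →
      |av (fun ω : Om w M H J => (∑ n ∈ Ico N (2 * N), ∏ i, nuL w M (Rt t N) n (pt (c i) ω)) / N) - 1| ≤ η := by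
  obtain ⟨w1, H1, N1, h1⟩ := lf_abs t σ ht (2 * Bc + 2) η (by positivity) hη
  refine ⟨max w1 2, max H1 1, N1, fun w hw H hH N hN M _ hM hlog hσ I J _ _ _ _ hI c hc hinj => ?_⟩
  have hw1 : w1 ≤ w := (le_max_left _ _).trans hw
  have hw2 : 2 ≤ w := (le_max_right _ _).trans hw
  have hH1 : H1 ≤ H := (le_max_left _ _).trans hH
  have hH2 : 1 ≤ H := (le_max_right _ _).trans hH
  have hHM : H < M := by
    have : H ≤ (2 * Bc + 1) * H := Nat.le_mul_of_pos_left H (by omega)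
    omega
  have hne : Nonempty (Om w M H J) := by
    have h2 : Nonempty (Pt (box w M H)) := (box_nonempty w M H hH2 hHM).to_subtype
    exact ⟨(0, fun _ => h2.some)⟩
  have key := h1 w hw1 H hH1 N hN (Om w M H J) I hI (fun i ω => AL w M (pt (c i) ω))
    (fun i ω => AL_pos w M _) ?_ (fun i ω p hp h => AL_prime w M _ p hp h) ?_
  · exact key
  · intro i ω
    refine (AL_le w M _).trans (Real.exp_le_exp.2 ?_)
    exact_mod_cast hσ
  · intro i j hij
    have h2 := pair_pt w M H Bc hw2 hH2 hM J (c i) (c j) (hc i) (hc j) (fun h => hij (hinj h))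
    refine ⟨le_trans ?_ h2.1, h2.2⟩
    exact mul_le_mul_of_nonneg_left hlog (Nat.cast_nonneg _)

end Pool.CL
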