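import Pool.Agent.Lib.MP_c77da8_nt.CL.PQ
import Pool.Agent.Lib.MP_c77da8_nt.CL.SysL
import Pool.Agent.Lib.MP_c77da8_nt.CG.VBd
import Pool.Agent.Lib.MP_c77da8_nt.CG.RtF

/-!
# CL-DensL: the average of the weighted primes

PROOF (compare `fw_sum` in `CG/As2.lean`).  For `z` in the inner box `{E ≤ z_p < M - E}` and `A = AL w M z` (same prime divisors as `Wp w`, so
`A/φ(A) = W/φ(W)`, `W = Wp w`): `count_rad C0` (`A ≤ exp (2 w M) ≤ exp ((log N)^(1/100))`), `VV_ge` (`VV ≥ (φ(W)/W) log R`) and `Rt_facts`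
(`log R ≥ log N/(32 t)`) give `VV · #{n : A n - 1 prime} ≥ N/(256 t)`.  The inner box has at least `card (GG w M)/2` elements: the complement is
contained in the union over `p` of `{z : z_p.val < E or z_p.val ≥ M - E}`, of proportion `2E/M`, and `π(w) · 2E/M ≤ 1/2`.
So the sum is at least `N/(512 t)`.
-/

set_option autoImplicit false

namespace Pool.CL

open Finset Pool.CG

private lemma densL_ratio (A W : ℕ) (hA : 0 < A) (hW : 0 < W) (h : A.primeFactors = W.primeFactors) :
    (A : ℝ) / (Nat.totient A : ℝ) = (W : ℝ) / (Nat.totient W : ℝ) := by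
  have h1 := Nat.totient_mul_prod_primeFactors A
  have h2 := Nat.totient_mul_prod_primeFactors W
  rw [h] at h1
  have hφA : 0 < Nat.totient A := Nat.totient_pos.2 hA
  have hφW : 0 < Nat.totient W := Nat.totient_pos.2 hW
  have hP : 0 < ∏ p ∈ W.primeFactors, p := Finset.prod_pos fun p hp => (Nat.prime_of_mem_primeFactors hp).pos
  have h3 : (A * Nat.totient W) * ∏ p ∈ W.primeFactors, p = (W * Nat.totient A) * ∏ p ∈ W.primeFactors, p := by
    calc (A * Nat.totient W) * ∏ p ∈ W.primeFactors, p = A * (Nat.totient W * ∏ p ∈ W.primeFactors, p) := by ring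
      _ = W * (A * ∏ p ∈ W.primeFactors, (p - 1)) := by rw [h2]; ring
      _ = _ := by rw [← h1]; ring
  have h4 := Nat.eq_of_mul_eq_mul_right hP h3
  have hφA' : (Nat.totient A : ℝ) ≠ 0 := by exact_mod_cast hφA.ne'
  have hφW' : (Nat.totient W : ℝ) ≠ 0 := by exact_mod_cast hφW.ne'
  rw [div_eq_div_iff hφA' hφW']
  exact_mod_cast h4

private lemma densL_Wp (w : ℕ) : 0 < Wp w := by
  unfold Wp
  exact Finset.prod_pos fun p hp => (mem_filter.1 hp).2.pos

private lemma densL_pf (w M : ℕ) (z : GG w M) : (AL w M z).primeFactors = (Wp w).primeFactors := by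
  have hA : 1 ≤ AL w M z := AL_pos w M z
  have hW := densL_Wp w
  ext p
  rw [Nat.mem_primeFactors, Nat.mem_primeFactors]
  constructor
  · rintro ⟨hp, hd, -⟩
    refine ⟨hp, ?_, hW.ne'⟩
    unfold Wp
    exact Finset.dvd_prod_of_mem _ (mem_filter.2 ⟨mem_Icc.2 ⟨hp.pos, AL_prime w M z p hp hd⟩, hp⟩)
  · rintro ⟨hp, hd, -⟩
    refine ⟨hp, ?_, by omega⟩
    unfold AL
    exact Dvd.dvd.mul_right hd _

/-- the proportion of the residues outside the inner interval -/
private lemma densL_out (M E : ℕ) [NeZero M] :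
    av (fun v : ZMod M => open Classical in if v.val < E ∨ M ≤ v.val + E then (1 : ℝ) else 0) ≤ 2 * E / M := by
  classical
  have hM : 0 < M := Nat.pos_of_neZero M
  have hMr : (0 : ℝ) < M := by exact_mod_cast hM
  unfold av
  rw [ZMod.card]
  refine div_le_div_of_nonneg_right ?_ hMr.le
  rw [Finset.sum_boole]
  have h1 : (univ.filter fun v : ZMod M => v.val < E ∨ M ≤ v.val + E).card ≤
      (range E ∪ Ico (M - E) M).card := by
    apply card_le_card_of_injOn (fun v : ZMod M => v.val)
    · intro v hv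
      have hv' : v ∈ univ.filter fun v : ZMod M => v.val < E ∨ M ≤ v.val + E := hv
      rw [mem_filter] at hv'
      have hlt := ZMod.val_lt v
      show v.val ∈ ((range E ∪ Ico (M - E) M : Finset ℕ) : Set ℕ)
      rw [mem_coe, mem_union, mem_range, mem_Ico]
      rcases hv'.2 with h | h
      · exact Or.inl h
      · right
        constructor
        · omega
        · exact hlt
    · intro a _ b _ hab
      exact ZMod.val_injective M hab
  have h2 : (range E ∪ Ico (M - E) M).card ≤ 2 * E := by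
    refine (card_union_le _ _).trans ?_
    rw [card_range, Nat.card_Ico]
    omega
  exact_mod_cast h1.trans h2

theorem dens_low (t C0 : ℕ) (ht : 1 ≤ t) : ∃ N0 : ℕ, ∀ N ≥ N0, ∀ (w M E : ℕ) [NeZero M], 1 ≤ w →
    (Wp w : ℝ) ≤ Real.log N ^ C0 → 2 * (w : ℝ) * M ≤ Real.log N ^ (1 / 100 : ℝ) → 4 * E * Fintype.card (Pw w) ≤ M →
    1 / (512 * (t : ℝ)) * N ≤ ∑ n ∈ Ico N (2 * N), av (fL w M (Rt t N) E n) := by
  classical
  obtain ⟨N1, hN1⟩ := count_rad C0
  obtain ⟨N2, hN2⟩ := Rt_facts t ht
  refine ⟨max N1 (max N2 3), fun N hN w M E _ hw hWL hML hEM => ?_⟩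
  have hNN1 : N1 ≤ N := (le_max_left _ _).trans hN
  have hNN3 : 3 ≤ N := ((le_max_right _ _).trans (le_max_right _ _)).trans hN
  obtain ⟨hR3, -, -, hRN, -, hlog⟩ := hN2 N (((le_max_left _ _).trans (le_max_right _ _)).trans hN)
  obtain ⟨W, hWdef⟩ : ∃ W : ℕ, W = Wp w := ⟨_, rfl⟩
  have hW0 : 0 < W := by
    rw [hWdef]
    exact densL_Wp w
  have hWr : (0 : ℝ) < W := by exact_mod_cast hW0
  obtain ⟨R, hR⟩ : ∃ R : ℕ, R = Rt t N := ⟨_, rfl⟩
  rw [← hR] at hR3 hRN hlog ⊢
  have hN3 : (3 : ℝ) ≤ N := by exact_mod_cast hNN3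
  have hL0 : 0 < Real.log (N : ℝ) := Real.log_pos (by linarith)
  set L : ℝ := Real.log N with hL
  have hφ : (0 : ℝ) < (Nat.totient W : ℝ) := by exact_mod_cast Nat.totient_pos.2 hW0
  have htr : (0 : ℝ) < t := by exact_mod_cast ht
  have hN0 : (0 : ℝ) ≤ N := Nat.cast_nonneg N
  have hMr : (0 : ℝ) < M := by exact_mod_cast Nat.pos_of_neZero M
  -- the number of the primes
  have hcount : ∀ z : GG w M, (W : ℝ) / (Nat.totient W : ℝ) * (N / (8 * L)) ≤
      (((Ico N (2 * N)).filter fun n => (AL w M z * n - 1).Prime).card : ℝ) := by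
    intro z
    have hpf := densL_pf w M z
    have hA0 := AL_pos w M z
    have h1 := hN1 N hNN1 W hW0 (by rw [hWdef]; exact hWL) (AL w M z) hA0 (fun p hp hpd => by
      have h2 : p ∈ (AL w M z).primeFactors := Nat.mem_primeFactors.2 ⟨hp, hpd, by omega⟩
      rw [hpf, ← hWdef] at h2
      exact Nat.dvd_of_mem_primeFactors h2) ((AL_le w M z).trans (Real.exp_le_exp.2 hML))
    rw [densL_ratio _ W (by omega) hW0 (by rw [hpf, hWdef])] at h1
    exact h1
  -- the lower bound for `VV`
  have hV : (Nat.totient W : ℝ) / (W : ℝ) * (L / (32 * t)) ≤ VV (vp w R) R := by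
    have h1 := VV_ge w R hw (by omega)
    rw [← hWdef] at h1
    refine le_trans ?_ h1
    exact mul_le_mul_of_nonneg_left hlog (by positivity)
  have hV0 : 0 ≤ VV (vp w R) R := le_trans (by positivity) hV
  -- the sum for one `z`
  have hz : ∀ z : GG w M, (N : ℝ) / (256 * t) *
      (1 - ∑ p : Pw w, if (z p).val < E ∨ M ≤ (z p).val + E then (1 : ℝ) else 0) ≤
      ∑ n ∈ Ico N (2 * N), fL w M R E n z := by
    intro z
    have hfn : 0 ≤ ∑ n ∈ Ico N (2 * N), fL w M R E n z := by
      refine Finset.sum_nonneg fun n _ => ?_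
      unfold fL
      split_ifs
      · exact hV0
      · exact le_rfl
    have hind : ∀ p : Pw w, (0 : ℝ) ≤ if (z p).val < E ∨ M ≤ (z p).val + E then (1 : ℝ) else 0 := by
      intro p
      split_ifs <;> norm_num
    by_cases hb : ∀ p, E ≤ (z p).val ∧ (z p).val + E < M
    · have h1 : ∑ n ∈ Ico N (2 * N), fL w M R E n z =
          (((Ico N (2 * N)).filter fun n => (AL w M z * n - 1).Prime).card : ℝ) * VV (vp w R) R := by
        rw [← nsmul_eq_mul, ← Finset.sum_const, Finset.sum_filter]
        refine Finset.sum_congr rfl fun n _ => ?_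
        unfold fL
        by_cases hp : (AL w M z * n - 1).Prime
        · rw [if_pos ⟨hp, hb⟩, if_pos hp]
        · rw [if_neg (fun h => hp h.1), if_neg hp]
      have h2 : ∑ p : Pw w, (if (z p).val < E ∨ M ≤ (z p).val + E then (1 : ℝ) else 0) = 0 := by
        refine Finset.sum_eq_zero fun p _ => ?_
        rw [if_neg]
        have := hb p
        omega
      rw [h1, h2, sub_zero, mul_one]
      calc (N : ℝ) / (256 * t) = ((W : ℝ) / (Nat.totient W : ℝ) * (N / (8 * L))) *
            ((Nat.totient W : ℝ) / (W : ℝ) * (L / (32 * t))) := by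
            field_simp
            ring
        _ ≤ _ := mul_le_mul (hcount z) hV (by positivity) (Nat.cast_nonneg _)
    · push Not at hb
      obtain ⟨p, hp⟩ := hb
      have h3 : (1 : ℝ) ≤ ∑ p : Pw w, (if (z p).val < E ∨ M ≤ (z p).val + E then (1 : ℝ) else 0) := by
        have h4 : (if (z p).val < E ∨ M ≤ (z p).val + E then (1 : ℝ) else 0) = 1 := by
          rw [if_pos]
          by_cases h5 : E ≤ (z p).val
          · exact Or.inr (hp h5)
          · left
            omega
        calc (1 : ℝ) = (if (z p).val < E ∨ M ≤ (z p).val + E then (1 : ℝ) else 0) := h4.symm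
          _ ≤ _ := Finset.single_le_sum (fun p _ => hind p) (mem_univ p)
      refine le_trans ?_ hfn
      have h5 : (0 : ℝ) ≤ (N : ℝ) / (256 * t) := by positivity
      nlinarith
  -- the average
  have hsum : ∑ n ∈ Ico N (2 * N), av (fL w M R E n) =
      av (fun z : GG w M => ∑ n ∈ Ico N (2 * N), fL w M R E n z) := by
    rw [av_sum]
  have hav := av_mono hz
  rw [← hsum, av_const_mul, av_sub, av_const, av_sum] at hav
  have hone : ∀ p : Pw w, av (fun z : GG w M => if (z p).val < E ∨ M ≤ (z p).val + E then (1 : ℝ) else 0) ≤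
      2 * E / M := by
    intro p
    rw [av_update p]
    have h1 : ∀ z : GG w M, av (fun u : ZMod M =>
        if (Function.update z p u p).val < E ∨ M ≤ (Function.update z p u p).val + E then (1 : ℝ) else 0) =
        av (fun v : ZMod M => if v.val < E ∨ M ≤ v.val + E then (1 : ℝ) else 0) := by
      intro z
      refine av_congr fun u => ?_
      rw [Function.update_self]
    rw [av_congr h1, av_const]
    exact densL_out M E
  have hall : ∑ p : Pw w, av (fun z : GG w M => if (z p).val < E ∨ M ≤ (z p).val + E then (1 : ℝ) else 0) ≤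
      1 / 2 := by
    calc ∑ p : Pw w, av (fun z : GG w M => if (z p).val < E ∨ M ≤ (z p).val + E then (1 : ℝ) else 0)
        ≤ ∑ _p : Pw w, (2 * E / M : ℝ) := Finset.sum_le_sum fun p _ => hone p
      _ = (Fintype.card (Pw w) : ℝ) * (2 * E / M) := by rw [sum_const, card_univ, nsmul_eq_mul]
      _ ≤ 1 / 2 := by
          rw [mul_div_assoc', div_le_iff₀ hMr]
          have h2 : (4 * E * Fintype.card (Pw w) : ℝ) ≤ M := by exact_mod_cast hEM
          linarith
  refine le_trans ?_ hav
  calc 1 / (512 * (t : ℝ)) * N = (N : ℝ) / (256 * t) * (1 / 2) := by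
        field_simp
        ring
    _ ≤ _ := mul_le_mul_of_nonneg_left (by linarith) (by positivity)

end Pool.CL
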