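import Pool.Agent.Lib.MP_c77da8_nt.CL.Defs

/-!
# CL-Ext: extension of the functions `u` by `0` outside `D`, which keeps the independence of the coordinate `i`

`extU d0 u i v`: if `v l ∈ D` for all `l ≠ i` then `u` at the point with coordinates `v l`, `l ≠ i`, and `d0` at `i`; otherwise `0`.
-/

set_option autoImplicit false

namespace Pool.CL

open Finset Pool.CG

open Classical in
/-- extension of `u : (K → Pt D) → ℝ`, independent of the coordinate `i` -/
noncomputable def extU {G K : Type} [DecidableEq K] {D : Finset G} (d0 : Pt D) (u : (K → Pt D) → ℝ) (i : K) (v : K → G) : ℝ :=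
  if h : ∀ l, l ≠ i → v l ∈ D then u (fun l => if hl : l ≠ i then ⟨v l, h l hl⟩ else d0) else 0

/-- on `D` the extension agrees with `u` -/
theorem extU_cv {G K : Type} [DecidableEq K] {D : Finset G} (d0 : Pt D) (u : (K → Pt D) → ℝ) (i : K)
    (hu : Ind i u) (x : K → Pt D) : extU d0 u i (cv x) = u x := by
  have h : ∀ l, l ≠ i → cv x l ∈ D := fun l _ => (x l).2
  unfold extU
  rw [dif_pos h, ← hu x d0]
  congr 1
  funext l
  by_cases hl : l = i
  · subst hl
    rw [dif_neg (not_not.mpr rfl), Function.update_self]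
  · rw [dif_pos hl, Function.update_of_ne hl]
    rfl

/-- the extension does not depend on the coordinate `i` -/
theorem extU_ind {G K : Type} [DecidableEq K] {D : Finset G} (d0 : Pt D) (u : (K → Pt D) → ℝ) (i : K) :
    Ind i (extU (G := G) d0 u i) := by
  intro v a
  have e : ∀ l, l ≠ i → Function.update v i a l = v l := fun l hl => Function.update_of_ne hl _ _
  unfold extU
  by_cases h : ∀ l, l ≠ i → v l ∈ D
  · have h' : ∀ l, l ≠ i → Function.update v i a l ∈ D := fun l hl => by
      rw [e l hl]
      exact h l hl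
    rw [dif_pos h, dif_pos h']
    congr 1
    funext l
    by_cases hl : l ≠ i
    · rw [dif_pos hl, dif_pos hl]
      exact Subtype.ext (e l hl)
    · rw [dif_neg hl, dif_neg hl]
  · have h' : ¬ ∀ l, l ≠ i → Function.update v i a l ∈ D := fun h' => h fun l hl => by
      rw [← e l hl]
      exact h' l hl
    rw [dif_neg h, dif_neg h']

theorem extU_bd {G K : Type} [DecidableEq K] {D : Finset G} (d0 : Pt D) (u : (K → Pt D) → ℝ) (i : K)
    (hu : ∀ x, 0 ≤ u x ∧ u x ≤ 1) (v : K → G) : 0 ≤ extU d0 u i v ∧ extU d0 u i v ≤ 1 := by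
  unfold extU
  split_ifs
  · exact hu _
  · exact ⟨le_refl 0, zero_le_one⟩

end Pool.CL
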