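import Pool.Agent.Lib.MP_c77da8_nt.CL.SysL

/-!
# CL-ExtL: extraction of the geometric progression (ratio depends on `b, x` only)

PROOF.  There is `y` with `fL (y + b • psi j (cv x)) ≠ 0` for all `j`.  `z_j = y + b psi_j(x)`, `s = ∑ x_i`; `psi j x = psi 0 x - j • s` (`psi_eq`), so
`z_j = z_{j+1} + b • s`.  For every `p`: `s_p = ∑_i (x_i p).val ∈ [k+2, (k+2) H]` as an integer, `e_p = b s_p ≤ E/(k+2)`.  All
`(z_j p).val ∈ [E, M - E)`, so `(z_j p).val = (z_{j+1} p).val + e_p` (the right side is `< M`, and they are congruent).  So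
`AL z_j = AL z_{k+1} · a^(k+1-j)` with `a = ratL b x = ∏_p p^(e_p)`; `1 < a` as `2 ∈ Pw w` and `e_2 ≥ 1`; `a ≤ (Wp w)^(b (k+2) H) ≤ exp (2 w b (k+2) H)`
(`Wp w ≤ 4^w`); `m0 = AL w M z_{k+1} ≤ exp (2 w M)` (`AL_le`), `m0 ≥ 1`.  `AL z_j * n - 1` is prime.
-/

set_option autoImplicit false

namespace Pool.CL

open Finset Pool.CG

private theorem extL_prime {w : ℕ} (p : Pw w) : p.1.Prime := (mem_filter.mp p.2).2

private theorem extL_box {w M H : ℕ} [NeZero M] (v : Pt (box w M H)) (p : Pw w) :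
    1 ≤ ((v : GG w M) p).val ∧ ((v : GG w M) p).val ≤ H := by
  have h := v.2
  unfold box at h
  exact (mem_filter.mp h).2 p

private theorem extL_exp_le {k w M H : ℕ} [NeZero M] (b : ℕ) (x : Fin (k + 2) → Pt (box w M H)) (p : Pw w) :
    b * ∑ i, ((x i : GG w M) p).val ≤ b * (k + 2) * H := by
  rw [mul_assoc]
  refine Nat.mul_le_mul_left _ ?_
  calc ∑ i, ((x i : GG w M) p).val ≤ ∑ _i : Fin (k + 2), H := Finset.sum_le_sum fun i _ => (extL_box (x i) p).2
    _ = (k + 2) * H := by simp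

private theorem extL_exp_ge {k w M H : ℕ} [NeZero M] (b : ℕ) (x : Fin (k + 2) → Pt (box w M H)) (hb : 1 ≤ b)
    (p : Pw w) : 1 ≤ b * ∑ i, ((x i : GG w M) p).val := by
  have h1 : ((x 0 : GG w M) p).val ≤ ∑ i, ((x i : GG w M) p).val :=
    Finset.single_le_sum (f := fun i => ((x i : GG w M) p).val) (fun i _ => Nat.zero_le _) (Finset.mem_univ 0)
  have h2 := (extL_box (x 0) p).1
  exact Nat.mul_pos hb (lt_of_lt_of_le h2 h1)

private theorem extL_Wp (w : ℕ) : Wp w ≤ 4 ^ w := by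
  refine le_trans (le_of_eq ?_) (primorial_le_four_pow w)
  unfold Wp primorial
  refine Finset.prod_congr ?_ fun _ _ => rfl
  ext p
  simp only [mem_filter, mem_Icc, mem_range]
  constructor
  · rintro ⟨⟨_, h2⟩, h3⟩
    exact ⟨by omega, h3⟩
  · rintro ⟨h1, h3⟩
    exact ⟨⟨h3.one_lt.le, by omega⟩, h3⟩

private theorem extL_WpR (w : ℕ) : (Wp w : ℝ) ≤ Real.exp (2 * w) := by
  have h1 : (Wp w : ℝ) ≤ (4 : ℝ) ^ w := by exact_mod_cast extL_Wp w
  have h4 : (4 : ℝ) ≤ Real.exp 2 := by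
    have h := Real.add_one_le_exp (1 : ℝ)
    have e : Real.exp 2 = Real.exp 1 * Real.exp 1 := by
      rw [← Real.exp_add]
      norm_num
    rw [e]
    nlinarith
  calc (Wp w : ℝ) ≤ (4 : ℝ) ^ w := h1
    _ ≤ (Real.exp 2) ^ w := pow_le_pow_left₀ (by norm_num) h4 w
    _ = Real.exp (2 * w) := by
      rw [← Real.exp_nat_mul]
      congr 1
      ring

private theorem extL_prodPw (w : ℕ) : (∏ p : Pw w, p.1) = Wp w := by
  unfold Wp
  exact Finset.prod_coe_sort ((Icc 1 w).filter Nat.Prime) (fun p => p)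

/-- the ratio which belongs to `b` and `x` -/
def ratL {k w M H : ℕ} [NeZero M] (b : ℕ) (x : Fin (k + 2) → Pt (box w M H)) : ℕ :=
  ∏ p : Pw w, p.1 ^ (b * ∑ i, ((x i : GG w M) p).val)

theorem ratL_gt {k w M H : ℕ} [NeZero M] (b : ℕ) (x : Fin (k + 2) → Pt (box w M H)) (hw : 2 ≤ w) (hb : 1 ≤ b) :
    1 < ratL b x := by
  have h2 : (2 : ℕ) ∈ (Icc 1 w).filter Nat.Prime := mem_filter.mpr ⟨mem_Icc.mpr ⟨by norm_num, hw⟩, Nat.prime_two⟩
  set q : Pw w := ⟨2, h2⟩ with hq
  have e1 := extL_exp_ge b x hb q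
  have hle : q.1 ^ (b * ∑ i, ((x i : GG w M) q).val) ≤ ratL b x := by
    unfold ratL
    exact Finset.single_le_prod' (f := fun p : Pw w => p.1 ^ (b * ∑ i, ((x i : GG w M) p).val))
      (fun p _ => Nat.one_le_pow _ _ (extL_prime p).pos) (Finset.mem_univ q)
  refine lt_of_lt_of_le ?_ hle
  exact Nat.one_lt_pow (by omega) (extL_prime q).one_lt

theorem ratL_le {k w M H : ℕ} [NeZero M] (b : ℕ) (x : Fin (k + 2) → Pt (box w M H)) :
    (ratL b x : ℝ) ≤ Real.exp (2 * w * (b * (k + 2) * H)) := by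
  have h1 : ratL b x ≤ Wp w ^ (b * (k + 2) * H) := by
    unfold ratL
    rw [← extL_prodPw, ← Finset.prod_pow]
    exact Finset.prod_le_prod' fun p _ => Nat.pow_le_pow_right (extL_prime p).pos (extL_exp_le b x p)
  calc (ratL b x : ℝ) ≤ ((Wp w ^ (b * (k + 2) * H) : ℕ) : ℝ) := by exact_mod_cast h1
    _ = (Wp w : ℝ) ^ (b * (k + 2) * H) := by push_cast; rfl
    _ ≤ (Real.exp (2 * w)) ^ (b * (k + 2) * H) := pow_le_pow_left₀ (Nat.cast_nonneg _) (extL_WpR w) _
    _ = Real.exp (2 * w * (b * (k + 2) * H)) := by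
      rw [← Real.exp_nat_mul]
      congr 1
      push_cast
      ring

private theorem extL_fL {w M R E n : ℕ} {z : GG w M} (h : fL w M R E n z ≠ 0) :
    (AL w M z * n - 1).Prime ∧ ∀ p, E ≤ (z p).val ∧ (z p).val + E < M := by
  unfold fL at h
  by_contra hne
  rw [if_neg hne] at h
  exact h rfl

private theorem extL_psi {G : Type} [AddCommGroup G] {k : ℕ} (j j' : Fin k) (x : Fin k → G) :
    psi j x - psi j' x = (((j' : ℕ) : ℤ) - ((j : ℕ) : ℤ)) • ∑ i, x i := by
  unfold psi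
  rw [← Finset.sum_sub_distrib, Finset.smul_sum]
  refine Finset.sum_congr rfl fun i _ => ?_
  rw [← sub_smul]
  congr 1
  ring

theorem extract_x {k w M H : ℕ} [NeZero M] (E b n R : ℕ) (hw : 2 ≤ w) (hb : 1 ≤ b) (hH : 1 ≤ H)
    (hE : b * (k + 2) * H * (k + 2) ≤ E) (hM : 2 * E < M) (x : Fin (k + 2) → Pt (box w M H))
    (hpos : 0 < av (fun y : GG w M => ∏ j, fL w M R E n (y + b • psi j (cv x)))) :
    ∃ m0 : ℕ, 1 ≤ m0 ∧ (m0 : ℝ) ≤ Real.exp (2 * w * M) ∧ ∀ j < k + 2, (n * m0 * ratL b x ^ j - 1).Prime := by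
  obtain ⟨y, hy⟩ : ∃ y : GG w M, (∏ j : Fin (k + 2), fL w M R E n (y + b • psi j (cv x))) ≠ 0 := by
    by_contra hcon
    push Not at hcon
    have h0 : av (fun y : GG w M => ∏ j : Fin (k + 2), fL w M R E n (y + b • psi j (cv x))) =
        av (fun _ : GG w M => (0 : ℝ)) := av_congr hcon
    rw [h0, av_zero] at hpos
    exact lt_irrefl _ hpos
  have hz : ∀ j : Fin (k + 2), (AL w M (y + b • psi j (cv x)) * n - 1).Prime ∧
      ∀ p, E ≤ ((y + b • psi j (cv x)) p).val ∧ ((y + b • psi j (cv x)) p).val + E < M := fun j =>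
    extL_fL ((Finset.prod_ne_zero_iff.mp hy) j (Finset.mem_univ j))
  set L : Fin (k + 2) := Fin.last (k + 1) with hL
  refine ⟨AL w M (y + b • psi L (cv x)), AL_pos _ _ _, AL_le _ _ _, ?_⟩
  intro j hj
  set jj : Fin (k + 2) := ⟨k + 1 - j, by omega⟩ with hjj
  have hval : ∀ p : Pw w, ((y + b • psi jj (cv x)) p).val =
      ((y + b • psi L (cv x)) p).val + j * (b * ∑ i, ((x i : GG w M) p).val) := by
    intro p
    have hlt : ((y + b • psi L (cv x)) p).val + j * (b * ∑ i, ((x i : GG w M) p).val) < M := by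
      have h1 := ((hz L).2 p).2
      have h2 : j * (b * ∑ i, ((x i : GG w M) p).val) ≤ E := by
        calc j * (b * ∑ i, ((x i : GG w M) p).val) ≤ (k + 2) * (b * (k + 2) * H) :=
              Nat.mul_le_mul (by omega) (extL_exp_le b x p)
          _ = b * (k + 2) * H * (k + 2) := by ring
          _ ≤ E := hE
      omega
    have heq : (y + b • psi jj (cv x)) p =
        ((((y + b • psi L (cv x)) p).val + j * (b * ∑ i, ((x i : GG w M) p).val) : ℕ) : ZMod M) := by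
      have hps := congrFun (extL_psi jj L (cv x)) p
      have hd : (((L : ℕ) : ℤ) - ((jj : ℕ) : ℤ)) = (j : ℤ) := by
        rw [hL, hjj]
        simp only [Fin.val_last]
        omega
      rw [hd] at hps
      simp only [Pi.sub_apply, Pi.smul_apply, Finset.sum_apply, cv] at hps
      push_cast
      simp only [Pi.add_apply, Pi.smul_apply, ZMod.natCast_val, ZMod.cast_id', id]
      have h3 : psi jj (cv x) p = psi L (cv x) p + (j : ℤ) • ∑ i, (x i : GG w M) p := by
        rw [← hps]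
        abel
      rw [h3]
      simp only [nsmul_eq_mul, zsmul_eq_mul, Int.cast_natCast]
      ring
    rw [heq, ZMod.val_natCast, Nat.mod_eq_of_lt hlt]
  have hAL : AL w M (y + b • psi jj (cv x)) = AL w M (y + b • psi L (cv x)) * ratL b x ^ j := by
    unfold AL mL ratL
    rw [mul_assoc, ← Finset.prod_pow, ← Finset.prod_mul_distrib]
    congr 1
    refine Finset.prod_congr rfl fun p _ => ?_
    rw [hval p, pow_add, ← pow_mul, mul_comm j]
  have hp := (hz jj).1
  rw [hAL] at hp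
  have e : n * AL w M (y + b • psi L (cv x)) * ratL b x ^ j = AL w M (y + b • psi L (cv x)) * ratL b x ^ j * n := by
    ring
  rw [e]
  exact hp

theorem extract (k w M H E b n R : ℕ) [NeZero M] (hw : 2 ≤ w) (hb : 1 ≤ b) (hH : 1 ≤ H)
    (hE : b * (k + 2) * H * (k + 2) ≤ E) (hM : 2 * E < M)
    (hpos : 0 < av (fun y : GG w M => av (fun x : Fin (k + 2) → Pt (box w M H) =>
      ∏ j, fL w M R E n (y + b • psi j (cv x))))) :
    ∃ a m0 : ℕ, 1 < a ∧ (a : ℝ) ≤ Real.exp (2 * w * (b * (k + 2) * H)) ∧ 1 ≤ m0 ∧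
      (m0 : ℝ) ≤ Real.exp (2 * w * M) ∧ ∀ j < k + 2, (n * m0 * a ^ j - 1).Prime := by
  rw [av_comm (fun (y : GG w M) (x : Fin (k + 2) → Pt (box w M H)) =>
    ∏ j, fL w M R E n (y + b • psi j (cv x)))] at hpos
  obtain ⟨x, hx⟩ : ∃ x : Fin (k + 2) → Pt (box w M H),
      0 < av (fun y : GG w M => ∏ j, fL w M R E n (y + b • psi j (cv x))) := by
    by_contra hcon
    push Not at hcon
    have h0 : av (fun x : Fin (k + 2) → Pt (box w M H) =>
        av (fun y : GG w M => ∏ j, fL w M R E n (y + b • psi j (cv x)))) ≤ 0 := by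
      have h1 := av_mono (F := fun x : Fin (k + 2) → Pt (box w M H) =>
        av (fun y : GG w M => ∏ j, fL w M R E n (y + b • psi j (cv x)))) (G := fun _ => (0 : ℝ)) hcon
      rwa [av_zero] at h1
    exact absurd hpos (not_lt.mpr h0)
  obtain ⟨m0, h1, h2, h3⟩ := extract_x E b n R hw hb hH hE hM x hx
  exact ⟨ratL b x, m0, ratL_gt b x hw hb, ratL_le b x, h1, h2, h3⟩

end Pool.CL
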