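import Pool.Agent.Lib.MP_c77da8_nt.CL.Defs
import Pool.Agent.Lib.MP_c77da8_nt.CG.As0

/-!
# CL-MajL: `0 ≤ fL ≤ nuL`

Copy `fw_nonneg`, `nu_nonneg`, `fw_le` (`CG/As0.lean`), with `AL w M z` in place of `Wp w * mz q M z`.
-/

set_option autoImplicit false

namespace Pool.CL

open Finset Pool.CG

private theorem majL_xw (w R : ℕ) (p : {p // p ∈ Pr w R}) : 0 ≤ xw (vp w R) p := by
  unfold xw vp
  have hp : (p.1).Prime := (Finset.mem_filter.mp p.2).2.1
  have : (1 : ℝ) ≤ p.1 := by exact_mod_cast hp.one_le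
  exact div_nonneg zero_le_one (by linarith)

private theorem majL_VV (w R : ℕ) : 0 ≤ VV (vp w R) R := by
  unfold VV
  exact Finset.sum_nonneg fun a _ => Finset.prod_nonneg fun p _ => majL_xw w R p

private theorem majL_VV_pos (w R : ℕ) (hR : 1 ≤ R) : 0 < VV (vp w R) R := by
  unfold VV
  have h1 : (∅ : Finset {p // p ∈ Pr w R}) ∈ univ.filter (fun a : Finset {p // p ∈ Pr w R} => nm (vp w R) a ≤ R) := by
    rw [mem_filter]; exact ⟨mem_univ _, by simpa [nm] using hR⟩
  have h2 := Finset.single_le_sum (f := fun a : Finset {p // p ∈ Pr w R} => ∏ p ∈ a, xw (vp w R) p)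
    (fun a _ => Finset.prod_nonneg fun p _ => majL_xw w R p) h1
  rw [Finset.prod_empty] at h2
  linarith

theorem fL_nonneg (w M R E n : ℕ) (z : GG w M) : 0 ≤ fL w M R E n z := by
  unfold fL
  split_ifs
  · exact majL_VV w R
  · exact le_refl _

theorem nuL_nonneg (w M R n : ℕ) (z : GG w M) : 0 ≤ nuL w M R n z := by
  unfold nuL nuw
  exact mul_nonneg (majL_VV w R) (sq_nonneg _)

theorem fL_le (w M R E n : ℕ) (hR : 1 ≤ R) (hn : R + 2 ≤ n) (z : GG w M) : fL w M R E n z ≤ nuL w M R n z := by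
  classical
  unfold fL
  split_ifs with h
  swap
  · exact nuL_nonneg w M R n z
  have hW : 0 < Wp w := by
    unfold Wp
    exact Finset.prod_pos fun p hp => (Finset.mem_filter.mp hp).2.pos
  have hm : 0 < mL w M z := by
    unfold mL
    exact Finset.prod_pos fun p _ => pow_pos (Finset.mem_filter.mp p.2).2.pos _
  have hA : 0 < AL w M z := by
    unfold AL
    exact Nat.mul_pos hW hm
  have hbig : R < AL w M z * n - 1 := by
    have h1 : n ≤ AL w M z * n := Nat.le_mul_of_pos_left n hA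
    omega
  have hxi : xi w R (AL w M z * n - 1) = ∅ := by
    unfold xi
    rw [Finset.filter_eq_empty_iff]
    intro p _ hp
    have hpp : (p.1).Prime := (Finset.mem_filter.mp p.2).2.1
    have hpR : p.1 ≤ R := (Finset.mem_Icc.mp (Finset.mem_filter.mp p.2).1).2
    have := (Nat.prime_dvd_prime_iff_eq hpp h.1).mp hp
    omega
  have hV := majL_VV_pos w R hR
  have hLam : Lam (vp w R) R ∅ = 1 := by
    unfold Lam
    have : (∑ a ∈ univ.filter (fun a : Finset {p // p ∈ Pr w R} => nm (vp w R) a ≤ R),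
        ∏ p ∈ a, if p ∈ (∅ : Finset {p // p ∈ Pr w R}) then (-1 : ℝ) else xw (vp w R) p) = VV (vp w R) R := by
      unfold VV
      exact Finset.sum_congr rfl fun a _ => Finset.prod_congr rfl fun p _ => by simp
    rw [this, div_self hV.ne']
  unfold nuL nuw
  rw [hxi, hLam]
  simp

end Pool.CL
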