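import Pool.Agent.Lib.MP_c77da8_nt.CL.SysL

/-!
# CL-SecL: second moment of the average of the majorant

PROOF.  `av_y ν(y) = av_y av_{x ∈ box} ν(y + x)` (translation), so `(av ν)² ≤ av_y (av_x ν(y + x))² = av_y av_{x, x'} ν(y + x) ν(y + x')`
(`av_sq_le`), an average over `Om w M H Bool` (or `Fin 2`) of a product of two forms with rows `(1, 0)`, `(0, 1)`: `lf_sys` with `Bc = 1`, `η = 1`.
(For the conversion `Bool → P` against `P × P`: `Equiv.boolArrowEquivProd`, or `finTwoArrowEquiv`.)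
-/

set_option autoImplicit false

namespace Pool.CL

open Finset Pool.CG

private theorem sec_pair {X P : Type} [Fintype X] [Fintype P] (F : X → P → ℝ) :
    av (fun y : X => (av (fun x : P => F y x)) ^ 2) =
      av (fun ω : X × (Bool → P) => ∏ i, F ω.1 (ω.2 i)) := by
  rw [av_prod]
  refine av_congr fun y => ?_
  have e : av (fun z : Bool → P => ∏ i, F y (z i)) = av (fun z : P × P => F y z.1 * F y z.2) := by
    rw [← av_equiv (Equiv.boolArrowEquivProd P)]
    refine av_congr fun z => ?_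
    rw [Fintype.prod_bool, mul_comm]
    rfl
  show _ = av (fun z : Bool → P => ∏ i, F y (z i))
  rw [e, av_prod, sq]
  have h1 : ∀ x : P, av (fun y' : P => F y x * F y y') = F y x * av (fun x : P => F y x) :=
    fun x => av_const_mul (F y x) _
  show _ = av (fun x : P => av (fun y' : P => F y x * F y y'))
  rw [av_congr h1, av_mul_const]

private theorem sec_one {X P : Type} [AddCommGroup X] [Fintype X] [Fintype P] [Nonempty P] (g : P → X)
    (f : X → ℝ) :
    (av f) ^ 2 ≤ av (fun ω : X × (Bool → P) => ∏ i, f (ω.1 + g (ω.2 i))) := by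
  have h1 : av f = av (fun y : X => av (fun x : P => f (y + g x))) := by
    rw [av_comm]
    have h2 : ∀ x : P, av (fun y : X => f (y + g x)) = av f := by
      intro x
      exact av_equiv (Equiv.addRight (g x)) f
    rw [av_congr h2, av_const]
  rw [h1]
  refine (av_sq_le _).trans ?_
  rw [sec_pair (fun y x => f (y + g x))]

private theorem sec_box_nonempty (w M H : ℕ) [NeZero M] (h1 : 1 ≤ H) (hH : H < M) :
    Nonempty (Pt (box w M H)) := by
  have hM : 1 < M := lt_of_le_of_lt h1 hH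
  have : Fact (1 < M) := ⟨hM⟩
  refine ⟨⟨fun _ => 1, ?_⟩⟩
  unfold box
  rw [mem_filter]
  refine ⟨mem_univ _, fun p => ?_⟩
  rw [ZMod.val_one]
  exact ⟨le_refl _, h1⟩

theorem sec_mom (t σ : ℕ) (ht : 2 ≤ t) :
    ∃ w0 H0 N0 : ℕ, ∀ w ≥ w0, ∀ H ≥ H0, ∀ N ≥ N0, ∀ (M : ℕ) [NeZero M], 3 * H < M →
      Real.log N ^ (9 ^ t + t + 1) ≤ (H : ℝ) ^ Fintype.card (Pw w) → 2 * w * M ≤ H ^ σ →
      ∑ n ∈ Ico N (2 * N), (av (nuL w M (Rt t N) n)) ^ 2 ≤ 2 * N := by
  obtain ⟨w0, H0, N0, h0⟩ := lf_sys t 1 σ (by omega) 1 one_pos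
  refine ⟨w0, max H0 1, max N0 1, ?_⟩
  intro w hw H hH N hN M _ hM hlog hσ
  have hH0 : H0 ≤ H := le_trans (le_max_left _ _) hH
  have hH1 : 1 ≤ H := le_trans (le_max_right _ _) hH
  have hN0 : N0 ≤ N := le_trans (le_max_left _ _) hN
  have hN1 : 1 ≤ N := le_trans (le_max_right _ _) hN
  have := sec_box_nonempty w M H hH1 (by omega)
  let c : Bool → Bool → ℤ := fun i l => if i = l then 1 else 0
  have hc : ∀ i l, |c i l| ≤ ((1 : ℕ) : ℤ) := by
    intro i l
    simp only [c]
    split_ifs <;> simp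
  have hinj : Function.Injective c := by
    intro i j hij
    have h := congrFun hij j
    by_contra hne
    simp only [c, if_neg hne, if_pos] at h
    exact absurd h (by norm_num)
  have hpt : ∀ (ω : Om w M H Bool) (i : Bool), pt (c i) ω = ω.1 + ((ω.2 i : Pt (box w M H)) : GG w M) := by
    intro ω i
    unfold pt
    congr 1
    rw [Finset.sum_eq_single i]
    · simp [c]
    · intro l _ hl
      simp [c, Ne.symm hl]
    · intro h
      exact absurd (mem_univ i) h
  have hb := h0 w hw H hH0 N hN0 M (by simpa using hM) hlog hσ Bool Bool (by simpa using ht) c hc hinj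
  have hb2 := (abs_le.mp hb).2
  have hNpos : (0 : ℝ) < N := by exact_mod_cast hN1
  have hstep : ∀ n ∈ Ico N (2 * N), (av (nuL w M (Rt t N) n)) ^ 2 ≤
      av (fun ω : Om w M H Bool => ∏ i, nuL w M (Rt t N) n (pt (c i) ω)) := by
    intro n _
    have h := sec_one (fun x : Pt (box w M H) => (x : GG w M)) (nuL w M (Rt t N) n)
    refine h.trans (le_of_eq ?_)
    refine av_congr fun ω => ?_
    refine prod_congr rfl fun i _ => ?_
    rw [hpt]
  refine (sum_le_sum hstep).trans ?_
  rw [← av_sum]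
  have hdiv : av (fun ω : Om w M H Bool => (∑ n ∈ Ico N (2 * N), ∏ i, nuL w M (Rt t N) n (pt (c i) ω)) / N) =
      av (fun ω : Om w M H Bool => ∑ n ∈ Ico N (2 * N), ∏ i, nuL w M (Rt t N) n (pt (c i) ω)) / N := by
    simp only [div_eq_mul_inv]
    exact av_mul_const _ _
  rw [hdiv] at hb2
  have h3 : av (fun ω : Om w M H Bool => ∑ n ∈ Ico N (2 * N), ∏ i, nuL w M (Rt t N) n (pt (c i) ω)) / N ≤ 2 := by
    linarith
  rwa [div_le_iff₀ hNpos] at h3

end Pool.CL
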