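import Pool.Agent.Lib.MP_c77da8_nt.CL.MostN
import Pool.Agent.Lib.MP_c77da8_nt.CL.SecL
import Pool.Agent.Lib.MP_c77da8_nt.CL.MajL
import Pool.Agent.Lib.MP_c77da8_nt.CL.DensL

/-!
# CL-GoodN: a positive proportion of `n` is good

PROOF (compare `good` in `CG/As4.lean`).  `t = tL k`, `d = dL k = 1/(512 t)`, `Bc = T (k+2) + B`.  `most_n` with `δ = d²/(128 (T + 1))` for
`patt k b`, `1 ≤ b ≤ T` (`|b (l - i)| ≤ T (k+1)`, not `0` for `l ≠ i`, box `H`), and for `cube k B` (`B ≥ 1`, box `H'`): all but `(d²/128) N` of the `n` satisfy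
the `T + 1` linear forms conditions.  (The conditions for the box `H ≥ H'` follow from those for `H'`.)
`F_n = av fL_n ≤ V_n = av nuL_n` (`fL_le`, `R + 2 ≤ N ≤ n` by `Rt_facts`), `∑ V_n² ≤ 2 N` (`sec_mom`), `∑ F_n ≥ d N` (`dens_low`).
The `n` with `F_n < d/2` contribute at most `(d/2) N`, so `∑_{F_n ≥ d/2} F_n ≥ (d/2) N`, and by Cauchy-Schwarz
`(d/2)² N² ≤ #{F_n ≥ d/2} · ∑ F_n² ≤ #{..} · 2 N`: `#{F_n ≥ d/2} ≥ d² N/8`.  Remove the bad `n`: `≥ d² N/16`.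
-/

set_option autoImplicit false

namespace Pool.CL

open Finset Pool.CG

/-- the number of factors -/
def tL (k : ℕ) : ℕ := 2 * ((k + 2) * 2 ^ (k + 2))

/-- the density -/
noncomputable def dL (k : ℕ) : ℝ := 1 / (512 * (tL k : ℝ))

/-- the counting argument: `0 ≤ a ≤ b` on a set with at most `N` elements -/
private theorem GoodN_count (s : Finset ℕ) (N : ℝ) (hN : 0 < N) (a b : ℕ → ℝ)
    (hs : (s.card : ℝ) ≤ N) (ha : ∀ n ∈ s, 0 ≤ a n) (hab : ∀ n ∈ s, a n ≤ b n) (δ : ℝ) (hδ : 0 < δ)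
    (hsum : δ * N ≤ ∑ n ∈ s, a n) (hb : ∑ n ∈ s, b n ^ 2 ≤ 2 * N) :
    δ ^ 2 / 8 * N ≤ ((s.filter fun n => δ / 2 ≤ a n).card : ℝ) := by
  classical
  set Cs := s.filter fun n => ¬ δ / 2 ≤ a n with hCs
  set Gs := s.filter fun n => δ / 2 ≤ a n with hGs
  have hGss : Gs ⊆ s := filter_subset _ _
  have hsplit : ∑ n ∈ s, a n = ∑ n ∈ Gs, a n + ∑ n ∈ Cs, a n := by
    rw [hGs, hCs, sum_filter_add_sum_filter_not]
  have hC : ∑ n ∈ Cs, a n ≤ δ / 2 * N := by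
    calc ∑ n ∈ Cs, a n ≤ ∑ n ∈ Cs, δ / 2 := by
          refine sum_le_sum fun n hn => ?_
          rw [hCs, mem_filter] at hn
          linarith [not_le.mp hn.2]
      _ = Cs.card * (δ / 2) := by rw [sum_const, nsmul_eq_mul]
      _ ≤ N * (δ / 2) := by
          refine mul_le_mul_of_nonneg_right ?_ (by positivity)
          refine le_trans ?_ hs
          have : Cs ⊆ s := filter_subset _ _
          exact_mod_cast card_le_card this
      _ = δ / 2 * N := by ring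
  have hG : δ / 2 * N ≤ ∑ n ∈ Gs, a n := by linarith
  have hGc : (∑ n ∈ Gs, a n) ^ 2 ≤ Gs.card * (2 * N) := by
    have h1 : (∑ n ∈ Gs, a n) ^ 2 ≤ Gs.card * ∑ n ∈ Gs, a n ^ 2 := sq_sum_le_card_mul_sum_sq
    have h2 : ∑ n ∈ Gs, a n ^ 2 ≤ ∑ n ∈ s, b n ^ 2 :=
      (sum_le_sum fun n hn => pow_le_pow_left₀ (ha n (hGss hn)) (hab n (hGss hn)) 2).trans
        (sum_le_sum_of_subset_of_nonneg hGss fun n _ _ => sq_nonneg _)
    exact h1.trans (mul_le_mul_of_nonneg_left (h2.trans hb) (Nat.cast_nonneg _))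
  have h1 : (δ / 2 * N) ^ 2 ≤ Gs.card * (2 * N) :=
    (pow_le_pow_left₀ (by positivity) hG 2).trans hGc
  have h2 : δ ^ 2 / 8 * N * (2 * N) ≤ Gs.card * (2 * N) := by
    calc δ ^ 2 / 8 * N * (2 * N) = (δ / 2 * N) ^ 2 := by ring
      _ ≤ _ := h1
  exact le_of_mul_le_mul_right h2 (by positivity)

private theorem GoodN_patt (k T B b : ℕ) (hbT : b ≤ T) (i l : Fin (k + 2)) :
    |patt k b i l| ≤ ((T * (k + 2) + B : ℕ) : ℤ) := by
  unfold patt
  have h1 : |((l : ℕ) : ℤ) - ((i : ℕ) : ℤ)| ≤ ((k + 2 : ℕ) : ℤ) := by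
    have := l.2
    have := i.2
    rw [abs_le]
    constructor <;> push_cast <;> omega
  rw [abs_mul, Nat.abs_cast]
  calc (b : ℤ) * |((l : ℕ) : ℤ) - ((i : ℕ) : ℤ)| ≤ (T : ℤ) * ((k + 2 : ℕ) : ℤ) :=
        mul_le_mul (by exact_mod_cast hbT) h1 (abs_nonneg _) (Nat.cast_nonneg _)
    _ ≤ ((T * (k + 2) + B : ℕ) : ℤ) := by push_cast; nlinarith [Nat.cast_nonneg (α := ℤ) B]

theorem good_n (k T B σ C0 : ℕ) (hB : 1 ≤ B) (η : ℝ) (hη : 0 < η) : ∃ w0 H0 N0 : ℕ, ∀ w ≥ w0, ∀ H' ≥ H0, ∀ H ≥ H', ∀ N ≥ N0,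
    ∀ (M E : ℕ) [NeZero M], (2 * (T * (k + 2) + B) + 3) * H < M →
      Real.log N ^ (9 ^ tL k + tL k + 1) ≤ (H' : ℝ) ^ Fintype.card (Pw w) → 2 * w * M ≤ H' ^ σ →
      (Wp w : ℝ) ≤ Real.log N ^ C0 → 2 * (w : ℝ) * M ≤ Real.log N ^ (1 / 100 : ℝ) → 4 * E * Fintype.card (Pw w) ≤ M →
      dL k ^ 2 / 16 * N ≤ ((open Classical in (Ico N (2 * N)).filter fun n =>
        LFav η (affF (D := box w M H') (nuL w M (Rt (tL k) N) n) (cube k B) {0}) ∧
        (∀ b : ℕ, 1 ≤ b → b ≤ T → LFav η (affF (D := box w M H) (nuL w M (Rt (tL k) N) n) (patt k b) univ)) ∧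
        dL k / 2 ≤ av (fL w M (Rt (tL k) N) E n) ∧
        ∀ z, 0 ≤ fL w M (Rt (tL k) N) E n z ∧ fL w M (Rt (tL k) N) E n z ≤ nuL w M (Rt (tL k) N) n z).card : ℝ) := by
  classical
  obtain ⟨t, ht⟩ : ∃ t : ℕ, t = tL k := ⟨_, rfl⟩
  have ht' : 2 * ((k + 2) * 2 ^ (k + 2)) ≤ t := by rw [ht, tL]
  have ht2 : 2 ≤ t := by
    have h1 : 1 ≤ 2 ^ (k + 2) := Nat.one_le_two_pow
    have h2 : (k + 2) * 1 ≤ (k + 2) * 2 ^ (k + 2) := Nat.mul_le_mul_left _ h1
    omega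
  have ht1 : 1 ≤ t := by omega
  obtain ⟨d, hd⟩ : ∃ d : ℝ, d = dL k := ⟨_, rfl⟩
  have hdt : d = 1 / (512 * (t : ℝ)) := by rw [hd, dL, ht]
  have hd0 : 0 < d := by
    have : (0 : ℝ) < t := by exact_mod_cast ht1
    rw [hdt]
    positivity
  obtain ⟨Bc, hBc⟩ : ∃ Bc : ℕ, Bc = T * (k + 2) + B := ⟨_, rfl⟩
  obtain ⟨δ, hδ⟩ : ∃ δ : ℝ, δ = d ^ 2 / (128 * (T + 1)) := ⟨_, rfl⟩
  have hδ0 : 0 < δ := by rw [hδ]; positivity
  obtain ⟨w1, H1, N1, h1⟩ := most_n k t Bc σ ht' η δ hη hδ0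
  obtain ⟨w2, H2, N2, h2⟩ := sec_mom t σ ht2
  obtain ⟨N3, h3⟩ := dens_low t C0 ht1
  obtain ⟨N4, h4⟩ := Rt_facts t ht1
  refine ⟨max (max w1 w2) 1, max H1 H2, max (max N1 N2) (max (max N3 N4) 1),
    fun w hw H' hH' H hH N hN M E _ hM hlog hw2 hC0 h100 hE => ?_⟩
  have hw1 : w1 ≤ w := le_trans ((le_max_left _ _).trans (le_max_left _ _)) hw
  have hw22 : w2 ≤ w := le_trans ((le_max_right _ _).trans (le_max_left _ _)) hw
  have hw3 : 1 ≤ w := le_trans (le_max_right _ _) hw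
  have hH1' : H1 ≤ H' := le_trans (le_max_left _ _) hH'
  have hH2' : H2 ≤ H' := le_trans (le_max_right _ _) hH'
  have hH1 : H1 ≤ H := hH1'.trans hH
  have hH2 : H2 ≤ H := hH2'.trans hH
  have hN1 : N1 ≤ N := le_trans ((le_max_left _ _).trans (le_max_left _ _)) hN
  have hN2 : N2 ≤ N := le_trans ((le_max_right _ _).trans (le_max_left _ _)) hN
  have hN3 : N3 ≤ N :=
    le_trans ((le_max_left _ _).trans ((le_max_left _ _).trans (le_max_right _ _))) hN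
  have hN4 : N4 ≤ N :=
    le_trans ((le_max_right _ _).trans ((le_max_left _ _).trans (le_max_right _ _))) hN
  have hN5 : 1 ≤ N := le_trans ((le_max_right _ _).trans (le_max_right _ _)) hN
  have hNr : (0 : ℝ) < N := by exact_mod_cast hN5
  rw [← hBc] at hM
  rw [← ht] at hlog
  -- conditions for the box `H`
  have hMH : (2 * Bc + 1) * H < M :=
    lt_of_le_of_lt (Nat.mul_le_mul_right _ (by omega)) hM
  have hMH' : (2 * Bc + 1) * H' < M :=
    lt_of_le_of_lt (Nat.mul_le_mul_left _ hH) hMH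
  have hM3 : 3 * H < M := lt_of_le_of_lt (Nat.mul_le_mul_right _ (by omega)) hM
  have hlogH : Real.log N ^ (9 ^ t + t + 1) ≤ (H : ℝ) ^ Fintype.card (Pw w) :=
    hlog.trans (pow_le_pow_left₀ (Nat.cast_nonneg _) (by exact_mod_cast hH) _)
  have hwH : 2 * w * M ≤ H ^ σ := hw2.trans (Nat.pow_le_pow_left hH σ)
  -- the bad sets
  have hpatt := fun (b : ℕ) (hb1 : 1 ≤ b) (hbT : b ≤ T) =>
    h1 w hw1 H hH1 N hN1 M hMH hlogH hwH (patt k b) univ
      (fun i l => by rw [hBc]; exact GoodN_patt k T B b hbT i l)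
      (fun i => by simp [patt])
      (fun i l hil => by
        unfold patt
        have h5 : (b : ℤ) ≠ 0 := by exact_mod_cast (by omega : b ≠ 0)
        have h6 : ((l : ℕ) : ℤ) - ((i : ℕ) : ℤ) ≠ 0 := by
          intro h7
          apply hil
          apply Fin.ext
          omega
        exact mul_ne_zero h5 h6)
  have hcube := h1 w hw1 H' hH1' N hN1 M hMH' hlog hw2 (cube k B) {0}
      (fun i l => by
        unfold cube
        split_ifs
        · rw [abs_zero]; exact Nat.cast_nonneg _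
        · rw [Nat.abs_cast, hBc]
          exact_mod_cast Nat.le_add_left _ _)
      (fun i => by simp [cube])
      (fun i l hil => by
        unfold cube
        rw [if_neg hil]
        exact_mod_cast (by omega : B ≠ 0))
  have hsec := h2 w hw22 H hH2 N hN2 M hM3 hlogH hwH
  have hden := h3 N hN3 w M E hw3 hC0 h100 hE
  obtain ⟨hR3, -, -, hR4, -, -⟩ := h4 N hN4
  rw [← hdt] at hden
  rw [← ht, ← hd]
  obtain ⟨R, hRdef⟩ : ∃ R : ℕ, R = Rt t N := ⟨_, rfl⟩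
  rw [← hRdef] at hR3 hR4 hsec hden hcube ⊢
  simp only [← hRdef] at hpatt
  have hfn : ∀ n z, 0 ≤ fL w M R E n z := fun n z => fL_nonneg w M R E n z
  have hfl : ∀ n ∈ Ico N (2 * N), ∀ z, fL w M R E n z ≤ nuL w M R n z := by
    intro n hn z
    rw [mem_Ico] at hn
    exact fL_le w M R E n (by omega) (by omega) z
  have key := GoodN_count (Ico N (2 * N)) N hNr (fun n => av (fL w M R E n))
    (fun n => av (nuL w M R n)) (by rw [Nat.card_Ico]; apply le_of_eq; congr 1; omega)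
    (fun n _ => av_nonneg fun z => hfn n z) (fun n hn => av_mono fun z => hfl n hn z) d hd0 hden hsec
  set Gs := (Ico N (2 * N)).filter fun n => d / 2 ≤ av (fL w M R E n) with hGs
  set B0 := (Ico N (2 * N)).filter fun n =>
    ¬ LFav η (affF (D := box w M H') (nuL w M R n) (cube k B) {0}) with hB0
  set Bb : ℕ → Finset ℕ := fun b => (Ico N (2 * N)).filter fun n =>
    ¬ LFav η (affF (D := box w M H) (nuL w M R n) (patt k b) univ) with hBb
  have hbad : ((B0 ∪ (Icc 1 T).biUnion Bb).card : ℝ) ≤ d ^ 2 / 16 * N := by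
    have e1 : ((B0 ∪ (Icc 1 T).biUnion Bb).card : ℝ) ≤ B0.card + ∑ b ∈ Icc 1 T, ((Bb b).card : ℝ) := by
      have := (card_union_le B0 ((Icc 1 T).biUnion Bb)).trans
        (Nat.add_le_add_left (card_biUnion_le (s := Icc 1 T) (t := Bb)) _)
      exact_mod_cast this
    have e2 : ∑ b ∈ Icc 1 T, ((Bb b).card : ℝ) ≤ ∑ b ∈ Icc 1 T, δ * N := by
      refine sum_le_sum fun b hb => ?_
      rw [mem_Icc] at hb
      exact hpatt b hb.1 hb.2
    have e3 : ∑ b ∈ Icc 1 T, δ * (N : ℝ) = T * (δ * N) := by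
      rw [sum_const, nsmul_eq_mul, Nat.card_Icc]
      simp
    have e4 : δ * N + T * (δ * N) = d ^ 2 / 128 * N := by
      rw [hδ]
      field_simp
      ring
    have e5 : d ^ 2 / 128 * N ≤ d ^ 2 / 16 * N := by
      have : (0 : ℝ) ≤ d ^ 2 * N := by positivity
      linarith
    linarith [hcube]
  have hfin : ((Gs \ (B0 ∪ (Icc 1 T).biUnion Bb)).card : ℝ) ≥ d ^ 2 / 16 * N := by
    have e1 : (Gs.card : ℝ) ≤ (Gs \ (B0 ∪ (Icc 1 T).biUnion Bb)).card +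
        (B0 ∪ (Icc 1 T).biUnion Bb).card := by
      have := card_le_card_sdiff_add_card (s := Gs) (t := B0 ∪ (Icc 1 T).biUnion Bb)
      exact_mod_cast this
    linarith
  refine le_trans hfin ?_
  norm_cast
  refine card_le_card fun n hn => ?_
  rw [mem_sdiff, mem_union, not_or] at hn
  obtain ⟨hn1, hn2, hn3⟩ := hn
  rw [hGs, mem_filter] at hn1
  rw [hB0, mem_filter, not_and, not_not] at hn2
  rw [mem_filter]
  refine ⟨hn1.1, hn2 hn1.1, fun b hb1 hbT => ?_, hn1.2, fun z => ⟨hfn n z, hfl n hn1.1 z⟩⟩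
  by_contra hcon
  apply hn3
  rw [mem_biUnion]
  refine ⟨b, mem_Icc.2 ⟨hb1, hbT⟩, ?_⟩
  rw [hBb]
  exact mem_filter.2 ⟨hn1.1, hcon⟩

end Pool.CL
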