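import Pool.Agent.Lib.MP_c77da8_nt.CL.Defs

/-!
# CL-GoodY: most base points `y` satisfy the linear forms condition

PROOF.  The systems `S : Finset (K × Finset K)` are finite in number, `n = card (Finset (K × Finset K))`.  If `LF η₁ (ν y)` fails,
then `|a_S(y) - 1| > η₁` for one of the allowed `S` (`a_S(y)` the average in `LFav`), so
`[¬ LF] ≤ ∑_S [allowed] (a_S(y) - 1)² / η₁²`; average over `y`: `≤ n η / η₁² ≤ δ` for `η = δ η₁² / (n + 1)`.
-/

set_option autoImplicit false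

namespace Pool.CL

open Finset Pool.CG

theorem lfav_good (K : Type) [Fintype K] [DecidableEq K] (η₁ δ : ℝ) (h1 : 0 < η₁) (hδ : 0 < δ) :
    ∃ η : ℝ, 0 < η ∧ ∀ (Y X : Type) [Fintype Y] [Fintype X] (ν : Y → K → (K → X) → ℝ), LFav η ν →
      av (fun y : Y => open Classical in if LF η₁ (ν y) then (0 : ℝ) else 1) ≤ δ := by
  classical
  set n : ℕ := Fintype.card (Finset (K × Finset K)) with hn
  have hn0 : (0 : ℝ) < (n : ℝ) + 1 := by positivity
  refine ⟨δ * η₁ ^ 2 / ((n : ℝ) + 1), by positivity, ?_⟩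
  intro Y X _ _ ν hν
  set I : Finset (Finset (K × Finset K)) := univ.filter (fun S => ∀ p ∈ S, p.1 ∉ p.2) with hI
  set a : Finset (K × Finset K) → Y → ℝ := fun S y =>
    av (fun z : (K → X) × (K → X) => ∏ p ∈ S, ν y p.1 (mix p.2 z.1 z.2)) with ha
  have hpt : ∀ y : Y, (if LF η₁ (ν y) then (0 : ℝ) else 1) ≤ ∑ S ∈ I, (a S y - 1) ^ 2 * (1 / η₁ ^ 2) := by
    intro y
    have hnn : ∀ S ∈ I, 0 ≤ (a S y - 1) ^ 2 * (1 / η₁ ^ 2) := fun S _ => by positivity
    split_ifs with hLF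
    · exact Finset.sum_nonneg hnn
    · unfold LF at hLF
      push Not at hLF
      obtain ⟨S, hS, hlt⟩ := hLF
      have hSI : S ∈ I := by
        rw [hI, Finset.mem_filter]
        exact ⟨Finset.mem_univ _, hS⟩
      have hlt' : η₁ < |a S y - 1| := hlt
      have h2 : η₁ ^ 2 ≤ (a S y - 1) ^ 2 := by
        rw [← sq_abs (a S y - 1)]
        exact pow_le_pow_left₀ h1.le hlt'.le 2
      have h3 : (1 : ℝ) ≤ (a S y - 1) ^ 2 * (1 / η₁ ^ 2) := by
        rw [mul_one_div, le_div_iff₀ (by positivity)]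
        linarith
      exact h3.trans (Finset.single_le_sum hnn hSI)
  refine (av_mono hpt).trans ?_
  rw [av_sum I (fun S y => (a S y - 1) ^ 2 * (1 / η₁ ^ 2))]
  have hterm : ∀ S ∈ I, av (fun y : Y => (a S y - 1) ^ 2 * (1 / η₁ ^ 2)) ≤ δ / ((n : ℝ) + 1) := by
    intro S hS
    rw [hI, Finset.mem_filter] at hS
    rw [av_mul_const (1 / η₁ ^ 2) (fun y : Y => (a S y - 1) ^ 2)]
    have h4 := hν S hS.2
    have h5 : av (fun y : Y => (a S y - 1) ^ 2) ≤ δ * η₁ ^ 2 / ((n : ℝ) + 1) := h4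
    calc av (fun y : Y => (a S y - 1) ^ 2) * (1 / η₁ ^ 2)
        ≤ δ * η₁ ^ 2 / ((n : ℝ) + 1) * (1 / η₁ ^ 2) := mul_le_mul_of_nonneg_right h5 (by positivity)
      _ = δ / ((n : ℝ) + 1) := by field_simp
  calc ∑ S ∈ I, av (fun y : Y => (a S y - 1) ^ 2 * (1 / η₁ ^ 2))
      ≤ ∑ S ∈ I, δ / ((n : ℝ) + 1) := Finset.sum_le_sum hterm
    _ = (I.card : ℝ) * (δ / ((n : ℝ) + 1)) := by rw [Finset.sum_const, nsmul_eq_mul]
    _ ≤ (n : ℝ) * (δ / ((n : ℝ) + 1)) := by
        refine mul_le_mul_of_nonneg_right ?_ (by positivity)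
        rw [hn]
        exact_mod_cast Finset.card_le_univ I
    _ ≤ δ := by
        rw [mul_div_assoc', div_le_iff₀ hn0]
        nlinarith

theorem LFav.mono {Y K X : Type} [Fintype Y] [Fintype K] [DecidableEq K] [Fintype X] {η η' : ℝ}
    {ν : Y → K → (K → X) → ℝ} (h : LFav η ν) (hη : η ≤ η') : LFav η' ν :=
  fun S hS => (h S hS).trans hη

end Pool.CL
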