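import Pool.Agent.Lib.MP_c77da8_nt.CL.GoodY
import Pool.Agent.Lib.MP_c77da8_nt.CG.Strong

/-!
# CL-Gvn: the local generalised von Neumann inequality for `ν - 1`

PROOF.  `K = Fin (k+2)`, `X = Pt D`, `F y := affF ν (cube k B) {0} y : K → (K → X) → ℝ` (so `F y 0 t = ν (y + B ∑_(l ≠ 0) t_l)`,
`F y i t = 1` for `i ≠ 0`); `F y i ≥ 0`; `Ind i (F y i)` (for `i = 0`: `cube k B 0 0 = 0`).
`Pool.CG.strong K (τ/2)` gives `η₁` (take `min η₁ 1`), `lfav_good K η₁ (τ/16)` gives `η₂`; `η = min η₂ (τ/16)`.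
If `LF η₁ (F y)`: `strong` with `j = 0`, `A = B = ∅` (`nuA _ ∅ i x = 1`), `a = U y`, `b = 1` (compare `Pool.CG.gvn` in `CG/RS.lean`,
same computation, `av_fst`) gives `|I(y)| ≤ τ/2`, `I(y)` the inner average.
Otherwise `|I(y)| ≤ V(y) + 1`, `V(y) = av_t F y 0 t`, and `V(y) + 1 ≤ (V(y) - 1)² + 3` (`v ≤ (v-1)² + 2`).  So
`|I(y)| ≤ τ/2 + (V(y) - 1)² + 3 [¬ LF η₁ (F y)]` for all `y`, and `av_y (V(y) - 1)² ≤ η` (`LFav` with `S = {(0, ∅)}`: `mix_empty`,
`av_fst`).  Total `≤ τ/2 + τ/16 + 3τ/16 ≤ τ`.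
-/

set_option autoImplicit false

namespace Pool.CL

open Finset Pool.CG

/-- the average over the variables of the form `y + B ∑_(l ≠ 0) t_l` -/
private noncomputable def Gvn_V {G : Type} [AddCommGroup G] (k B : ℕ) (D : Finset G) (ν : G → ℝ) (y : G) : ℝ :=
  av (fun t : Fin (k + 2) → Pt D => ν (y + ∑ l, cube k B 0 l • (t l : G)))

private theorem Gvn_aff {G : Type} [AddCommGroup G] (k B : ℕ) (D : Finset G) (ν : G → ℝ) (y : G)
    (x : Fin (k + 2) → Pt D) :
    affF (D := D) ν (cube k B) {0} y 0 x = ν (y + ∑ l, cube k B 0 l • (x l : G)) := by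
  unfold affF
  rw [if_pos (mem_singleton_self _)]

private theorem Gvn_sq {k B : ℕ} {η : ℝ} {G : Type} [AddCommGroup G] [Fintype G] [DecidableEq G]
    {D : Finset G} (hD : D.Nonempty) {ν : G → ℝ} (h : LFav η (affF (D := D) ν (cube k B) {0})) :
    av (fun y : G => (Gvn_V k B D ν y - 1) ^ 2) ≤ η := by
  obtain ⟨d, hd⟩ := hD
  have : Nonempty (Pt D) := ⟨⟨d, hd⟩⟩
  have h1 := h {(0, ∅)} (by
    intro p hp
    rw [mem_singleton] at hp
    subst hp
    simp)
  refine le_trans (le_of_eq ?_) h1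
  refine av_congr fun y => ?_
  congr 2
  unfold Gvn_V
  simp only [prod_singleton, mix_empty]
  rw [av_fst (Ω' := Fin (k + 2) → Pt D) (fun x : Fin (k + 2) → Pt D =>
    affF (D := D) ν (cube k B) {0} y 0 x)]
  exact av_congr fun t => (Gvn_aff k B D ν y t).symm

/-- the average of `ν` is close to `1` -/
theorem lfav_av (k B : ℕ) (η : ℝ) {G : Type} [AddCommGroup G] [Fintype G] [DecidableEq G] (D : Finset G)
    (hD : D.Nonempty) (ν : G → ℝ) (h : LFav η (affF (D := D) ν (cube k B) {0})) : (av ν - 1) ^ 2 ≤ η := by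
  have h1 := Gvn_sq hD h
  have : Nonempty G := ⟨0⟩
  obtain ⟨d, hd⟩ := hD
  have : Nonempty (Pt D) := ⟨⟨d, hd⟩⟩
  have h2 : av (fun y : G => Gvn_V k B D ν y) = av ν := by
    unfold Gvn_V
    rw [av_comm]
    have h3 : ∀ t : Fin (k + 2) → Pt D,
        av (fun y : G => ν (y + ∑ l, cube k B 0 l • (t l : G))) = av ν := by
      intro t
      exact av_equiv (Equiv.addRight (∑ l, cube k B 0 l • (t l : G))) ν
    rw [av_congr h3, av_const]
  have h4 : av (fun y : G => Gvn_V k B D ν y - 1) = av ν - 1 := by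
    rw [av_sub, h2, av_const]
  rw [← h4]
  exact (av_sq_le _).trans h1

private theorem Gvn_nonneg {G : Type} [AddCommGroup G] {k B : ℕ} {D : Finset G} {ν : G → ℝ}
    (hν : ∀ x, 0 ≤ ν x) (y : G) (i : Fin (k + 2)) (x : Fin (k + 2) → Pt D) :
    0 ≤ affF (D := D) ν (cube k B) {0} y i x := by
  unfold affF
  split_ifs
  · exact hν _
  · exact zero_le_one

private theorem Gvn_ind {G : Type} [AddCommGroup G] {k B : ℕ} {D : Finset G} {ν : G → ℝ}
    (y : G) (i : Fin (k + 2)) : Ind i (affF (D := D) ν (cube k B) {0} y i) := by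
  intro x v
  unfold affF
  split_ifs with h
  · rw [mem_singleton] at h
    subst h
    congr 2
    refine sum_congr rfl fun l _ => ?_
    by_cases hl : l = 0
    · subst hl
      simp [cube]
    · rw [Function.update_of_ne hl]
  · rfl

theorem gvn_loc (k : ℕ) (τ : ℝ) (hτ : 0 < τ) : ∃ η : ℝ, 0 < η ∧
    ∀ (G : Type) [AddCommGroup G] [Fintype G] [DecidableEq G] (D : Finset G) (B : ℕ) (ν : G → ℝ), D.Nonempty →
      (∀ x, 0 ≤ ν x) → LFav η (affF (D := D) ν (cube k B) {0}) →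
      ∀ U : G → Fin (k + 2) → (Fin (k + 2) → Pt D) → ℝ, (∀ y i x, |U y i x| ≤ 1) → (∀ y i, Ind i (U y i)) →
        |av (fun y : G => av (fun t : Fin (k + 2) → Pt D =>
          (ν (y + ∑ l, cube k B 0 l • (t l : G)) - 1) * ∏ i ∈ univ.erase 0, U y i t))| ≤ τ := by
  obtain ⟨η₁, hη₁, H⟩ := strong (Fin (k + 2)) (τ / 2) (half_pos hτ)
  obtain ⟨η₂, hη₂, H2⟩ := lfav_good (Fin (k + 2)) η₁ (τ / 16) hη₁ (by linarith)
  refine ⟨min η₂ (τ / 16), lt_min hη₂ (by linarith), ?_⟩
  intro G _ _ _ D B ν hD hν hLF U hU hInd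
  have hsq := (Gvn_sq hD hLF).trans (min_le_right _ _)
  have hbad := H2 G (Pt D) (affF (D := D) ν (cube k B) {0}) (hLF.mono (min_le_left _ _))
  have : Nonempty G := ⟨0⟩
  obtain ⟨d, hd⟩ := hD
  have hne : Nonempty (Pt D) := ⟨⟨d, hd⟩⟩
  have hprod : ∀ (y : G) (t : Fin (k + 2) → Pt D), |∏ i ∈ univ.erase 0, U y i t| ≤ 1 := by
    intro y t
    rw [Finset.abs_prod]
    exact prod_le_one (fun i _ => abs_nonneg _) fun i _ => hU y i t
  classical
  have key : ∀ y : G, |av (fun t : Fin (k + 2) → Pt D =>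
      (ν (y + ∑ l, cube k B 0 l • (t l : G)) - 1) * ∏ i ∈ univ.erase 0, U y i t)| ≤
      τ / 2 + (Gvn_V k B D ν y - 1) ^ 2 +
        3 * (if LF η₁ (affF (D := D) ν (cube k B) {0} y) then (0 : ℝ) else 1) := by
    intro y
    by_cases hy : LF η₁ (affF (D := D) ν (cube k B) {0} y)
    · rw [if_pos hy]
      have h := H (Pt D) (affF (D := D) ν (cube k B) {0} y) (fun i x => Gvn_nonneg hν y i x)
        (fun i => Gvn_ind y i) hy 0 ∅ ∅ (U y) (fun _ _ => 1) (hInd y) (fun i => Ind.const i 1)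
        (fun i x => by
          unfold nuA
          rw [if_neg (Finset.notMem_empty i)]
          exact hU y i x)
        (fun i x => by
          unfold nuA
          rw [if_neg (Finset.notMem_empty i)]
          simp)
      simp only [mul_one, Gvn_aff] at h
      rw [av_fst (Ω' := Pt D) (fun t : Fin (k + 2) → Pt D =>
        (ν (y + ∑ l, cube k B 0 l • (t l : G)) - 1) * ∏ i ∈ univ.erase 0, U y i t)] at h
      have := sq_nonneg (Gvn_V k B D ν y - 1)
      linarith
    · rw [if_neg hy]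
      have h1 : |av (fun t : Fin (k + 2) → Pt D =>
          (ν (y + ∑ l, cube k B 0 l • (t l : G)) - 1) * ∏ i ∈ univ.erase 0, U y i t)| ≤
          av (fun t : Fin (k + 2) → Pt D => ν (y + ∑ l, cube k B 0 l • (t l : G)) + 1) := by
        refine abs_av_le_of fun t => ?_
        rw [abs_mul]
        have h2 := hν (y + ∑ l, cube k B 0 l • (t l : G))
        have h3 : |ν (y + ∑ l, cube k B 0 l • (t l : G)) - 1| ≤
            ν (y + ∑ l, cube k B 0 l • (t l : G)) + 1 := by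
          rw [abs_le]
          constructor <;> linarith
        calc |ν (y + ∑ l, cube k B 0 l • (t l : G)) - 1| * |∏ i ∈ univ.erase 0, U y i t|
            ≤ |ν (y + ∑ l, cube k B 0 l • (t l : G)) - 1| * 1 :=
              mul_le_mul_of_nonneg_left (hprod y t) (abs_nonneg _)
          _ ≤ _ := by rw [mul_one]; exact h3
      rw [av_add, av_const] at h1
      have h4 : av (fun t : Fin (k + 2) → Pt D => ν (y + ∑ l, cube k B 0 l • (t l : G))) =
          Gvn_V k B D ν y := rfl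
      rw [h4] at h1
      nlinarith [sq_nonneg (Gvn_V k B D ν y - 3 / 2)]
  refine (abs_av_le_of key).trans ?_
  rw [av_add, av_add, av_const, av_const_mul]
  linarith

end Pool.CL
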