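import Pool.Agent.Lib.MP_c77da8_nt.CL.PExp
import Pool.Agent.Lib.MP_c77da8_nt.CG.Main1
import Pool.Agent.Lib.MP_c77da8_nt.CG.VBd
import Pool.Agent.Lib.MP_c77da8_nt.CG.RtF

/-!
# CL-LfD: the linear forms estimate, the part where the multipliers are distinct

Copy `CG/LfG.lean` (`lf_dist`), with `A i ω` in place of `Wp w * mz q M (z_i ω)` (so `bad_le` is direct, no factor `Wp w`),
`pair_exp_loc` in place of `pair_exp`, and the probability of a coincidence at most `t^2 (log N)^(-1)` (from the first part of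
`PairL`, `P = (log N)^(9^t+t+1) ≥ log N`) in place of `t^2/M`.  All thresholds (`w0, H0, N0`) are chosen independently:
`exp(16^t/w) ≤ 1 + η'` for `w ≥ w0`; `pair_exp_loc` for `w ≥ w0`, `H ≥ H0`; `err ≤ η'` and `t^2 / log N ≤ η'` for `N ≥ N0`.
-/

set_option autoImplicit false

namespace Pool.CL

open Finset Pool.CG

private lemma exp_sum_le {J : Type} [Fintype J] [Nonempty J] (a : J → ℝ) :
    Real.exp (∑ j, a j) ≤ (∑ j, Real.exp ((Fintype.card J : ℝ) * a j)) / Fintype.card J := by
  have hm : (0 : ℝ) < Fintype.card J := by exact_mod_cast Fintype.card_pos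
  have h := convexOn_exp.map_sum_le (t := (univ : Finset J))
    (w := fun _ : J => 1 / (Fintype.card J : ℝ))
    (p := fun j => (Fintype.card J : ℝ) * a j) (fun _ _ => by positivity)
    (by simp [hm.ne']) (fun _ _ => Set.mem_univ _)
  simp only [smul_eq_mul] at h
  have e : ∑ j, 1 / (Fintype.card J : ℝ) * ((Fintype.card J : ℝ) * a j) = ∑ j, a j :=
    sum_congr rfl fun j _ => by field_simp
  rw [e, ← mul_sum] at h
  refine h.trans (le_of_eq ?_)
  ring

private lemma prime_of_mem {w R p : ℕ} (h : p ∈ Pr w R) : p.Prime ∧ w < p := by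
  unfold Pr at h
  exact (mem_filter.1 h).2

/-- the sum of `1/p` over the bad primes of a pair -/
private noncomputable def SS (w R a a' : ℕ) : ℝ :=
  ∑ p ∈ (Pr w R).filter (fun p => a ≡ a' [MOD p]), 1 / (p : ℝ)

private lemma SS_nonneg (w R a a' : ℕ) : 0 ≤ SS w R a a' := by
  unfold SS
  exact sum_nonneg fun p _ => by positivity

private lemma bad_le {w R : ℕ} (I : Type) [Fintype I] [DecidableEq I] (A : I → ℕ) :
    bad A w R ≤ ∑ a : I × I, if a.1 = a.2 then 0 else SS w R (A a.1) (A a.2) := by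
  classical
  unfold bad
  rw [sum_filter]
  refine (sum_le_sum (g := fun p => ∑ a : I × I, if a.1 = a.2 then 0 else
        if A a.1 ≡ A a.2 [MOD p] then 1 / (p : ℝ) else 0) ?_).trans
    (le_of_eq ?_)
  · intro p hp
    have hnn : ∀ a : I × I, 0 ≤ (if a.1 = a.2 then (0 : ℝ) else
        if A a.1 ≡ A a.2 [MOD p] then 1 / (p : ℝ) else 0) := by
      intro a
      split_ifs <;> positivity
    split_ifs with h
    · obtain ⟨i, j, hij, h⟩ := h
      have h3 := single_le_sum (fun a _ => hnn a) (mem_univ ((i, j) : I × I))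
      refine le_trans (le_of_eq ?_) h3
      rw [if_neg hij, if_pos h]
    · exact sum_nonneg fun a _ => hnn a
  rw [sum_comm]
  refine sum_congr rfl fun a _ => ?_
  unfold SS
  rw [sum_filter]
  by_cases h : a.1 = a.2
  · simp only [h, if_true, sum_const_zero]
  · simp only [h, if_false]

private lemma growth (t : ℕ) (C κ ε : ℝ) (hκ : 0 < κ) (hε : 0 < ε) (B : ℝ) :
    ∃ N0 : ℕ, ∀ N ≥ N0, (C * Real.log N) ^ t / (N : ℝ) ^ (1 / 2 : ℝ) ≤ ε ∧ B ≤ Real.log N ^ κ := by
  have h1 : Filter.Tendsto (fun N : ℕ => Real.log N ^ κ) Filter.atTop Filter.atTop :=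
    (tendsto_rpow_atTop hκ).comp (Real.tendsto_log_atTop.comp tendsto_natCast_atTop_atTop)
  have h2 : Filter.Tendsto (fun x : ℝ => C ^ t * (Real.log x ^ (t : ℝ) / x ^ (1 / 2 : ℝ)))
      Filter.atTop (nhds (C ^ t * 0)) := by
    refine Filter.Tendsto.const_mul _ ?_
    exact (isLittleO_log_rpow_rpow_atTop (t : ℝ) (by norm_num : (0 : ℝ) < 1 / 2)).tendsto_div_nhds_zero
  have h3 : Filter.Tendsto (fun N : ℕ => (C * Real.log N) ^ t / (N : ℝ) ^ (1 / 2 : ℝ))
      Filter.atTop (nhds 0) := by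
    have h4 := h2.comp tendsto_natCast_atTop_atTop (α := ℕ)
    rw [mul_zero] at h4
    refine h4.congr fun N => ?_
    simp only [Function.comp]
    rw [Real.rpow_natCast, mul_pow]
    ring
  have h5 := (h3.eventually (ge_mem_nhds hε)).and (h1.eventually_ge_atTop B)
  obtain ⟨N0, hN0⟩ := Filter.eventually_atTop.1 h5
  exact ⟨N0, fun N hN => hN0 N hN⟩

/-- the majorant of `exp (16 ^ s bad)`, one pair -/
private noncomputable def gg (w R : ℕ) (c : ℝ) {I : Type} [DecidableEq I] (A : I → ℕ) (a : I × I) : ℝ :=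
  if a.1 = a.2 then 1 else Real.exp (c * SS w R (A a.1) (A a.2))

private lemma exp_bad_le {w R : ℕ} (I : Type) [Fintype I] [DecidableEq I]
    [Nonempty I] (t : ℕ) (hI : Fintype.card I ≤ t) (A : I → ℕ) :
    Real.exp (16 ^ Fintype.card I * bad A w R) ≤
      (∑ a : I × I, gg w R (16 ^ t * (t : ℝ) ^ 2) A a) / Fintype.card (I × I) := by
  have h0 := bad_le (w := w) (R := R) I A
  have h1 : (16 : ℝ) ^ Fintype.card I * bad A w R ≤
      ∑ a : I × I, 16 ^ Fintype.card I * (if a.1 = a.2 then 0 else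
        SS w R (A a.1) (A a.2)) := by
    rw [← mul_sum]
    exact mul_le_mul_of_nonneg_left h0 (by positivity)
  refine (Real.exp_le_exp.2 h1).trans ((exp_sum_le _).trans ?_)
  refine div_le_div_of_nonneg_right (sum_le_sum fun a _ => ?_) (Nat.cast_nonneg _)
  unfold gg
  split_ifs with h
  · rw [mul_zero, mul_zero, Real.exp_zero]
  · refine Real.exp_le_exp.2 ?_
    rw [← mul_assoc]
    refine mul_le_mul_of_nonneg_right ?_ (SS_nonneg _ _ _ _)
    rw [Fintype.card_prod]
    have e1 : ((Fintype.card I : ℕ) : ℝ) ≤ t := by exact_mod_cast hI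
    have e2 : (16 : ℝ) ^ Fintype.card I ≤ 16 ^ t := pow_le_pow_right₀ (by norm_num) hI
    have e0 : (0 : ℝ) ≤ Fintype.card I := Nat.cast_nonneg _
    push_cast
    calc ((Fintype.card I : ℝ) * Fintype.card I) * 16 ^ Fintype.card I
        ≤ ((t : ℝ) * t) * 16 ^ t := by
          apply mul_le_mul (mul_le_mul e1 e1 e0 (by positivity)) e2 (by positivity) (by positivity)
      _ = 16 ^ t * (t : ℝ) ^ 2 := by ring

private lemma av_coin {w H : ℕ} {C P L : ℝ} {Ω : Type} [Fintype Ω] [Nonempty Ω]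
    {A A' : Ω → ℕ} (h : PairL w H C P A A') (hL : 0 < L) (hP : L ≤ P) :
    av (fun ω => if A ω = A' ω then (1 : ℝ) else 0) ≤ 1 / L := by
  classical
  have h1 := h.1
  have hΩ : (0 : ℝ) < Fintype.card Ω := by exact_mod_cast Fintype.card_pos
  unfold av
  rw [← sum_filter, sum_const, nsmul_eq_mul, mul_one, div_le_div_iff₀ hΩ hL, one_mul]
  refine le_trans ?_ h1
  exact mul_le_mul_of_nonneg_left hP (Nat.cast_nonneg _)

private lemma bad_empty {I : Type} (hE : IsEmpty I) (A : I → ℕ) (w R : ℕ) : bad A w R = 0 := by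
  classical
  unfold bad
  refine sum_eq_zero fun p hp => ?_
  simp only [mem_filter] at hp
  obtain ⟨_, i, _⟩ := hp
  exact (hE.false i).elim

theorem lf_dist (t σ : ℕ) (ht : 1 ≤ t) (C η : ℝ) (hC : 0 ≤ C) (hη : 0 < η) :
    ∃ w0 H0 N0 : ℕ, ∀ w ≥ w0, ∀ H ≥ H0, ∀ N ≥ N0, ∀ (Ω : Type) [Fintype Ω] [Nonempty Ω] (I : Type) [Fintype I]
      [DecidableEq I], Fintype.card I ≤ t → ∀ A : I → Ω → ℕ, (∀ i ω, 1 ≤ A i ω) →
      (∀ i ω, (A i ω : ℝ) ≤ Real.exp ((H : ℝ) ^ σ)) → (∀ i ω (p : ℕ), p.Prime → p ∣ A i ω → p ≤ w) →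
      (∀ i j, i ≠ j → PairL w H C (Real.log N ^ (9 ^ t + t + 1)) (A i) (A j)) →
      av (fun ω => open Classical in if Function.Injective (fun i => A i ω) then
        |(∑ n ∈ Ico N (2 * N), ∏ i, nuw w (Rt t N) (A i ω * n - 1)) / N - 1| else 0) ≤ η := by
  classical
  obtain ⟨C', hC1, hC'⟩ := VV_le
  have hη1 : 0 < min 1 η / 8 := by positivity
  obtain ⟨η', hη'⟩ : ∃ η' : ℝ, η' = min 1 η / 8 := ⟨_, rfl⟩
  rw [← hη'] at hη1
  have hη2 : η' ≤ 1 / 8 := by
    rw [hη']; exact div_le_div_of_nonneg_right (min_le_left _ _) (by norm_num)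
  have hη3 : 8 * η' ≤ η := by
    rw [hη']
    have := min_le_right 1 η
    linarith
  have hlog1 : 0 < Real.log (1 + η') := Real.log_pos (by linarith)
  obtain ⟨w1, H0, hw1⟩ := pair_exp_loc σ (16 ^ t * (t : ℝ) ^ 2) C η' (by positivity) hC hη1
  obtain ⟨N1, hN1⟩ := Rt_facts t ht
  obtain ⟨w2, hw2⟩ := exists_nat_gt ((16 : ℝ) ^ t / Real.log (1 + η'))
  obtain ⟨N2, hN2⟩ := growth t C' 1 η' zero_lt_one hη1 (max 1 ((t : ℝ) ^ 2 / η'))
  refine ⟨max (max w1 1) w2, H0, max N1 N2, fun w hw H hH N hN Ω _ _ I _ _ hI A hA1 hAs hAp hz => ?_⟩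
  have hww1 : w1 ≤ w := ((le_max_left _ _).trans (le_max_left _ _)).trans hw
  have hw1' : 1 ≤ w := ((le_max_right _ _).trans (le_max_left _ _)).trans hw
  have hww2 : w2 ≤ w := (le_max_right _ _).trans hw
  obtain ⟨hR3, hR8, -, hRN, hlog, -⟩ := hN1 N ((le_max_left _ _).trans hN)
  obtain ⟨herr, hMB⟩ := hN2 N ((le_max_right _ _).trans hN)
  obtain ⟨R, hR⟩ : ∃ R : ℕ, R = Rt t N := ⟨_, rfl⟩
  rw [← hR] at hR3 hR8 hRN hlog ⊢
  rw [Real.rpow_one] at hMB
  have hL1 : 1 ≤ Real.log N := (le_max_left _ _).trans hMB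
  have hL0 : 0 < Real.log N := by linarith
  have hMt : (t : ℝ) ^ 2 / Real.log N ≤ η' := by
    rw [div_le_iff₀ hL0]
    have := (le_max_right _ _).trans hMB
    rw [div_le_iff₀ hη1] at this
    linarith
  have hLP : Real.log N ≤ Real.log N ^ (9 ^ t + t + 1) := by
    calc Real.log N = Real.log N ^ 1 := (pow_one _).symm
      _ ≤ Real.log N ^ (9 ^ t + t + 1) := pow_le_pow_right₀ hL1 (Nat.le_add_left 1 _)
  have hN0 : 1 ≤ N := by omega
  have hNpos : (0 : ℝ) < N := by exact_mod_cast hN0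
  have hwpos : (0 : ℝ) < w := by exact_mod_cast hw1'
  -- the factor of `w`
  have hexp : Real.exp (16 ^ Fintype.card I * (1 / w)) ≤ 1 + η' := by
    rw [← Real.le_log_iff_exp_le (by linarith)]
    have e2 : (16 : ℝ) ^ Fintype.card I ≤ 16 ^ t := pow_le_pow_right₀ (by norm_num) hI
    have e3 : (16 : ℝ) ^ t < w * Real.log (1 + η') := by
      rw [div_lt_iff₀ hlog1] at hw2
      refine hw2.trans_le (mul_le_mul_of_nonneg_right ?_ hlog1.le)
      exact_mod_cast hww2
    rw [mul_one_div, div_le_iff₀ hwpos]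
    linarith
  -- the error
  have hlogR : 1 ≤ Real.log R := by
    rw [Real.le_log_iff_exp_le (by positivity)]
    have h3 : (3 : ℝ) ≤ R := by exact_mod_cast hR3
    have := Real.exp_one_lt_d9
    linarith
  have hV := hC' w R hw1' (by omega)
  have hV0 : 0 < VV (vp w R) R := VV_pos _ (fun p => by
    have h := (prime_of_mem p.2).1.two_le
    unfold vp
    exact h) R (by omega)
  have herr' : VV (vp w R) R ^ Fintype.card I * (R : ℝ) ^ (8 * Fintype.card I) / N ≤ η' := by
    refine le_trans ?_ herr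
    have a1 : VV (vp w R) R ^ Fintype.card I ≤ (C' * Real.log N) ^ t := by
      have b1 : VV (vp w R) R ≤ C' * Real.log N :=
        hV.trans (mul_le_mul_of_nonneg_left hlog (by linarith))
      have b2 : 1 ≤ C' * Real.log N := by nlinarith
      exact (pow_le_pow_left₀ hV0.le b1 _).trans (pow_le_pow_right₀ b2 hI)
    have a2 : (R : ℝ) ^ (8 * Fintype.card I) ≤ (N : ℝ) ^ (1 / 2 : ℝ) := by
      refine le_trans (pow_le_pow_right₀ ?_ (by omega)) hR8
      exact_mod_cast (by omega : 1 ≤ R)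
    have a3 : (N : ℝ) = (N : ℝ) ^ (1 / 2 : ℝ) * (N : ℝ) ^ (1 / 2 : ℝ) := by
      rw [← Real.rpow_add hNpos]
      norm_num
    have a4 : 0 < (N : ℝ) ^ (1 / 2 : ℝ) := Real.rpow_pos_of_pos hNpos _
    rw [div_le_div_iff₀ hNpos a4]
    have a5 : 0 ≤ (C' * Real.log N) ^ t := (pow_nonneg hV0.le _).trans a1
    calc VV (vp w R) R ^ Fintype.card I * (R : ℝ) ^ (8 * Fintype.card I) * (N : ℝ) ^ (1 / 2 : ℝ)
        ≤ (C' * Real.log N) ^ t * (N : ℝ) ^ (1 / 2 : ℝ) * (N : ℝ) ^ (1 / 2 : ℝ) :=
          mul_le_mul_of_nonneg_right (mul_le_mul a1 a2 (by positivity) a5) a4.le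
      _ = (C' * Real.log N) ^ t * ((N : ℝ) ^ (1 / 2 : ℝ) * (N : ℝ) ^ (1 / 2 : ℝ)) := by ring
      _ = (C' * Real.log N) ^ t * N := by rw [← a3]
  -- the majorant of `exp (16 ^ s bad)`
  have hG : ∃ F : Ω → ℝ, av F ≤ 1 + η' ∧ (∀ ω, 0 ≤ F ω) ∧
      ∀ ω, Function.Injective (fun i => A i ω) →
        Real.exp (16 ^ Fintype.card I * bad (fun i => A i ω) w R) ≤ F ω := by
    rcases isEmpty_or_nonempty I with hE | hE
    · refine ⟨fun _ => 1, ?_, fun _ => zero_le_one, fun ω _ => ?_⟩
      · rw [av_const]; linarith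
      · rw [bad_empty hE, mul_zero, Real.exp_zero]
    · have hcard : (0 : ℝ) < Fintype.card (I × I) := by exact_mod_cast Fintype.card_pos
      refine ⟨fun ω => (∑ a : I × I, if Function.Injective (fun i => A i ω) then
        gg w R (16 ^ t * (t : ℝ) ^ 2) (fun i => A i ω) a else 0) *
          (1 / (Fintype.card (I × I) : ℝ)), ?_, ?_, ?_⟩
      · rw [av_mul_const, av_sum, mul_one_div, div_le_iff₀ hcard]
        have : ∀ a : I × I, av (fun ω => if Function.Injective (fun i => A i ω) then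
            gg w R (16 ^ t * (t : ℝ) ^ 2) (fun i => A i ω) a else 0) ≤ 1 + η' := by
          intro a
          by_cases ha : a.1 = a.2
          · refine av_le_of_le fun ω => ?_
            unfold gg
            rw [if_pos ha]
            split_ifs <;> linarith
          · refine le_trans (av_mono fun ω => ?_)
              (hw1 w hww1 H hH Ω (A a.1) (A a.2) _ (hAs a.1) (hAs a.2) (hz a.1 a.2 ha) R)
            unfold gg
            rw [if_neg ha]
            split_ifs with h1 h2 h2
            · exact absurd (h1 h2) ha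
            · exact le_rfl
            · exact le_rfl
            · exact (Real.exp_pos _).le
        refine (sum_le_sum fun a _ => this a).trans (le_of_eq ?_)
        rw [sum_const, card_univ, nsmul_eq_mul, mul_comm]
      · intro ω
        refine mul_nonneg (sum_nonneg fun a _ => ?_) (by positivity)
        unfold gg
        split_ifs
        · exact zero_le_one
        · exact (Real.exp_pos _).le
        · exact le_rfl
      · intro ω hω
        refine (exp_bad_le (w := w) (R := R) I t hI (fun i => A i ω)).trans (le_of_eq ?_)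
        simp only [hω, if_true]
        ring
  obtain ⟨F, hF1, hF0, hF⟩ := hG
  -- pointwise bound
  have hpt : ∀ ω, (if Function.Injective (fun i => A i ω) then
        |(∑ n ∈ Ico N (2 * N), ∏ i, nuw w R (A i ω * n - 1)) / N - 1| else 0) ≤
      (1 + η') * F ω + ((∑ a : I × I, if a.1 = a.2 then 0 else if A a.1 ω = A a.2 ω then (1 : ℝ) else 0)
        - (1 - η')) := by
    intro ω
    have hS0 : 0 ≤ ∑ a : I × I, (if a.1 = a.2 then 0 else if A a.1 ω = A a.2 ω then (1 : ℝ) else 0) :=
      sum_nonneg fun a _ => by split_ifs <;> norm_num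
    split_ifs with h
    · have h1 := main1 w R hw1' (by omega) I (fun i => A i ω)
        (fun i => hA1 i ω)
        (fun i p hp hd => by
          obtain ⟨h2, h3⟩ := prime_of_mem hp
          exact absurd (hAp i ω p h2 hd) (by omega)) N hN0
      have h2 : Real.exp (16 ^ Fintype.card I * (1 / w + bad (fun i => A i ω) w R)) ≤
          (1 + η') * F ω := by
        rw [mul_add, Real.exp_add]
        exact mul_le_mul hexp (hF ω h) (Real.exp_pos _).le (by linarith)
      have h3 : |(∑ n ∈ Ico N (2 * N), ∏ i, nuw w R (A i ω * n - 1)) / N - 1| ≤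
          Real.exp (16 ^ Fintype.card I * (1 / w + bad (fun i => A i ω) w R)) - 1 +
            VV (vp w R) R ^ Fintype.card I * (R : ℝ) ^ (8 * Fintype.card I) / N := h1
      linarith
    · have h1 : ∃ i j, A i ω = A j ω ∧ i ≠ j := by
        unfold Function.Injective at h
        push Not at h
        exact h
      obtain ⟨i, j, h1, h2⟩ := h1
      have h3 := single_le_sum (f := fun a : I × I =>
        (if a.1 = a.2 then 0 else if A a.1 ω = A a.2 ω then (1 : ℝ) else 0))
        (fun a _ => by split_ifs <;> norm_num) (mem_univ ((i, j) : I × I))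
      simp only [h2, h1, if_true, if_false] at h3
      have h4 := mul_nonneg (by linarith : (0 : ℝ) ≤ 1 + η') (hF0 ω)
      linarith
  refine (av_mono hpt).trans ?_
  rw [av_add, av_const_mul, av_sub, av_const, av_sum]
  have hcoin : ∑ a : I × I, av (fun ω => if a.1 = a.2 then 0 else if A a.1 ω = A a.2 ω then (1 : ℝ) else 0)
      ≤ η' := by
    have h1 : ∀ a : I × I, av (fun ω => if a.1 = a.2 then 0 else if A a.1 ω = A a.2 ω then (1 : ℝ)
        else 0) ≤ 1 / Real.log N := by
      intro a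
      by_cases ha : a.1 = a.2
      · simp only [ha, if_true]
        rw [av_zero]
        positivity
      · simp only [ha, if_false]
        exact av_coin (hz a.1 a.2 ha) hL0 hLP
    refine (sum_le_sum fun a _ => h1 a).trans (le_trans ?_ hMt)
    rw [sum_const, card_univ, nsmul_eq_mul, Fintype.card_prod, mul_one_div]
    refine div_le_div_of_nonneg_right ?_ hL0.le
    have e1 : ((Fintype.card I : ℕ) : ℝ) ≤ t := by exact_mod_cast hI
    have e0 : (0 : ℝ) ≤ Fintype.card I := Nat.cast_nonneg _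
    push_cast
    nlinarith
  nlinarith

end Pool.CL
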