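import Pool.Agent.Lib.MP_c77da8_nt.CL.Defs
import Pool.Agent.Lib.MP_dd84fd_nt.Cheb

/-!
# CL-ParL: choice of the parameters

PROOF.  `ℓ = log log N`, `e = min ε 1 / 4`, `w = ⌈A₀ ℓ⌉`, `H' = ⌈ℓ^e⌉`, `H = Q H' w`, `E = Q H`, `M = Q E w + Q E + 1`.
`card (Pw w) ≥ card (P4 w) ≥ w/(4 log w)` (`Pool.MP_dd84fd_nt.card_P4`, `P4 w` = primes in `(w/4, w]`), `log w ≤ 2 log ℓ` for large `N`, so
`card (Pw w) · log H' ≥ (A₀ ℓ/(8 log ℓ)) e log ℓ = (A₀ e/8) ℓ ≥ D0 ℓ` if `A₀ = ⌈8 D0/e⌉ + 1`: this is the inequality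
`(log N)^D0 ≤ H'^card (Pw w)`.  `Wp w ≤ 4^w` (`primorial_le_four_pow`), `w ≤ A₀ ℓ + 1`, so `Wp w ≤ 4 (log N)^(2 A₀) ≤ (log N)^C0`, `C0 = 2 A₀ + 1`.
`w, H', H, E, M` are at most constants (which depend on `Q`, `A₀`) times `ℓ`, `ℓ^e`, `ℓ^(1+e)`, `ℓ^(1+e)`, `ℓ^(2+e)`; so `2 w M ≤ const ℓ^(3+e) ≤ ℓ^(3+ε)`,
`≤ (log N)^(1/100)` and `≤ H'^σ` with `σ = ⌈5/e⌉` for large `N`; `Q w H ≤ const ℓ^(2+e) ≤ ℓ^(2+ε)`.
-/

set_option autoImplicit false

namespace Pool.CL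

open Finset Pool.CG

private theorem Wp_le (w : ℕ) : Wp w ≤ 4 ^ w := by
  have h := primorial_le_four_pow w
  have h2 : Wp w = primorial w := by
    unfold Wp primorial
    apply Finset.prod_congr _ (fun _ _ => rfl)
    ext p
    simp only [mem_filter, mem_Icc, mem_range]
    constructor
    · rintro ⟨⟨_, h2⟩, h3⟩
      exact ⟨by omega, h3⟩
    · rintro ⟨h1, h3⟩
      exact ⟨⟨h3.one_lt.le, by omega⟩, h3⟩
  rw [h2]
  exact h

private theorem card_le (w : ℕ) : (Pool.Agent.Lib.MP_dd84fd_nt.Cheb.P4 w).card ≤ Fintype.card (Pw w) := by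
  have h : Fintype.card (Pw w) = ((Icc 1 w).filter Nat.Prime).card := Fintype.card_coe _
  rw [h]
  apply Finset.card_le_card
  intro p hp
  unfold Pool.Agent.Lib.MP_dd84fd_nt.Cheb.P4 at hp
  rw [mem_filter, mem_Ioc] at hp
  rw [mem_filter, mem_Icc]
  exact ⟨⟨hp.2.one_lt.le, hp.1.2⟩, hp.2⟩

theorem par (ε : ℝ) (hε : 0 < ε) (D0 Q : ℕ) (hQ : 1 ≤ Q) : ∃ σ C0 : ℕ, ∀ w0 H0 : ℕ, ∃ N1 : ℕ, ∀ N ≥ N1,
    ∃ w H' H E M : ℕ, w0 ≤ w ∧ 2 ≤ w ∧ H0 ≤ H' ∧ 1 ≤ H' ∧ H' ≤ H ∧ Q * H' * w ≤ H ∧ Q * H ≤ E ∧ Q * E * w ≤ M ∧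
      Q * E < M ∧ Real.log N ^ D0 ≤ (H' : ℝ) ^ Fintype.card (Pw w) ∧ 2 * w * M ≤ H' ^ σ ∧
      (Wp w : ℝ) ≤ Real.log N ^ C0 ∧ 2 * (w : ℝ) * M ≤ Real.log N ^ (1 / 100 : ℝ) ∧
      (Q : ℝ) * w * H ≤ Real.log (Real.log N) ^ (2 + ε) ∧ 2 * (w : ℝ) * M ≤ Real.log (Real.log N) ^ (3 + ε) := by
  set e : ℝ := min ε 1 / 4 with hedef
  have he : 0 < e := by rw [hedef]; have := lt_min hε one_pos; positivity
  have heε : e < ε := by
    have h1 := min_le_left ε 1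
    rw [hedef]; linarith
  have he1 : e ≤ 1 := by
    have h1 := min_le_right ε 1
    rw [hedef]; linarith
  set A₀ : ℕ := ⌈8 * (D0 : ℝ) / e⌉₊ + 1 with hA
  have hA1 : (1 : ℝ) ≤ A₀ := by rw [hA]; push_cast; have : (0:ℝ) ≤ (⌈8 * (D0 : ℝ) / e⌉₊ : ℝ) := Nat.cast_nonneg _; linarith
  have hA8 : 8 * (D0 : ℝ) ≤ e * A₀ := by
    have h1 : 8 * (D0 : ℝ) / e ≤ (⌈8 * (D0 : ℝ) / e⌉₊ : ℝ) := Nat.le_ceil _
    have h2 : 8 * (D0 : ℝ) / e ≤ A₀ := by rw [hA]; push_cast; linarith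
    rw [div_le_iff₀ he] at h2
    linarith
  set a : ℝ := A₀ + 1 with ha
  have ha0 : 0 < a := by linarith
  have hQ1 : (1 : ℝ) ≤ Q := by exact_mod_cast hQ
  set K : ℝ := 12 * Q ^ 3 * a ^ 3 with hK
  set K2 : ℝ := 2 * Q ^ 2 * a ^ 2 with hK2
  have hK0 : 0 < K := by rw [hK]; positivity
  refine ⟨⌈5 / e⌉₊, 2 * A₀ + 1, fun w0 H0 => ?_⟩
  obtain ⟨W1, hW1⟩ := Filter.eventually_atTop.1 Pool.Agent.Lib.MP_dd84fd_nt.Cheb.card_P4
  have ev1 : ∀ᶠ l : ℝ in Filter.atTop, 2 ≤ l := Filter.eventually_ge_atTop 2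
  have ev2 : ∀ᶠ l : ℝ in Filter.atTop, (w0 : ℝ) ≤ l := Filter.eventually_ge_atTop _
  have ev3 : ∀ᶠ l : ℝ in Filter.atTop, (W1 : ℝ) ≤ l := Filter.eventually_ge_atTop _
  have ev4 : ∀ᶠ l : ℝ in Filter.atTop, (H0 : ℝ) ≤ l ^ e := (tendsto_rpow_atTop he).eventually_ge_atTop _
  have ev5 : ∀ᶠ l : ℝ in Filter.atTop, K ≤ l ^ (ε - e) :=
    (tendsto_rpow_atTop (sub_pos.2 heε)).eventually_ge_atTop _
  have ev6 : ∀ᶠ l : ℝ in Filter.atTop, K2 ≤ l ^ (ε - e) :=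
    (tendsto_rpow_atTop (sub_pos.2 heε)).eventually_ge_atTop _
  have ev7 : ∀ᶠ l : ℝ in Filter.atTop, K * l ^ (3 + e) ≤ Real.exp (1 / 100 * l) := by
    have h1 := (isLittleO_rpow_exp_pos_mul_atTop (3 + e) (show (0:ℝ) < 1 / 100 by norm_num)).bound
      (show 0 < K⁻¹ by positivity)
    filter_upwards [h1, Filter.eventually_ge_atTop (0 : ℝ)] with l hl hl0
    rw [Real.norm_of_nonneg (Real.rpow_nonneg hl0 _), Real.norm_of_nonneg (Real.exp_pos _).le] at hl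
    calc K * l ^ (3 + e) ≤ K * (K⁻¹ * Real.exp (1 / 100 * l)) := by gcongr
      _ = Real.exp (1 / 100 * l) := by rw [← mul_assoc, mul_inv_cancel₀ hK0.ne', one_mul]
  have ev8 : ∀ᶠ l : ℝ in Filter.atTop, K ≤ l := Filter.eventually_ge_atTop _
  have ev9 : ∀ᶠ l : ℝ in Filter.atTop, a ≤ l := Filter.eventually_ge_atTop _
  have hT : Filter.Tendsto (fun N : ℕ => Real.log (Real.log N)) Filter.atTop Filter.atTop :=
    Real.tendsto_log_atTop.comp (Real.tendsto_log_atTop.comp tendsto_natCast_atTop_atTop)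
  have ev := hT.eventually (ev1.and (ev2.and (ev3.and (ev4.and (ev5.and (ev6.and (ev7.and (ev8.and ev9))))))))
  obtain ⟨N1, hN1⟩ := Filter.eventually_atTop.1 ev
  refine ⟨N1, fun N hN => ?_⟩
  obtain ⟨c1, c2, c3, c4, c5, c6, c7, c8, c9⟩ := hN1 N hN
  set l : ℝ := Real.log (Real.log N) with hl
  have hl0 : 0 < l := by linarith
  have hl1 : 1 ≤ l := by linarith
  have hlogN : 0 < Real.log N := by
    have h1 : 0 ≤ Real.log N := Real.log_natCast_nonneg N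
    rcases h1.eq_or_lt with h | h
    · exfalso
      rw [hl, ← h, Real.log_zero] at hl0
      exact lt_irrefl _ hl0
    · exact h
  have hexp : Real.exp l = Real.log N := by rw [hl, Real.exp_log hlogN]
  set x : ℝ := l ^ e with hx
  have hx1 : 1 ≤ x := Real.one_le_rpow hl1 he.le
  have hxl : x ≤ l := by
    calc x = l ^ e := rfl
      _ ≤ l ^ (1 : ℝ) := Real.rpow_le_rpow_of_exponent_le hl1 he1
      _ = l := Real.rpow_one l
  set w : ℕ := ⌈(A₀ : ℝ) * l⌉₊ with hw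
  set H' : ℕ := ⌈x⌉₊ with hH'
  have hw1 : (w : ℝ) < A₀ * l + 1 := Nat.ceil_lt_add_one (by positivity)
  have hwa : (w : ℝ) ≤ a * l := by rw [ha]; nlinarith
  have hw2 : (A₀ : ℝ) * l ≤ w := Nat.le_ceil _
  have hlw : l ≤ w := by nlinarith
  have hH1 : (H' : ℝ) ≤ 2 * x := by
    have := Nat.ceil_lt_add_one (show 0 ≤ x by linarith)
    linarith
  have hH2 : x ≤ H' := Nat.le_ceil _
  have hw2' : 2 ≤ w := by
    have : (2 : ℝ) ≤ w := by linarith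
    exact_mod_cast this
  have hH'1 : 1 ≤ H' := by
    have : (1 : ℝ) ≤ H' := by linarith
    exact_mod_cast this
  have hwR : (1 : ℝ) ≤ w := by linarith
  have hH'R : (1 : ℝ) ≤ H' := by linarith
  -- sizes
  have bH : ((Q * H' * w : ℕ) : ℝ) ≤ 2 * Q * a * x * l := by
    push_cast
    calc (Q : ℝ) * H' * w ≤ Q * (2 * x) * (a * l) := by gcongr
      _ = 2 * Q * a * x * l := by ring
  have hH1n : 1 ≤ Q * H' * w := Nat.succ_le_of_lt (by positivity)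
  have bE : ((Q * (Q * H' * w) : ℕ) : ℝ) ≤ 2 * Q ^ 2 * a * x * l := by
    rw [Nat.cast_mul]
    calc (Q : ℝ) * ((Q * H' * w : ℕ) : ℝ) ≤ Q * (2 * Q * a * x * l) := by gcongr
      _ = 2 * Q ^ 2 * a * x * l := by ring
  set H : ℕ := Q * H' * w with hHd
  set E : ℕ := Q * H with hEd
  have hE1n : 1 ≤ E := Nat.succ_le_of_lt (by positivity)
  have bM : ((Q * E * w + Q * E + 1 : ℕ) : ℝ) ≤ 6 * Q ^ 3 * a ^ 2 * x * l ^ 2 := by
    have h1 : (1 : ℝ) ≤ E := by exact_mod_cast hE1n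
    have h2 : (1 : ℝ) ≤ (Q : ℝ) * E := by nlinarith
    have h3 : (Q : ℝ) * E ≤ Q * E * w := by nlinarith
    push_cast
    calc (Q : ℝ) * E * w + Q * E + 1 ≤ 3 * (Q * E * w) := by linarith
      _ ≤ 3 * (Q * (2 * Q ^ 2 * a * x * l) * (a * l)) := by gcongr
      _ = 6 * Q ^ 3 * a ^ 2 * x * l ^ 2 := by ring
  set M : ℕ := Q * E * w + Q * E + 1 with hMd
  have hx3 : l ^ (3 + e) = x * l ^ 3 := by
    rw [Real.rpow_add hl0, hx, mul_comm]
    congr 1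
    exact_mod_cast Real.rpow_natCast l 3
  have hx2 : l ^ (2 + e) = x * l ^ 2 := by
    rw [Real.rpow_add hl0, hx, mul_comm]
    congr 1
    exact_mod_cast Real.rpow_natCast l 2
  have bwM : 2 * (w : ℝ) * M ≤ K * l ^ (3 + e) := by
    rw [hx3, hK]
    calc 2 * (w : ℝ) * M ≤ 2 * (a * l) * (6 * Q ^ 3 * a ^ 2 * x * l ^ 2) := by gcongr
      _ = 12 * Q ^ 3 * a ^ 3 * (x * l ^ 3) := by ring
  have bwH : (Q : ℝ) * w * H ≤ K2 * l ^ (2 + e) := by
    rw [hx2, hK2]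
    calc (Q : ℝ) * w * H ≤ Q * (a * l) * (2 * Q * a * x * l) := by gcongr
      _ = 2 * Q ^ 2 * a ^ 2 * (x * l ^ 2) := by ring
  refine ⟨w, H', H, E, M, ?_, hw2', ?_, hH'1, ?_, le_refl _, le_refl _, ?_, ?_, ?_, ?_, ?_, ?_, ?_, ?_⟩
  · have : (w0 : ℝ) ≤ w := by linarith
    exact_mod_cast this
  · have : (H0 : ℝ) ≤ H' := c4.trans hH2
    exact_mod_cast this
  · rw [hHd]
    calc H' = 1 * H' * 1 := by ring
      _ ≤ Q * H' * w := by gcongr; omega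
  · rw [hMd]; omega
  · rw [hMd]; omega
  · -- the main inequality
    have hlog : 0 < Real.log l := Real.log_pos (by linarith)
    have hcardR : (w : ℝ) / 4 ≤ ((Pool.Agent.Lib.MP_dd84fd_nt.Cheb.P4 w).card : ℝ) * Real.log w := by
      apply hW1
      have : (W1 : ℝ) ≤ w := by linarith
      exact_mod_cast this
    have hlw2 : Real.log w ≤ 2 * Real.log l := by
      calc Real.log w ≤ Real.log (l ^ 2) := by
            apply Real.log_le_log (by linarith)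
            nlinarith
        _ = 2 * Real.log l := by rw [Real.log_pow]; norm_num
    have hc : ((Pool.Agent.Lib.MP_dd84fd_nt.Cheb.P4 w).card : ℝ) ≤ (Fintype.card (Pw w) : ℝ) := by exact_mod_cast card_le w
    have h5 : (A₀ : ℝ) * l / 4 ≤ (Fintype.card (Pw w) : ℝ) * (2 * Real.log l) := by
      calc (A₀ : ℝ) * l / 4 ≤ w / 4 := by linarith
        _ ≤ ((Pool.Agent.Lib.MP_dd84fd_nt.Cheb.P4 w).card : ℝ) * Real.log w := hcardR
        _ ≤ (Fintype.card (Pw w) : ℝ) * (2 * Real.log l) := by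
            apply mul_le_mul hc hlw2 (Real.log_nonneg hwR) (Nat.cast_nonneg _)
    have h6 : (D0 : ℝ) * l ≤ e * Real.log l * (Fintype.card (Pw w) : ℝ) := by
      have h7 : e * ((A₀ : ℝ) * l / 4) ≤ e * ((Fintype.card (Pw w) : ℝ) * (2 * Real.log l)) := by gcongr
      have h8 : 8 * (D0 : ℝ) * l ≤ e * A₀ * l := by gcongr
      nlinarith
    calc Real.log N ^ D0 = Real.exp ((D0 : ℝ) * l) := by rw [← hexp, ← Real.exp_nat_mul]
      _ ≤ Real.exp (e * Real.log l * (Fintype.card (Pw w) : ℝ)) := Real.exp_le_exp.2 h6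
      _ = (l ^ e) ^ Fintype.card (Pw w) := by
          rw [Real.rpow_def_of_pos hl0, ← Real.exp_nat_mul]
          congr 1
          ring
      _ ≤ (H' : ℝ) ^ Fintype.card (Pw w) := by gcongr
  · -- 2 w M ≤ H'^σ
    have h1 : ((2 * w * M : ℕ) : ℝ) ≤ ((H' ^ ⌈5 / e⌉₊ : ℕ) : ℝ) := by
      push_cast
      have h2 : (l : ℝ) ^ (5 : ℝ) ≤ (l ^ e) ^ ⌈5 / e⌉₊ := by
        rw [← Real.rpow_natCast, ← Real.rpow_mul hl0.le]
        apply Real.rpow_le_rpow_of_exponent_le hl1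
        have h3 : 5 / e ≤ (⌈5 / e⌉₊ : ℝ) := Nat.le_ceil _
        rw [div_le_iff₀ he] at h3
        linarith
      have h4 : (l : ℝ) ^ (5 : ℝ) = l ^ 5 := by exact_mod_cast Real.rpow_natCast l 5
      calc 2 * (w : ℝ) * M ≤ K * l ^ (3 + e) := bwM
        _ = K * (x * l ^ 3) := by rw [hx3]
        _ ≤ l * (l * l ^ 3) := by gcongr
        _ = l ^ (5 : ℝ) := by rw [h4]; ring
        _ ≤ (l ^ e) ^ ⌈5 / e⌉₊ := h2
        _ ≤ (H' : ℝ) ^ ⌈5 / e⌉₊ := by gcongr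
    exact_mod_cast h1
  · -- Wp
    have h1 : (Wp w : ℝ) ≤ (4 : ℝ) ^ w := by exact_mod_cast Wp_le w
    have h4 : (4 : ℝ) ≤ Real.log N := by
      rw [← hexp]
      have h5 : (2.7182818283 : ℝ) < Real.exp 1 := Real.exp_one_gt_d9
      calc (4 : ℝ) ≤ Real.exp 1 * Real.exp 1 := by nlinarith
        _ = Real.exp 2 := by rw [← Real.exp_add]; norm_num
        _ ≤ Real.exp l := Real.exp_le_exp.2 c1
    have hlog4 : Real.log 4 ≤ 2 := by
      have h6 : Real.log 4 = 2 * Real.log 2 := by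
        rw [show (4 : ℝ) = 2 ^ 2 by norm_num, Real.log_pow]; norm_num
      have h7 : Real.log 2 < 0.6931471808 := Real.log_two_lt_d9
      rw [h6]; linarith
    calc (Wp w : ℝ) ≤ (4 : ℝ) ^ w := h1
      _ = Real.exp (w * Real.log 4) := by rw [Real.exp_nat_mul, Real.exp_log (by norm_num)]
      _ ≤ Real.exp ((A₀ * l + 1) * Real.log 4) := by
          apply Real.exp_le_exp.2
          have : 0 ≤ Real.log 4 := Real.log_nonneg (by norm_num)
          gcongr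
      _ = Real.exp (A₀ * l * Real.log 4) * 4 := by
          rw [add_mul, Real.exp_add, one_mul, Real.exp_log (by norm_num)]
      _ ≤ Real.exp (A₀ * l * 2) * Real.log N := by
          apply mul_le_mul _ h4 (by norm_num) (Real.exp_pos _).le
          apply Real.exp_le_exp.2
          gcongr
      _ = Real.log N ^ (2 * A₀) * Real.log N := by
          congr 1
          rw [← hexp, ← Real.exp_nat_mul]
          congr 1
          push_cast
          ring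
      _ = Real.log N ^ (2 * A₀ + 1) := by rw [pow_succ]
  · calc 2 * (w : ℝ) * M ≤ K * l ^ (3 + e) := bwM
      _ ≤ Real.exp (1 / 100 * l) := c7
      _ = Real.log N ^ (1 / 100 : ℝ) := by
          rw [← hexp, ← Real.exp_mul, mul_comm]
  · calc (Q : ℝ) * w * H ≤ K2 * l ^ (2 + e) := bwH
      _ ≤ l ^ (ε - e) * l ^ (2 + e) := by gcongr
      _ = l ^ (2 + ε) := by rw [← Real.rpow_add hl0]; congr 1; ring
  · calc 2 * (w : ℝ) * M ≤ K * l ^ (3 + e) := bwM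
      _ ≤ l ^ (ε - e) * l ^ (3 + e) := by gcongr
      _ = l ^ (3 + ε) := by rw [← Real.rpow_add hl0]; congr 1; ring

end Pool.CL
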