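import Pool.Agent.Lib.MP_c77da8_nt.CL.SysL

/-!
# CL-Rat: second moment with respect to the ratio

PROOF.  For fixed `n`, `x` and `F(y) = ∏_j ν(y + b psi_j(x))`: `av_y F(y) = av_y av_{v ∈ box} F(y + v)` (translation), so
`(av F)² ≤ av_y (av_v F(y + v))² = av_y av_{v, v'} F(y + v) F(y + v')` (`av_sq_le`).  With the average over `x` this is an average over `Om w M H J`,
`J = Fin (k+2) ⊕ Bool` (`inl l ↦ x_l`, `inr β ↦ v_β`), of `∏_{(j, β) : Fin (k+2) × Bool} ν(pt (c (j, β)) ω)`, `c (j, β) (inl l) = b (l - j)`,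
`c (j, β) (inr β') = 1` if `β' = β` and `0` otherwise.  The rows are different (`β` from the `inr` part, `j` from `inl 0`: `- b j`), entries `≤ Bc`,
`2 (k+2) ≤ t` forms.  Exchange `∑_n` and the averages; `lf_sys` with `η = 1`.
(Reindexing: an `Equiv` between `(Fin (k+2) → P) × (Bool → P)` and `Fin (k+2) ⊕ Bool → P`: `Equiv.sumArrowEquivProdArrow`.)
-/

set_option autoImplicit false

namespace Pool.CL

open Finset Pool.CG

private theorem rat_pair {X P : Type} [Fintype X] [Fintype P] (F : X → P → ℝ) :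
    av (fun y : X => (av (fun x : P => F y x)) ^ 2) =
      av (fun ω : X × (Bool → P) => ∏ i, F ω.1 (ω.2 i)) := by
  rw [av_prod]
  refine av_congr fun y => ?_
  have e : av (fun z : Bool → P => ∏ i, F y (z i)) = av (fun z : P × P => F y z.1 * F y z.2) := by
    rw [← av_equiv (Equiv.boolArrowEquivProd P)]
    refine av_congr fun z => ?_
    rw [Fintype.prod_bool, mul_comm]
    rfl
  show _ = av (fun z : Bool → P => ∏ i, F y (z i))
  rw [e, av_prod, sq]
  have h1 : ∀ x : P, av (fun y' : P => F y x * F y y') = F y x * av (fun x : P => F y x) :=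
    fun x => av_const_mul (F y x) _
  show _ = av (fun x : P => av (fun y' : P => F y x * F y y'))
  rw [av_congr h1, av_mul_const]

private theorem rat_one {X P : Type} [AddCommGroup X] [Fintype X] [Fintype P] [Nonempty P] (g : P → X)
    (f : X → ℝ) :
    (av f) ^ 2 ≤ av (fun ω : X × (Bool → P) => ∏ i, f (ω.1 + g (ω.2 i))) := by
  have h1 : av f = av (fun y : X => av (fun x : P => f (y + g x))) := by
    rw [av_comm]
    have h2 : ∀ x : P, av (fun y : X => f (y + g x)) = av f := by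
      intro x
      exact av_equiv (Equiv.addRight (g x)) f
    rw [av_congr h2, av_const]
  rw [h1]
  refine (av_sq_le _).trans ?_
  rw [rat_pair (fun y x => f (y + g x))]

private theorem rat_box_nonempty (w M H : ℕ) [NeZero M] (h1 : 1 ≤ H) (hH : H < M) :
    Nonempty (Pt (box w M H)) := by
  have hM : 1 < M := lt_of_le_of_lt h1 hH
  have : Fact (1 < M) := ⟨hM⟩
  refine ⟨⟨fun _ => 1, ?_⟩⟩
  unfold box
  rw [mem_filter]
  refine ⟨mem_univ _, fun p => ?_⟩
  rw [ZMod.val_one]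
  exact ⟨le_refl _, h1⟩

/-- reindexing of the averages -/
private theorem rat_reindex {X P K : Type} [Fintype X] [Fintype P] [Fintype K] [DecidableEq K]
    (F : X → (K → P) → (Bool → P) → ℝ) :
    av (fun x : K → P => av (fun ω : X × (Bool → P) => F ω.1 x ω.2)) =
      av (fun ω : X × (K ⊕ Bool → P) => F ω.1 (fun l => ω.2 (Sum.inl l)) (fun β => ω.2 (Sum.inr β))) := by
  have h1 : ∀ x : K → P, av (fun ω : X × (Bool → P) => F ω.1 x ω.2) =
      av (fun y : X => av (fun v : Bool → P => F y x v)) := by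
    intro x
    exact av_prod (fun ω : X × (Bool → P) => F ω.1 x ω.2)
  rw [av_congr h1, av_comm (fun (x : K → P) (y : X) => av (fun v : Bool → P => F y x v)),
    av_prod (fun ω : X × (K ⊕ Bool → P) =>
      F ω.1 (fun l => ω.2 (Sum.inl l)) (fun β => ω.2 (Sum.inr β)))]
  refine av_congr fun y => ?_
  have h2 := av_equiv (Equiv.sumArrowEquivProdArrow K Bool P)
    (fun z : (K → P) × (Bool → P) => F y z.1 z.2)
  rw [av_prod (fun z : (K → P) × (Bool → P) => F y z.1 z.2)] at h2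
  rw [← h2]
  rfl

private theorem rat_pt (w M H k b : ℕ) [NeZero M] (ω : Om w M H (Fin (k + 2) ⊕ Bool)) (j : Fin (k + 2))
    (β : Bool) :
    pt (fun l : Fin (k + 2) ⊕ Bool => Sum.elim
      (fun l : Fin (k + 2) => (b : ℤ) * (((l : ℕ) : ℤ) - ((j : ℕ) : ℤ)))
      (fun β' => if β' = β then (1 : ℤ) else 0) l) ω =
      ω.1 + ((ω.2 (Sum.inr β) : Pt (box w M H)) : GG w M) +
        b • psi j (cv (fun l => ω.2 (Sum.inl l))) := by
  unfold pt psi cv
  rw [Fintype.sum_sum_type]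
  simp only [Sum.elim_inl, Sum.elim_inr]
  have h1 : ∑ β' : Bool, (if β' = β then (1 : ℤ) else 0) •
      ((ω.2 (Sum.inr β') : Pt (box w M H)) : GG w M) =
      ((ω.2 (Sum.inr β) : Pt (box w M H)) : GG w M) := by
    rw [Finset.sum_eq_single β]
    · rw [if_pos rfl, one_smul]
    · intro β' _ hne
      rw [if_neg hne, zero_smul]
    · intro h
      exact absurd (mem_univ β) h
  rw [h1, Finset.smul_sum]
  have h2 : ∀ l : Fin (k + 2), ((b : ℤ) * (((l : ℕ) : ℤ) - ((j : ℕ) : ℤ))) •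
      ((ω.2 (Sum.inl l) : Pt (box w M H)) : GG w M) =
      b • ((((l : ℕ) : ℤ) - ((j : ℕ) : ℤ)) • ((ω.2 (Sum.inl l) : Pt (box w M H)) : GG w M)) := by
    intro l
    rw [mul_smul, natCast_zsmul]
  rw [Finset.sum_congr rfl fun l _ => h2 l]
  abel

theorem rat_mom (k t Bc σ : ℕ) (ht : 2 * (k + 2) ≤ t) (hBc : 1 ≤ Bc) :
    ∃ w0 H0 N0 : ℕ, ∀ w ≥ w0, ∀ H ≥ H0, ∀ N ≥ N0, ∀ (M : ℕ) [NeZero M], (2 * Bc + 1) * H < M →
      Real.log N ^ (9 ^ t + t + 1) ≤ (H : ℝ) ^ Fintype.card (Pw w) → 2 * w * M ≤ H ^ σ →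
      ∀ b : ℕ, 1 ≤ b → b * (k + 1) ≤ Bc →
      ∑ n ∈ Ico N (2 * N), av (fun x : Fin (k + 2) → Pt (box w M H) =>
        (av (fun y : GG w M => ∏ j, nuL w M (Rt t N) n (y + b • psi j (cv x)))) ^ 2) ≤ 2 * N := by
  obtain ⟨w0, H0, N0, h0⟩ := lf_sys t Bc σ (by omega) 1 one_pos
  refine ⟨w0, max H0 1, max N0 1, ?_⟩
  intro w hw H hH N hN M _ hM hlog hσ b hb hbk
  have hH0 : H0 ≤ H := le_trans (le_max_left _ _) hH
  have hH1 : 1 ≤ H := le_trans (le_max_right _ _) hH
  have hN0 : N0 ≤ N := le_trans (le_max_left _ _) hN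
  have hN1 : 1 ≤ N := le_trans (le_max_right _ _) hN
  have hHM : H < M := by
    have : H ≤ (2 * Bc + 1) * H := Nat.le_mul_of_pos_left H (by omega)
    omega
  have := rat_box_nonempty w M H hH1 hHM
  let c : Fin (k + 2) × Bool → Fin (k + 2) ⊕ Bool → ℤ := fun i l =>
    Sum.elim (fun l : Fin (k + 2) => (b : ℤ) * (((l : ℕ) : ℤ) - ((i.1 : ℕ) : ℤ)))
      (fun β' => if β' = i.2 then (1 : ℤ) else 0) l
  have hc : ∀ i l, |c i l| ≤ ((Bc : ℕ) : ℤ) := by
    rintro ⟨j, β⟩ (l | β')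
    · simp only [c, Sum.elim_inl]
      rw [abs_mul, Nat.abs_cast]
      have h1 : |((l : ℕ) : ℤ) - ((j : ℕ) : ℤ)| ≤ ((k + 1 : ℕ) : ℤ) := by
        rw [abs_le]
        have := l.2
        have := j.2
        constructor <;> push_cast <;> omega
      calc (b : ℤ) * |((l : ℕ) : ℤ) - ((j : ℕ) : ℤ)| ≤ (b : ℤ) * ((k + 1 : ℕ) : ℤ) :=
            mul_le_mul_of_nonneg_left h1 (by positivity)
        _ ≤ (Bc : ℤ) := by exact_mod_cast hbk
    · simp only [c, Sum.elim_inr]
      split_ifs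
      · rw [abs_one]
        exact_mod_cast hBc
      · rw [abs_zero]
        positivity
  have hinj : Function.Injective c := by
    rintro ⟨j, β⟩ ⟨j', β'⟩ hij
    have h1 := congrFun hij (Sum.inr β)
    have h2 := congrFun hij (Sum.inl 0)
    simp only [c, Sum.elim_inr, Sum.elim_inl] at h1 h2
    have hβ : β = β' := by
      by_contra hne
      rw [if_pos trivial, if_neg hne] at h1
      exact one_ne_zero h1
    have hb0 : (b : ℤ) ≠ 0 := by exact_mod_cast (by omega : b ≠ 0)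
    have h3 := mul_left_cancel₀ hb0 h2
    have hj : j = j' := by
      apply Fin.ext
      have : ((j : ℕ) : ℤ) = ((j' : ℕ) : ℤ) := by linarith
      exact_mod_cast this
    rw [hj, hβ]
  have hcard : Fintype.card (Fin (k + 2) × Bool) ≤ t := by
    rw [Fintype.card_prod, Fintype.card_fin, Fintype.card_bool]
    omega
  have hb1 := h0 w hw H hH0 N hN0 M hM hlog hσ (Fin (k + 2) × Bool) (Fin (k + 2) ⊕ Bool) hcard c hc hinj
  have hb2 := (abs_le.mp hb1).2
  have hNpos : (0 : ℝ) < N := by exact_mod_cast hN1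
  have hstep : ∀ n ∈ Ico N (2 * N), av (fun x : Fin (k + 2) → Pt (box w M H) =>
        (av (fun y : GG w M => ∏ j, nuL w M (Rt t N) n (y + b • psi j (cv x)))) ^ 2) ≤
      av (fun ω : Om w M H (Fin (k + 2) ⊕ Bool) => ∏ i, nuL w M (Rt t N) n (pt (c i) ω)) := by
    intro n _
    have h := fun x : Fin (k + 2) → Pt (box w M H) =>
      rat_one (fun x : Pt (box w M H) => (x : GG w M))
        (fun y : GG w M => ∏ j, nuL w M (Rt t N) n (y + b • psi j (cv x)))
    refine (av_mono h).trans (le_of_eq ?_)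
    rw [rat_reindex (fun (y : GG w M) (x : Fin (k + 2) → Pt (box w M H))
      (v : Bool → Pt (box w M H)) => ∏ β, ∏ j, nuL w M (Rt t N) n
        (y + ((v β : Pt (box w M H)) : GG w M) + b • psi j (cv x)))]
    refine av_congr fun ω => ?_
    rw [Fintype.prod_prod_type_right]
    refine prod_congr rfl fun β _ => prod_congr rfl fun j _ => ?_
    exact congrArg (nuL w M (Rt t N) n) (rat_pt w M H k b ω j β).symm
  refine (sum_le_sum hstep).trans ?_
  rw [← av_sum]
  have hdiv : av (fun ω : Om w M H (Fin (k + 2) ⊕ Bool) =>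
      (∑ n ∈ Ico N (2 * N), ∏ i, nuL w M (Rt t N) n (pt (c i) ω)) / N) =
      av (fun ω : Om w M H (Fin (k + 2) ⊕ Bool) =>
        ∑ n ∈ Ico N (2 * N), ∏ i, nuL w M (Rt t N) n (pt (c i) ω)) / N := by
    simp only [div_eq_mul_inv]
    exact av_mul_const _ _
  rw [hdiv] at hb2
  have h3 : av (fun ω : Om w M H (Fin (k + 2) ⊕ Bool) =>
      ∑ n ∈ Ico N (2 * N), ∏ i, nuL w M (Rt t N) n (pt (c i) ω)) / N ≤ 2 := by
    linarith
  rwa [div_le_iff₀ hNpos] at h3

end Pool.CL
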