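import Pool.Agent.Lib.MP_c77da8_nt.CL.RSL
import Pool.Agent.Lib.MP_c77da8_nt.CL.GoodN
import Pool.Agent.Lib.MP_c77da8_nt.CL.ExtL
import Pool.Agent.Lib.MP_c77da8_nt.CL.ParL
import Pool.Agent.Lib.MP_c77da8_nt.CL.Rat

/-!
# CL-MainR: the theorem with ONE ratio for a positive proportion of `n`

PROOF.  As `main_dyadic` (see `MainL.lean`; same parameters, with `Bc = T (k+2) + B` also for `rat_mom`): for `N` large and every good `n` (at least
`c₀ N` of them, `c₀ = (dL k)²/16`) there is `b ≤ T` with `c ≤ av_y av_x ∏_j f_n(y + b psi_j(x))`.  Pigeonhole: one `b` for the `n` in a set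
`S ⊆ [N, 2N)` with `#S ≥ c₀ N/T`.  `g_n(x) = av_y ∏_j f_n(y + b psi_j(x)) ≥ 0`; `av_x g_n(x) ≥ c` for `n ∈ S` (`av_comm`), so `av_x ∑_{n ∈ S} g_n(x) ≥ c₁ N`,
`c₁ = c c₀/T`; `g_n(x) ≤ av_y ∏ ν_n(..)`, so `av_x ∑_n g_n(x)² ≤ 2 N` (`rat_mom`).  Let `m(x) = #{n ∈ S : g_n(x) > 0}`.  For each `x`:
`(∑_{n ∈ S} g_n(x))² ≤ m(x) ∑ g_n(x)²`, so `∑_{n∈S} g_n(x) ≤ (λ/2) m(x) + (1/(2λ)) ∑ g_n(x)²` for every `λ > 0`; average, with `λ = 2/c₁`:
`c₁ N ≤ (1/c₁) av m + (c₁/4) 2 N`, so `av m ≥ c₁² N/2`, and some `x` has `m(x) ≥ c₁² N/2`.  For this `x`: `a = ratL b x`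
(`ratL_gt`, `ratL_le`), and `extract_x` for every `n ∈ S` with `g_n(x) > 0`.
`narrow_ratio`: from the dyadic version for `⌊N/2⌋` (`Ico N' (2N') ⊆ [1, N]`, `N' ≥ N/3`, `log log N' ≤ log log N`, all large).
-/

set_option autoImplicit false

namespace Pool.CL

open Finset Pool.CG

private theorem MainR_ge_av {X : Type} [Fintype X] [Nonempty X] (F : X → ℝ) : ∃ x, av F ≤ F x := by
  by_contra h
  push Not at h
  have h1 : ∑ x : X, F x < ∑ _x : X, av F :=
    sum_lt_sum_of_nonempty univ_nonempty fun x _ => h x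
  have h2 : (0 : ℝ) < (Fintype.card X : ℝ) := by exact_mod_cast Fintype.card_pos
  have h3 : ∑ x : X, F x = av F * (Fintype.card X : ℝ) := by
    unfold av
    field_simp
  rw [sum_const, card_univ, nsmul_eq_mul, h3] at h1
  linarith

/-- many `n` have `g n x > 0` for a common `x` -/
private theorem MainR_avg {X : Type} [Fintype X] [Nonempty X] (S : Finset ℕ) (g : ℕ → X → ℝ)
    (g0 : ∀ n ∈ S, ∀ x, 0 ≤ g n x) (c N : ℝ) (hc : 0 < c)
    (h1 : c * N ≤ ∑ n ∈ S, av (g n)) (h2 : ∑ n ∈ S, av (fun x => g n x ^ 2) ≤ 2 * N) :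
    ∃ x, c ^ 2 / 2 * N ≤ ((S.filter fun n => 0 < g n x).card : ℝ) := by
  obtain ⟨x, hx⟩ := MainR_ge_av (fun x => ((S.filter fun n => 0 < g n x).card : ℝ))
  refine ⟨x, le_trans ?_ hx⟩
  have h3 : ∀ x, ∑ n ∈ S, g n x ≤
      1 / c * ((S.filter fun n => 0 < g n x).card : ℝ) + c / 4 * ∑ n ∈ S, g n x ^ 2 := by
    intro x
    rw [card_filter, Nat.cast_sum, mul_sum, mul_sum, ← sum_add_distrib]
    refine sum_le_sum fun n hn => ?_
    rcases (g0 n hn x).lt_or_eq with h | h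
    · rw [if_pos h]
      push_cast
      have h4 : 0 ≤ (c / 2 * g n x - 1) ^ 2 / c := by positivity
      have h5 : (c / 2 * g n x - 1) ^ 2 / c = c / 4 * g n x ^ 2 - g n x + 1 / c := by
        field_simp
        ring
      rw [h5] at h4
      linarith
    · rw [← h]
      simp
  have h4 := av_mono h3
  rw [av_add, av_const_mul, av_const_mul, av_sum, av_sum] at h4
  have h5 : c * N ≤ 1 / c * av (fun x => ((S.filter fun n => 0 < g n x).card : ℝ)) + c / 2 * N := by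
    have h6 : c / 4 * ∑ n ∈ S, av (fun x => g n x ^ 2) ≤ c / 4 * (2 * N) :=
      mul_le_mul_of_nonneg_left h2 (by positivity)
    linarith
  have h6 : c / 2 * N ≤ 1 / c * av (fun x => ((S.filter fun n => 0 < g n x).card : ℝ)) := by linarith
  have h7 := mul_le_mul_of_nonneg_left h6 hc.le
  rw [← mul_assoc c (1 / c), mul_one_div_cancel hc.ne', one_mul] at h7
  calc c ^ 2 / 2 * N = c * (c / 2 * N) := by ring
    _ ≤ _ := h7

/-- pigeonhole -/
private theorem MainR_pig (S : Finset ℕ) (T : ℕ) (hT : 1 ≤ T) (P : ℕ → ℕ → Prop)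
    [∀ b n, Decidable (P b n)] (h : ∀ n ∈ S, ∃ b, 1 ≤ b ∧ b ≤ T ∧ P b n) :
    ∃ b, 1 ≤ b ∧ b ≤ T ∧ (S.card : ℝ) / T ≤ ((S.filter fun n => P b n).card : ℝ) := by
  by_contra hc
  push Not at hc
  have h1 : S ⊆ (Icc 1 T).biUnion fun b => S.filter fun n => P b n := by
    intro n hn
    obtain ⟨b, hb1, hbT, hb⟩ := h n hn
    exact mem_biUnion.2 ⟨b, mem_Icc.2 ⟨hb1, hbT⟩, mem_filter.2 ⟨hn, hb⟩⟩
  have h2 : (S.card : ℝ) ≤ ∑ b ∈ Icc 1 T, ((S.filter fun n => P b n).card : ℝ) := by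
    exact_mod_cast (card_le_card h1).trans card_biUnion_le
  have h3 : ∑ b ∈ Icc 1 T, ((S.filter fun n => P b n).card : ℝ) < ∑ _b ∈ Icc 1 T, (S.card : ℝ) / T := by
    refine sum_lt_sum_of_nonempty ⟨1, mem_Icc.2 ⟨le_refl _, hT⟩⟩ fun b hb => ?_
    rw [mem_Icc] at hb
    exact hc b hb.1 hb.2
  have hT0 : (0 : ℝ) < T := by exact_mod_cast hT
  rw [sum_const, Nat.card_Icc, nsmul_eq_mul, Nat.add_sub_cancel, mul_div_cancel₀ _ hT0.ne'] at h3
  linarith

private theorem MainR_card (w : ℕ) : Fintype.card (Pw w) ≤ w := by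
  rw [Fintype.card_coe]
  refine (card_filter_le _ _).trans ?_
  simp

theorem ratio_dyadic (k : ℕ) (ε : ℝ) (hε : 0 < ε) : ∃ (c : ℝ) (N0 : ℕ), 0 < c ∧ ∀ N ≥ N0,
    ∃ a : ℕ, 1 < a ∧ Real.log a ≤ Real.log (Real.log N) ^ (2 + ε) ∧
      c * N ≤ ((open Classical in (Ico N (2 * N)).filter fun n => ∃ b : ℕ, 1 ≤ b ∧
        Real.log b ≤ Real.log (Real.log N) ^ (3 + ε) ∧ ∀ j < k + 2, (n * b * a ^ j - 1).Prime).card : ℝ) := by
  classical
  have htL : 1 ≤ 2 ^ (k + 2) := Nat.one_le_two_pow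
  have ht1 : 1 ≤ tL k := by
    unfold tL
    have h2 : (k + 2) * 1 ≤ (k + 2) * 2 ^ (k + 2) := Nat.mul_le_mul_left _ htL
    omega
  have ht2 : 2 * (k + 2) ≤ tL k := by
    unfold tL
    have h2 : (k + 2) * 1 ≤ (k + 2) * 2 ^ (k + 2) := Nat.mul_le_mul_left _ htL
    omega
  have hd : 0 < dL k := by
    unfold dL
    have : (0 : ℝ) < tL k := by exact_mod_cast ht1
    positivity
  obtain ⟨T, κ, η, cR, hT, hκ, hη, hcR, hrs⟩ := rs_local k (dL k / 2) (by positivity)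
  set B : ℕ := BT k T with hBdef
  have hB : 1 ≤ B := Nat.factorial_pos _
  set Bc : ℕ := T * (k + 2) + B with hBc
  obtain ⟨Q, hQ⟩ : ∃ Q : ℕ, Q = ⌈(B : ℝ) / κ⌉₊ + T * (k + 2) * (k + 2) + 4 + (2 * Bc + 3) +
      2 * (T * (k + 2)) + (B + 1) := ⟨_, rfl⟩
  have hQ1 : (B : ℝ) ≤ κ * Q := by
    have h1 : (B : ℝ) / κ ≤ Q := by
      refine (Nat.le_ceil _).trans ?_
      exact_mod_cast (by omega : ⌈(B : ℝ) / κ⌉₊ ≤ Q)
    rw [div_le_iff₀ hκ] at h1
    linarith
  have hQ2 : T * (k + 2) * (k + 2) ≤ Q := by omega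
  have hQ3 : 4 ≤ Q := by omega
  have hQ4 : 2 * Bc + 3 ≤ Q := by omega
  have hQ5 : 2 * (T * (k + 2)) ≤ Q := by omega
  have hQ6 : B + 1 ≤ Q := by omega
  obtain ⟨σ, C0, hpar⟩ := par ε hε (9 ^ tL k + tL k + 1) Q (by omega)
  obtain ⟨w1, H1, N1, hgood⟩ := good_n k T B σ C0 hB η hη
  obtain ⟨w2, H2, N2, hmom⟩ := rat_mom k (tL k) Bc σ ht2 (by omega)
  obtain ⟨N3, hpar⟩ := hpar (max w1 w2) (max H1 H2)
  have hT0 : (0 : ℝ) < T := by exact_mod_cast hT
  refine ⟨(cR * (dL k ^ 2 / 16 / T)) ^ 2 / 2, max (max N1 N2) (max N3 1), by positivity,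
    fun N hN => ?_⟩
  have hN1 : N1 ≤ N := le_trans ((le_max_left _ _).trans (le_max_left _ _)) hN
  have hN2 : N2 ≤ N := le_trans ((le_max_right _ _).trans (le_max_left _ _)) hN
  have hN3 : N3 ≤ N := le_trans ((le_max_left _ _).trans (le_max_right _ _)) hN
  obtain ⟨w, H', H, E, M, hw0, hw2, hH0, hH'1, hHH, hH, hE, hM, hM', hlog, hσ, hWp, h100, ha, hb⟩ :=
    hpar N hN3
  have hMne : NeZero M := ⟨by omega⟩
  have hw1' : w1 ≤ w := (le_max_left _ _).trans hw0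
  have hw2' : w2 ≤ w := (le_max_right _ _).trans hw0
  have hH1' : H1 ≤ H' := (le_max_left _ _).trans hH0
  have hH2' : H2 ≤ H' := (le_max_right _ _).trans hH0
  have hH1 : 1 ≤ H := hH'1.trans hHH
  have hcard := MainR_card w
  -- sizes
  have hEH : Q * H ≤ Q * E := by
    have h1 : H ≤ E := le_trans (Nat.le_mul_of_pos_left _ (by omega)) hE
    exact Nat.mul_le_mul_left _ h1
  have hQHM : Q * H < M := lt_of_le_of_lt hEH hM'
  have hM1 : (2 * (T * (k + 2) + B) + 3) * H < M :=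
    lt_of_le_of_lt (Nat.mul_le_mul_right _ (by rw [← hBc]; exact hQ4)) hQHM
  have hM2 : (2 * Bc + 1) * H < M :=
    lt_of_le_of_lt (Nat.mul_le_mul_right _ (by omega)) hQHM
  have hM3 : H + B * H' < M := by
    have h1 : H + B * H' ≤ (B + 1) * H := by
      have := Nat.mul_le_mul_left B hHH
      nlinarith
    exact lt_of_le_of_lt (h1.trans (Nat.mul_le_mul_right _ hQ6)) hQHM
  have hM4 : 2 * E < M := lt_of_le_of_lt (Nat.mul_le_mul_right _ (by omega)) hM'
  have hM5 : 4 * E * Fintype.card (Pw w) ≤ M := by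
    calc 4 * E * Fintype.card (Pw w) ≤ Q * E * w :=
          Nat.mul_le_mul (Nat.mul_le_mul_right _ hQ3) hcard
      _ ≤ M := hM
  have hHM : H < M := by omega
  have hH'M : H' < M := by omega
  have hκ' : (Fintype.card (Pw w) : ℝ) * (B * H') ≤ κ * H := by
    have h1 : (Q : ℝ) * H' * w ≤ H := by exact_mod_cast hH
    have h2 : (Fintype.card (Pw w) : ℝ) ≤ w := by exact_mod_cast hcard
    calc (Fintype.card (Pw w) : ℝ) * (B * H') ≤ w * (B * H') :=
          mul_le_mul_of_nonneg_right h2 (by positivity)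
      _ ≤ w * (κ * Q * H') := by
          refine mul_le_mul_of_nonneg_left ?_ (Nat.cast_nonneg _)
          exact mul_le_mul_of_nonneg_right hQ1 (Nat.cast_nonneg _)
      _ = κ * (Q * H' * w) := by ring
      _ ≤ κ * H := mul_le_mul_of_nonneg_left h1 hκ.le
  have hlogH : Real.log N ^ (9 ^ tL k + tL k + 1) ≤ (H : ℝ) ^ Fintype.card (Pw w) :=
    hlog.trans (pow_le_pow_left₀ (Nat.cast_nonneg _) (by exact_mod_cast hHH) _)
  have hσH : 2 * w * M ≤ H ^ σ := hσ.trans (Nat.pow_le_pow_left hHH σ)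
  have hG := hgood w hw1' H' hH1' H hHH N hN1 M E hM1 hlog hσ hWp h100 hM5
  have hR2 := hmom w hw2' H (hH2'.trans hHH) N hN2 M hM2 hlogH hσH
  have hne : (box w M H).Nonempty := box_nonempty w M H hH1 hHM
  have hne' : (box w M H').Nonempty := box_nonempty w M H' hH'1 hH'M
  have hinv := inv_box w M H H' B κ hH1 hM3 hκ'
  have hPt : Nonempty (Pt (box w M H)) := hne.to_subtype
  clear hpar hgood hmom
  set R : ℕ := Rt (tL k) N with hR
  -- the good `n`
  set Gs := (Ico N (2 * N)).filter fun n =>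
        LFav η (affF (D := box w M H') (nuL w M R n) (cube k B) {0}) ∧
        (∀ b : ℕ, 1 ≤ b → b ≤ T → LFav η (affF (D := box w M H) (nuL w M R n) (patt k b) univ)) ∧
        dL k / 2 ≤ av (fL w M R E n) ∧
        ∀ z, 0 ≤ fL w M R E n z ∧ fL w M R E n z ≤ nuL w M R n z with hGs
  have hGcard : dL k ^ 2 / 16 * N ≤ (Gs.card : ℝ) := by
    refine hG.trans ?_
    norm_cast
  have hGn : ∀ n ∈ Gs, ∃ b : ℕ, 1 ≤ b ∧ b ≤ T ∧
      cR ≤ av (fun y : GG w M => av (fun x : Fin (k + 2) → Pt (box w M H) =>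
        ∏ j, fL w M R E n (y + b • psi j (cv x)))) := by
    intro n hn
    rw [hGs, mem_filter] at hn
    obtain ⟨-, hn1, hn2, hn3, hn4⟩ := hn
    exact hrs (GG w M) (box w M H) (box w M H') (nuL w M R n) (fL w M R E n) hne hne' hn4 hn3
      hinv hn1 hn2
  obtain ⟨b, hb1, hbT, hpig⟩ := MainR_pig Gs T hT (fun b n =>
    cR ≤ av (fun y : GG w M => av (fun x : Fin (k + 2) → Pt (box w M H) =>
        ∏ j, fL w M R E n (y + b • psi j (cv x))))) hGn
  set S := Gs.filter fun n =>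
    cR ≤ av (fun y : GG w M => av (fun x : Fin (k + 2) → Pt (box w M H) =>
        ∏ j, fL w M R E n (y + b • psi j (cv x)))) with hS
  have hSG : S ⊆ Gs := filter_subset _ _
  have hGI : Gs ⊆ Ico N (2 * N) := filter_subset _ _
  have hScard : dL k ^ 2 / 16 / T * N ≤ (S.card : ℝ) := by
    refine le_trans ?_ hpig
    calc dL k ^ 2 / 16 / T * N = dL k ^ 2 / 16 * N / T := by ring
      _ ≤ (Gs.card : ℝ) / T := div_le_div_of_nonneg_right hGcard hT0.le
  obtain ⟨g, hg⟩ : ∃ g : ℕ → (Fin (k + 2) → Pt (box w M H)) → ℝ, g = fun n x =>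
    av (fun y : GG w M => ∏ j, fL w M R E n (y + b • psi j (cv x))) := ⟨_, rfl⟩
  have hf0 : ∀ n ∈ S, ∀ z, 0 ≤ fL w M R E n z ∧ fL w M R E n z ≤ nuL w M R n z := by
    intro n hn
    have := hSG hn
    rw [hGs, mem_filter] at this
    exact this.2.2.2.2
  have hg0 : ∀ n ∈ S, ∀ x, 0 ≤ g n x := by
    intro n hn x
    rw [hg]
    exact av_nonneg fun y => prod_nonneg fun j _ => (hf0 n hn _).1
  have hgle : ∀ n ∈ S, ∀ x, g n x ≤
      av (fun y : GG w M => ∏ j, nuL w M R n (y + b • psi j (cv x))) := by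
    intro n hn x
    rw [hg]
    exact av_mono fun y => prod_le_prod (fun j _ => (hf0 n hn _).1) fun j _ => (hf0 n hn _).2
  have hkey := MainR_avg S g hg0 (cR * (dL k ^ 2 / 16 / T)) N (by positivity) (by
      calc cR * (dL k ^ 2 / 16 / T) * N = (dL k ^ 2 / 16 / T * N) * cR := by ring
        _ ≤ (S.card : ℝ) * cR := mul_le_mul_of_nonneg_right hScard hcR.le
        _ = ∑ _n ∈ S, cR := by rw [sum_const, nsmul_eq_mul]
        _ ≤ ∑ n ∈ S, av (g n) := by
            refine sum_le_sum fun n hn => ?_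
            rw [hS, mem_filter] at hn
            refine hn.2.trans (le_of_eq ?_)
            rw [hg]
            exact av_comm _) (by
      have hb2 : b * (k + 1) ≤ Bc := by
        calc b * (k + 1) ≤ T * (k + 2) := Nat.mul_le_mul hbT (by omega)
          _ ≤ Bc := by omega
      calc ∑ n ∈ S, av (fun x => g n x ^ 2)
          ≤ ∑ n ∈ S, av (fun x : Fin (k + 2) → Pt (box w M H) =>
            (av (fun y : GG w M => ∏ j, nuL w M R n (y + b • psi j (cv x)))) ^ 2) :=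
            sum_le_sum fun n hn => av_mono fun x =>
              pow_le_pow_left₀ (hg0 n hn x) (hgle n hn x) 2
        _ ≤ ∑ n ∈ Ico N (2 * N), av (fun x : Fin (k + 2) → Pt (box w M H) =>
            (av (fun y : GG w M => ∏ j, nuL w M R n (y + b • psi j (cv x)))) ^ 2) :=
            sum_le_sum_of_subset_of_nonneg (hSG.trans hGI) fun n _ _ =>
              av_nonneg fun x => sq_nonneg _
        _ ≤ 2 * N := hR2 b hb1 hb2)
  obtain ⟨x, hx⟩ := hkey
  refine ⟨ratL b x, ratL_gt b x hw2 hb1, ?_, ?_⟩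
  · have h1 := ratL_le b x
    have h2 : (0 : ℝ) < (ratL b x : ℝ) := by
      have := ratL_gt b x hw2 hb1
      exact_mod_cast (by omega : 0 < ratL b x)
    have h3 := Real.log_le_log h2 h1
    rw [Real.log_exp] at h3
    refine h3.trans (le_trans ?_ ha)
    have h4 : (b : ℝ) * (k + 2) * 2 ≤ Q := by
      have : b * (k + 2) * 2 ≤ Q := by
        calc b * (k + 2) * 2 ≤ T * (k + 2) * 2 :=
              Nat.mul_le_mul_right _ (Nat.mul_le_mul_right _ hbT)
          _ = 2 * (T * (k + 2)) := by ring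
          _ ≤ Q := hQ5
      exact_mod_cast this
    calc 2 * (w : ℝ) * (b * (k + 2) * H) = (b * (k + 2) * 2) * (w * H) := by ring
      _ ≤ Q * (w * H) := mul_le_mul_of_nonneg_right h4 (by positivity)
      _ = Q * w * H := by ring
  · refine hx.trans ?_
    norm_cast
    refine card_le_card fun n hn => ?_
    rw [mem_filter] at hn
    rw [mem_filter]
    refine ⟨hGI (hSG hn.1), ?_⟩
    have hpos := hn.2
    rw [hg] at hpos
    obtain ⟨m0, hm1, hm2, hm3⟩ := extract_x E b n R hw2 hb1 hH1 (by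
      calc b * (k + 2) * H * (k + 2) = b * (k + 2) * (k + 2) * H := by ring
        _ ≤ T * (k + 2) * (k + 2) * H :=
          Nat.mul_le_mul_right _ (Nat.mul_le_mul_right _ (Nat.mul_le_mul_right _ hbT))
        _ ≤ Q * H := Nat.mul_le_mul_right _ hQ2
        _ ≤ E := hE) hM4 x hpos
    refine ⟨m0, hm1, ?_, hm3⟩
    have h2 : (0 : ℝ) < (m0 : ℝ) := by exact_mod_cast hm1
    have h3 := Real.log_le_log h2 hm2
    rw [Real.log_exp] at h3
    exact h3.trans hb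

theorem narrow_ratio (k : ℕ) (ε : ℝ) (hε : 0 < ε) : ∃ (c : ℝ) (N0 : ℕ), 0 < c ∧ ∀ N ≥ N0,
    ∃ a : ℕ, 1 < a ∧ Real.log a ≤ Real.log (Real.log N) ^ (2 + ε) ∧
      c * N ≤ ((open Classical in (Icc 1 N).filter fun n => ∃ b : ℕ, 1 ≤ b ∧
        Real.log b ≤ Real.log (Real.log N) ^ (3 + ε) ∧ ∀ j < k, (n * b * a ^ j - 1).Prime).card : ℝ) := by
  classical
  obtain ⟨c, N0, hc, h⟩ := ratio_dyadic k ε hε
  refine ⟨c / 3, 2 * N0 + 100, by positivity, fun N hN => ?_⟩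
  obtain ⟨a, ha1, ha2, ha3⟩ := h (N / 2) (by omega)
  have hN2 : 50 ≤ N / 2 := by omega
  have hle : ((N / 2 : ℕ) : ℝ) ≤ (N : ℝ) := by exact_mod_cast Nat.div_le_self N 2
  have hpos : (3 : ℝ) ≤ ((N / 2 : ℕ) : ℝ) := by exact_mod_cast (by omega : 3 ≤ N / 2)
  have he : (1 : ℝ) ≤ Real.log ((N / 2 : ℕ) : ℝ) := by
    rw [Real.le_log_iff_exp_le (by linarith)]
    exact (Real.exp_one_lt_d9.le.trans (by norm_num)).trans hpos
  have hlog : Real.log ((N / 2 : ℕ) : ℝ) ≤ Real.log N := Real.log_le_log (by linarith) hle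
  have hll0 : 0 ≤ Real.log (Real.log ((N / 2 : ℕ) : ℝ)) := Real.log_nonneg he
  have hll : Real.log (Real.log ((N / 2 : ℕ) : ℝ)) ≤ Real.log (Real.log N) :=
    Real.log_le_log (by linarith) hlog
  refine ⟨a, ha1, ha2.trans (Real.rpow_le_rpow hll0 hll (by linarith)), ?_⟩
  have h1 : c / 3 * N ≤ c * ((N / 2 : ℕ) : ℝ) := by
    have : (N : ℝ) ≤ 3 * ((N / 2 : ℕ) : ℝ) := by exact_mod_cast (by omega : N ≤ 3 * (N / 2))
    have := mul_le_mul_of_nonneg_left this hc.le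
    linarith
  refine h1.trans (ha3.trans ?_)
  norm_cast
  refine card_le_card fun n hn => ?_
  rw [mem_filter, mem_Ico] at hn
  rw [mem_filter, mem_Icc]
  obtain ⟨hn1, b, hb1, hb2, hb3⟩ := hn
  refine ⟨⟨by omega, by omega⟩, b, hb1,
    hb2.trans (Real.rpow_le_rpow hll0 hll (by linarith)), fun j hj => hb3 j (by omega)⟩

end Pool.CL
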