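import Pool.Agent.Lib.MP_c77da8_nt.CL.SqSys

/-!
# CL-MostN: most `n` satisfy the linear forms condition in mean square

PROOF.  `sq_sys` with `η' = δ η / (3 (n₀ + 1))`, `n₀ = card (Finset (Fin (k+2) × Finset (Fin (k+2))))`.  If `LFav η` fails for `n` then the mean square is
`> η` for one of the allowed `S`; so `η · #{bad n} ≤ ∑_S ∑_n (mean square) ≤ n₀ · 3 η' N ≤ δ η N`.
-/

set_option autoImplicit false

namespace Pool.CL

open Finset Pool.CG

theorem most_n (k t Bc σ : ℕ) (ht : 2 * ((k + 2) * 2 ^ (k + 2)) ≤ t) (η δ : ℝ) (hη : 0 < η) (hδ : 0 < δ) :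
    ∃ w0 H0 N0 : ℕ, ∀ w ≥ w0, ∀ H ≥ H0, ∀ N ≥ N0, ∀ (M : ℕ) [NeZero M], (2 * Bc + 1) * H < M →
      Real.log N ^ (9 ^ t + t + 1) ≤ (H : ℝ) ^ Fintype.card (Pw w) → 2 * w * M ≤ H ^ σ →
      ∀ (a : Fin (k + 2) → Fin (k + 2) → ℤ) (J : Finset (Fin (k + 2))), (∀ i l, |a i l| ≤ (Bc : ℤ)) →
      (∀ i, a i i = 0) → (∀ i l, l ≠ i → a i l ≠ 0) →
      ((open Classical in (Ico N (2 * N)).filter fun n =>
        ¬ LFav η (affF (D := box w M H) (nuL w M (Rt t N) n) a J)).card : ℝ) ≤ δ * N := by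
  classical
  set n0 : ℕ := Fintype.card (Finset (Fin (k + 2) × Finset (Fin (k + 2)))) with hn0
  have hη' : 0 < δ * η / (3 * ((n0 : ℝ) + 1)) := by positivity
  obtain ⟨w0, H0, N0, h⟩ := sq_sys k t Bc σ ht (δ * η / (3 * ((n0 : ℝ) + 1))) hη'
  refine ⟨w0, H0, N0, ?_⟩
  intro w hw H hH N hN M _ h1 h2 h3 a J ha1 ha2 ha3
  have key := h w hw H hH N hN M h1 h2 h3 a J ha1 ha2 ha3
  clear h
  set Q : Finset (Fin (k + 2) × Finset (Fin (k + 2))) → ℕ → ℝ := fun S n =>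
    av (fun y : GG w M => (av (fun z : (Fin (k + 2) → Pt (box w M H)) × (Fin (k + 2) → Pt (box w M H)) =>
        ∏ p ∈ S, affF (nuL w M (Rt t N) n) a J y p.1 (mix p.2 z.1 z.2)) - 1) ^ 2) with hQ
  have hQ0 : ∀ S n, 0 ≤ Q S n := by
    intro S n
    simp only [hQ]
    exact av_nonneg fun y => sq_nonneg _
  set A : Finset (Finset (Fin (k + 2) × Finset (Fin (k + 2)))) :=
    univ.filter fun S => ∀ p ∈ S, p.1 ∉ p.2 with hA
  have hAcard : (A.card : ℝ) ≤ n0 := by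
    have : A.card ≤ n0 := by
      rw [hn0, ← Finset.card_univ]
      exact Finset.card_le_card (Finset.filter_subset _ _)
    exact_mod_cast this
  have hbad : ∀ n, ¬ LFav η (affF (D := box w M H) (nuL w M (Rt t N) n) a J) →
      η ≤ ∑ S ∈ A, Q S n := by
    intro n hn
    unfold LFav at hn
    push Not at hn
    obtain ⟨S, hS, hlt⟩ := hn
    have hSA : S ∈ A := by
      rw [hA, Finset.mem_filter]
      exact ⟨Finset.mem_univ _, hS⟩
    have h4 : Q S n ≤ ∑ S ∈ A, Q S n :=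
      Finset.single_le_sum (f := fun S => Q S n) (fun S _ => hQ0 S n) hSA
    exact le_trans hlt.le h4
  set Bd := (Ico N (2 * N)).filter fun n =>
        ¬ LFav η (affF (D := box w M H) (nuL w M (Rt t N) n) a J) with hBd
  have h5 : η * (Bd.card : ℝ) ≤ ∑ n ∈ Ico N (2 * N), ∑ S ∈ A, Q S n := by
    have h6 : ∑ n ∈ Bd, η ≤ ∑ n ∈ Bd, ∑ S ∈ A, Q S n := by
      refine Finset.sum_le_sum ?_
      intro n hn
      exact hbad n (Finset.mem_filter.1 hn).2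
    have h7 : ∑ n ∈ Bd, ∑ S ∈ A, Q S n ≤ ∑ n ∈ Ico N (2 * N), ∑ S ∈ A, Q S n := by
      refine Finset.sum_le_sum_of_subset_of_nonneg (Finset.filter_subset _ _) ?_
      intro n _ _
      exact Finset.sum_nonneg fun S _ => hQ0 S n
    rw [Finset.sum_const, nsmul_eq_mul] at h6
    linarith
  have h8 : ∑ n ∈ Ico N (2 * N), ∑ S ∈ A, Q S n ≤
      (A.card : ℝ) * (3 * (δ * η / (3 * ((n0 : ℝ) + 1))) * N) := by
    rw [Finset.sum_comm]
    have h9 : ∀ S ∈ A, ∑ n ∈ Ico N (2 * N), Q S n ≤ 3 * (δ * η / (3 * ((n0 : ℝ) + 1))) * N := by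
      intro S hS
      exact key S (Finset.mem_filter.1 hS).2
    calc ∑ S ∈ A, ∑ n ∈ Ico N (2 * N), Q S n ≤ ∑ S ∈ A, 3 * (δ * η / (3 * ((n0 : ℝ) + 1))) * N :=
          Finset.sum_le_sum h9
      _ = _ := by rw [Finset.sum_const, nsmul_eq_mul]
  have h10 : (A.card : ℝ) * (3 * (δ * η / (3 * ((n0 : ℝ) + 1))) * N) ≤ η * (δ * N) := by
    have hN0 : (0 : ℝ) ≤ N := Nat.cast_nonneg _
    have hn1 : (0 : ℝ) < (n0 : ℝ) + 1 := by positivity
    have e : 3 * (δ * η / (3 * ((n0 : ℝ) + 1))) * N = (η * (δ * N)) / ((n0 : ℝ) + 1) := by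
      field_simp
    rw [e, mul_div_assoc']
    rw [div_le_iff₀ hn1]
    have h11 : 0 ≤ η * (δ * N) := by positivity
    nlinarith [h11, hAcard]
  have h12 : η * (Bd.card : ℝ) ≤ η * (δ * N) := le_trans h5 (le_trans h8 h10)
  have h13 : (Bd.card : ℝ) ≤ δ * N := le_of_mul_le_mul_left h12 hη
  convert h13 using 3

end Pool.CL
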