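import Pool.Agent.Lib.MP_c77da8_nt.CG.PnC
import Pool.Agent.Lib.MP_c77da8_nt.CG.PnL

/-!
# CL-PL: lower bound for `L(s, χ)` with an explicit dependence on the radical

`real_rad`: `χ² = 1`, `χ ≠ 1`, all primes of `q` divide `W`: as in `Pool.CG.real_char` (`CG/PnC.lean`, copy its proof and the private lemmas it needs),
`χ` factors through `d = gcd(q, 8W)`, `χ.LFunction 1 = χ'.LFunction 1`, `χ' ≠ 1` modulo `d`, `χ'² = 1`; now
`Pool.MP_dd84fd_nt.SW.siegel ε` gives `‖χ'.LFunction 1‖ ≥ c d^(-ε) ≥ c (8W)^(-ε) ≥ (c 8^(-ε)) W^(-ε)`.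
`L_rad`: the proof of `Pool.CG.L_low` (`CG/PnL.lean`) with `c3 = (c W^(-ε))` (`min .. 1`): the constant is `c1 * c3 / (8 * C2)`, linear in `c3`.
-/

set_option autoImplicit false

namespace Pool.CL

open Finset Pool.CG Pool.MP_dd84fd_nt.SW

theorem real_rad (ε : ℝ) (hε : 0 < ε) : ∃ c : ℝ, 0 < c ∧ ∀ W : ℕ, 1 ≤ W → ∀ (q : ℕ) [NeZero q],
    (∀ p : ℕ, p.Prime → p ∣ q → p ∣ W) → ∀ χ : DirichletCharacter ℂ q, χ ≠ 1 → χ ^ 2 = 1 →
    c * (W : ℝ) ^ (-ε) ≤ ‖χ.LFunction 1‖ := by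
  obtain ⟨c0, hc0, h⟩ := siegel ε hε
  refine ⟨c0 * (8 : ℝ) ^ (-ε), by positivity, fun W hW q hq0 hqW χ hχ hχ2 => ?_⟩
  have hq1 : 1 ≤ q := Nat.one_le_iff_ne_zero.2 (NeZero.ne q)
  have hdq : Nat.gcd q (8 * W) ∣ q := Nat.gcd_dvd_left _ _
  have hd0 : NeZero (Nat.gcd q (8 * W)) := ⟨(Nat.gcd_pos_of_pos_left _ hq1).ne'⟩
  have hft : χ.FactorsThrough (Nat.gcd q (8 * W)) := by
    rw [DirichletCharacter.factorsThrough_iff_ker_unitsMap hdq]
    intro u hu
    rw [MonoidHom.mem_ker] at hu ⊢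
    have h1 : ((((u : ZMod q)).val : ℤ)) ≡ 1 [ZMOD (Nat.gcd q (8 * W) : ℕ)] := by
      rw [← ZMod.intCast_eq_intCast_iff]
      have h2 := congrArg Units.val hu
      rw [ZMod.unitsMap_val] at h2
      push_cast
      rw [ZMod.cast_eq_val] at h2
      simpa using h2
    obtain ⟨x, hx⟩ := squares W q hq1 hqW _ h1
    rw [← ZMod.intCast_eq_intCast_iff] at hx
    push_cast at hx
    rw [ZMod.natCast_zmod_val] at hx
    have hxu : IsUnit ((x : ℤ) : ZMod q) := by
      have : IsUnit (((x : ℤ) : ZMod q) ^ 2) := by rw [hx]; exact u.isUnit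
      exact (isUnit_pow_iff two_ne_zero).1 this
    rw [Units.ext_iff, MulChar.coe_toUnitHom, Units.val_one, ← hx, map_pow, ← MulChar.pow_apply' _ two_ne_zero, hχ2,
      MulChar.one_apply hxu]
  obtain ⟨hdv, χ', hχ'⟩ := hft
  have hχ'1 : χ' ≠ 1 := by
    rintro rfl
    exact hχ (by rw [hχ']; exact map_one _)
  have hL : χ.LFunction 1 = χ'.LFunction 1 := by
    rw [hχ', DirichletCharacter.LFunction_changeLevel hdv χ' (Or.inl hχ'1)]
    rw [Finset.prod_eq_one, mul_one]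
    intro p hp
    have hpp := Nat.prime_of_mem_primeFactors hp
    have hpq := Nat.dvd_of_mem_primeFactors hp
    have hpd : p ∣ Nat.gcd q (8 * W) := Nat.dvd_gcd hpq (Dvd.dvd.mul_left (hqW p hpp hpq) 8)
    have h0 : χ' (p : ZMod (Nat.gcd q (8 * W))) = 0 := by
      apply MulChar.map_nonunit
      rw [ZMod.isUnit_iff_coprime]
      intro hcop
      have := Nat.eq_one_of_dvd_coprimes hcop dvd_rfl hpd
      exact hpp.one_lt.ne' this
    rw [h0]
    simp
  have hχ'2 : χ' ^ 2 = 1 := by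
    have h1 : DirichletCharacter.changeLevel hdv (χ' ^ 2) = DirichletCharacter.changeLevel hdv 1 := by
      rw [map_pow, ← hχ', hχ2, map_one]
    exact DirichletCharacter.changeLevel_injective hdv h1
  rw [hL]
  refine le_trans ?_ (h _ χ' hχ'1 hχ'2)
  have hd1 : (1 : ℝ) ≤ (Nat.gcd q (8 * W) : ℕ) := by
    exact_mod_cast Nat.one_le_iff_ne_zero.2 (NeZero.ne (Nat.gcd q (8 * W)))
  have hd2 : ((Nat.gcd q (8 * W) : ℕ) : ℝ) ≤ 8 * W := by
    have := Nat.le_of_dvd (by omega) (Nat.gcd_dvd_right q (8 * W))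
    exact_mod_cast this
  have h3 : (8 * (W : ℝ)) ^ (-ε) ≤ ((Nat.gcd q (8 * W) : ℕ) : ℝ) ^ (-ε) :=
    Real.rpow_le_rpow_of_nonpos (by linarith) hd2 (by linarith)
  have h4 : (8 * (W : ℝ)) ^ (-ε) = (8 : ℝ) ^ (-ε) * (W : ℝ) ^ (-ε) :=
    Real.mul_rpow (by norm_num) (Nat.cast_nonneg W)
  rw [mul_assoc, ← h4]
  exact mul_le_mul_of_nonneg_left h3 hc0.le

theorem L_rad (ε : ℝ) (hε : 0 < ε) : ∃ c : ℝ, 0 < c ∧ c ≤ 1 ∧ ∀ W : ℕ, 1 ≤ W →
    ∀ (q : ℕ) (χ : DirichletCharacter ℂ q) (s : ℂ), 1 ≤ q → (∀ p : ℕ, p.Prime → p ∣ q → p ∣ W) →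
    1 < s.re → s.re ≤ 2 → χ ≠ 1 → c * (W : ℝ) ^ (-ε) / ell q s.im ^ 13 ≤ ‖LSeries (ej χ 0) s‖ := by
  obtain ⟨c1', hc1', h1'⟩ := L_lower_far
  obtain ⟨C2', hC2', h2'⟩ := L_near_one
  obtain ⟨c3', hc3', h3'⟩ := real_rad ε hε
  -- normalised constants
  set c1 : ℝ := min c1' 1 with hc1
  set c3 : ℝ := min c3' 1 with hc3
  set C2 : ℝ := max C2' 1 with hC2
  have c1pos : 0 < c1 := lt_min hc1' one_pos
  have c3pos : 0 < c3 := lt_min hc3' one_pos
  have c1le : c1 ≤ 1 := min_le_right _ _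
  have c3le : c3 ≤ 1 := min_le_right _ _
  have C2ge : 1 ≤ C2 := le_max_right _ _
  have C2pos : 0 < C2 := by linarith
  refine ⟨c1 * c3 / (8 * C2), by positivity, ?_, ?_⟩
  · rw [div_le_one (by positivity)]
    have e1 : c1 * c3 ≤ 1 * 1 := mul_le_mul c1le c3le c3pos.le zero_le_one
    linarith
  intro W hW q χ s hq hqW hs1 hs2 hχ
  obtain ⟨wε, hwε⟩ : ∃ wε : ℝ, wε = (W : ℝ) ^ (-ε) := ⟨_, rfl⟩
  rw [← hwε]
  have hW1 : (1 : ℝ) ≤ W := by exact_mod_cast hW
  have hwpos : 0 < wε := by rw [hwε]; positivity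
  have hw1 : wε ≤ 1 := by rw [hwε]; exact Real.rpow_le_one_of_one_le_of_nonpos hW1 (by linarith)
  have hqR : (1 : ℝ) ≤ q := by exact_mod_cast hq
  have hq0 : (0 : ℝ) < q := by linarith
  set l : ℝ := ell q s.im with hl
  set l0 : ℝ := ell q 0 with hl0
  have hl1 : 1 ≤ l := LowerAll_ell_one q _ hq
  have hl01 : 1 ≤ l0 := LowerAll_ell_one q _ hq
  have hl0l : l0 ≤ l := LowerAll_ell_mono q _ hq
  have hlpos : 0 < l := by linarith
  have hl0pos : 0 < l0 := by linarith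
  -- the bound by `l ^ 9`
  have hpow : ∀ a b : ℕ, a ≤ b → (l ^ b)⁻¹ ≤ (l ^ a)⁻¹ := by
    intro a b hab
    have := pow_le_pow_right₀ hl1 hab
    gcongr
  by_cases hχ2 : χ ^ 2 = 1
  · -- real character
    have : NeZero q := ⟨by omega⟩
    obtain ⟨lam, hlam⟩ : ∃ lam : ℝ, lam = c3 * wε := ⟨_, rfl⟩
    have hlampos : 0 < lam := by rw [hlam]; positivity
    have hlam1 : lam ≤ 1 := by
      rw [hlam]
      exact mul_le_one₀ c3le hwpos.le hw1
    have hsieg : lam ≤ ‖χ.LFunction 1‖ := by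
      refine le_trans ?_ (h3' W hW q hqW χ hχ hχ2)
      have : c3 ≤ c3' := min_le_left _ _
      rw [hlam, ← hwε]
      exact mul_le_mul_of_nonneg_right this hwpos.le
    set η : ℝ := lam / (4 * C2 * l0 ^ 2) with hη
    have hηpos : 0 < η := by positivity
    have hl02 : 1 ≤ l0 ^ 2 := one_le_pow₀ hl01
    have hη1 : η ≤ 1 := by
      rw [hη, div_le_one (by positivity)]
      nlinarith
    by_cases ht : η ≤ |s.im|
    · refine le_trans ?_ (h1' q χ s η hq hs1 hs2 hηpos hη1 (Or.inl hχ) (Or.inr ht))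
      rw [← hl]
      have hinv : (l ^ 2)⁻¹ ≤ (l0 ^ 2)⁻¹ := by
        have := pow_le_pow_left₀ hl0pos.le hl0l 2
        gcongr
      calc c1 * c3 / (8 * C2) * wε / l ^ 13 = c1 * (lam / (8 * C2)) * (l ^ 13)⁻¹ := by
            rw [hlam]
            field_simp
        _ ≤ c1 * (lam / (4 * C2)) * (l ^ 11)⁻¹ := by
            have e1 : lam / (8 * C2) ≤ lam / (4 * C2) := by
              gcongr
              norm_num
            have e2 := hpow 11 13 (by norm_num)
            gcongr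
        _ = c1 * (lam / (4 * C2)) * ((l ^ 2)⁻¹ * (l ^ 9)⁻¹) := by
            rw [← mul_inv, ← pow_add]
        _ ≤ c1' * (lam / (4 * C2)) * ((l0 ^ 2)⁻¹ * (l ^ 9)⁻¹) := by
            have : c1 ≤ c1' := min_le_left _ _
            gcongr
        _ = c1' * η / l ^ 9 := by
            rw [hη]
            field_simp
    · rw [not_le] at ht
      have hsmall : c1 * c3 / (8 * C2) * wε / l ^ 13 ≤ η / 2 := by
        have hinv : (l ^ 2)⁻¹ ≤ (l0 ^ 2)⁻¹ := by
          have := pow_le_pow_left₀ hl0pos.le hl0l 2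
          gcongr
        calc c1 * c3 / (8 * C2) * wε / l ^ 13 = c1 * (lam / (8 * C2)) * (l ^ 13)⁻¹ := by
              rw [hlam]
              field_simp
          _ ≤ 1 * (lam / (8 * C2)) * (l ^ 2)⁻¹ := by
              have e2 := hpow 2 13 (by norm_num)
              gcongr
          _ ≤ 1 * (lam / (8 * C2)) * (l0 ^ 2)⁻¹ := by gcongr
          _ = η / 2 := by
              rw [hη]
              field_simp
              ring
      by_cases hσ : η ≤ s.re - 1
      · have h4 := L_triv_lower q χ s hs1 hs2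
        linarith
      · rw [not_le] at hσ
        have h5 := h2' q χ s hχ hs1 hs2 (by linarith)
        have hs : ‖s - 1‖ ≤ 2 * η := by
          calc ‖s - 1‖ ≤ |(s - 1).re| + |(s - 1).im| := Complex.norm_le_abs_re_add_abs_im _
            _ = (s.re - 1) + |s.im| := by
                rw [Complex.sub_re, Complex.sub_im, Complex.one_re, Complex.one_im, sub_zero,
                  abs_of_pos (by linarith)]
            _ ≤ 2 * η := by linarith
        have h6 : ‖LSeries (ej χ 0) s - χ.LFunction 1‖ ≤ lam / 2 := by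
          calc ‖LSeries (ej χ 0) s - χ.LFunction 1‖ ≤ C2' * ‖s - 1‖ * ell q 0 ^ 2 := h5
            _ ≤ C2 * (2 * η) * l0 ^ 2 := by
                have : C2' ≤ C2 := le_max_left _ _
                gcongr
            _ = lam / 2 := by
                rw [hη]
                field_simp
                ring
        have h7 : ‖χ.LFunction 1‖ ≤ ‖LSeries (ej χ 0) s‖ + ‖LSeries (ej χ 0) s - χ.LFunction 1‖ := by
          have := norm_sub_le (LSeries (ej χ 0) s) (LSeries (ej χ 0) s - χ.LFunction 1)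
          rw [sub_sub_cancel] at this
          exact this
        have h8 : η / 2 ≤ lam / 2 := by
          have : η ≤ lam := by
            rw [hη]
            apply div_le_self hlampos.le
            nlinarith
          linarith
        linarith
  · refine le_trans ?_ (h1' q χ s 1 hq hs1 hs2 one_pos le_rfl (Or.inl hχ) (Or.inl hχ2))
    rw [← hl]
    calc c1 * c3 / (8 * C2) * wε / l ^ 13 = c1 * (c3 / (8 * C2) * wε) * (l ^ 13)⁻¹ := by
          field_simp
      _ ≤ c1 * 1 * (l ^ 9)⁻¹ := by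
          have e0 : c3 / (8 * C2) ≤ 1 := by
            rw [div_le_iff₀ (by positivity)]
            nlinarith
          have e1 : c3 / (8 * C2) * wε ≤ 1 := mul_le_one₀ e0 hwpos.le hw1
          have e2 := hpow 9 13 (by norm_num)
          gcongr
      _ ≤ c1' * 1 * (l ^ 9)⁻¹ := by
          have : c1 ≤ c1' := min_le_left _ _
          gcongr
      _ = c1' * 1 / l ^ 9 := by rw [div_eq_mul_inv]

end Pool.CL
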