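import Pool.Agent.Lib.MP_c77da8_nt.CL.RomL

/-!
# CL-PExp: exponential moment of the bad primes of a pair of random multipliers

PROOF (compare `CG/PairE.lean`): `romanoff_loc` with `A ω = Nat.dist`-like difference `(A ω - A' ω) + (A' ω - A ω)` (truncated subtractions;
it is `0` iff `A ω = A' ω`, and for `A ω ≠ A' ω`, `p` divides it iff `A ω ≡ A' ω [MOD p]`), which is at most `exp (H^σ)`.
-/

set_option autoImplicit false

namespace Pool.CL

open Finset Pool.CG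

theorem pair_exp_loc (σ : ℕ) (c C η : ℝ) (hc : 0 ≤ c) (hC : 0 ≤ C) (hη : 0 < η) :
    ∃ w0 H0 : ℕ, ∀ w ≥ w0, ∀ H ≥ H0, ∀ (Ω : Type) [Fintype Ω] [Nonempty Ω] (A A' : Ω → ℕ) (P : ℝ),
      (∀ ω, (A ω : ℝ) ≤ Real.exp ((H : ℝ) ^ σ)) → (∀ ω, (A' ω : ℝ) ≤ Real.exp ((H : ℝ) ^ σ)) →
      PairL w H C P A A' → ∀ R : ℕ,
      av (fun ω => if A ω = A' ω then 0 else
        Real.exp (c * ∑ p ∈ (Pr w R).filter (fun p => A ω ≡ A' ω [MOD p]), 1 / (p : ℝ))) ≤ 1 + η := by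
  obtain ⟨w0, H0, h0⟩ := romanoff_loc σ c C η hc hC hη
  refine ⟨w0, H0, fun w hw H hH Ω _ _ A A' P hA hA' hP R => ?_⟩
  set D : Ω → ℕ := fun ω => (A ω - A' ω) + (A' ω - A ω) with hD
  have hD0 : ∀ ω, D ω = 0 ↔ A ω = A' ω := by
    intro ω
    rw [hD]
    simp only
    omega
  have hDd : ∀ ω (p : ℕ), p ∣ D ω ↔ A ω ≡ A' ω [MOD p] := by
    intro ω p
    rw [hD]
    simp only
    rcases le_total (A ω) (A' ω) with h | h
    · rw [Nat.sub_eq_zero_of_le h, zero_add]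
      exact (Nat.modEq_iff_dvd' h).symm
    · rw [Nat.sub_eq_zero_of_le h, add_zero]
      exact (Nat.modEq_iff_dvd' h).symm.trans ⟨fun h => h.symm, fun h => h.symm⟩
  have hDle : ∀ ω, (D ω : ℝ) ≤ Real.exp ((H : ℝ) ^ σ) := by
    intro ω
    have h1 : D ω ≤ A ω ∨ D ω ≤ A' ω := by
      rw [hD]
      simp only
      omega
    rcases h1 with h | h
    · exact le_trans (by exact_mod_cast h) (hA ω)
    · exact le_trans (by exact_mod_cast h) (hA' ω)
  have hpr : ∀ p : ℕ, p.Prime → w < p →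
      ((univ.filter fun ω => D ω ≠ 0 ∧ p ∣ D ω).card : ℝ) / Fintype.card Ω ≤
        C * (1 / (orderOf (2 : ZMod p) : ℝ) + 1 / (H : ℝ)) := by
    intro p hp hwp
    refine le_trans (le_of_eq ?_) (hP.2 p hp hwp)
    congr 2
    congr 1
    ext ω
    simp only [mem_filter, mem_univ, true_and, ne_eq, hD0, hDd]
  have key := h0 w hw H hH Ω D hDle hpr R
  refine le_trans (le_of_eq (av_congr fun ω => ?_)) key
  by_cases h : A ω = A' ω
  · rw [if_pos h, if_pos ((hD0 ω).2 h)]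
  · rw [if_neg h, if_neg (fun h' => h ((hD0 ω).1 h'))]
    congr 2
    refine sum_congr ?_ fun _ _ => rfl
    ext p
    simp only [mem_filter, hDd]

end Pool.CL
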