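import Pool.Agent.Lib.MP_c77da8_nt.CL.Defs

/-!
# CL-ProdA: the coefficients of the common shift

`BT k T = (T (k+2))!`.  `ec B b j i = B / (b (i - j))` for `i ≠ j` (an exact division for `B = BT k T`, `1 ≤ b ≤ T`, since
`b |i - j| ≤ T (k+2)` divides the factorial), and `0` for `i = j`.
`psi_shift`: with `σ = Equiv.swap 0 j` (so `σ i ≠ 0 ↔ i ≠ j`): `b psi_j(v + ec • t∘σ) = b psi_j(v) + ∑_{i ≠ j} b (i-j) ec_i t_{σ i}
= b psi_j(v) + B ∑_{i ≠ j} t_{σ i} = b psi_j(v) + ∑_l cube k B 0 l • t_l` (`Equiv.sum_comp σ`).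
-/

set_option autoImplicit false

namespace Pool.CL

open Finset Pool.CG

/-- the multiplier of the common shift -/
def BT (k T : ℕ) : ℕ := (T * (k + 2)).factorial

/-- the coefficient of the shift of the coordinate `i` -/
def ec {k : ℕ} (B b : ℕ) (j i : Fin (k + 2)) : ℤ :=
  if i = j then 0 else (B : ℤ) / ((b : ℤ) * (((i : ℕ) : ℤ) - ((j : ℕ) : ℤ)))

theorem ec_le {k : ℕ} (B b : ℕ) (hb : 1 ≤ b) (j i : Fin (k + 2)) : |ec B b j i| ≤ (B : ℤ) := by
  unfold ec
  split_ifs with h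
  · simp
  · have h1 := Int.abs_ediv_le_abs (B : ℤ) ((b : ℤ) * (((i : ℕ) : ℤ) - ((j : ℕ) : ℤ)))
    rwa [abs_of_nonneg (Int.natCast_nonneg B)] at h1

theorem ec_mul {k T b : ℕ} (hb : 1 ≤ b) (hbT : b ≤ T) (j i : Fin (k + 2)) (hij : i ≠ j) :
    (b : ℤ) * (((i : ℕ) : ℤ) - ((j : ℕ) : ℤ)) * ec (BT k T) b j i = (BT k T : ℤ) := by
  unfold ec
  rw [if_neg hij]
  apply Int.mul_ediv_cancel'
  rw [← Int.natAbs_dvd_natAbs, Int.natAbs_natCast]
  unfold BT
  have hne : ((i : ℕ) : ℤ) - ((j : ℕ) : ℤ) ≠ 0 := by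
    intro h
    apply hij
    apply Fin.ext
    omega
  apply Nat.dvd_factorial
  · rw [Int.natAbs_mul]
    apply Nat.mul_pos
    · rw [Int.natAbs_natCast]; omega
    · exact Int.natAbs_pos.2 hne
  · rw [Int.natAbs_mul, Int.natAbs_natCast]
    apply Nat.mul_le_mul hbT
    have h1 := i.2
    have h2 := j.2
    omega

theorem psi_shift {G : Type} [AddCommGroup G] {k T b : ℕ} (hb : 1 ≤ b) (hbT : b ≤ T) (j : Fin (k + 2))
    (v t : Fin (k + 2) → G) :
    b • psi j (fun i => v i + ec (BT k T) b j i • t (Equiv.swap 0 j i)) =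
      b • psi j v + ∑ l, cube k (BT k T) 0 l • t l := by
  have h1 : ∑ l, cube k (BT k T) 0 l • t l =
      ∑ i, cube k (BT k T) 0 (Equiv.swap 0 j i) • t (Equiv.swap 0 j i) :=
    (Equiv.sum_comp (Equiv.swap 0 j) (fun l => cube k (BT k T) 0 l • t l)).symm
  rw [h1]
  unfold psi
  rw [smul_sum, smul_sum, ← sum_add_distrib]
  apply sum_congr rfl
  intro i _
  rw [smul_add, smul_add]
  congr 1
  rw [smul_smul, ← natCast_zsmul, smul_smul, ← mul_assoc]
  congr 1
  by_cases hij : i = j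
  · subst hij
    rw [Equiv.swap_apply_right]
    simp [cube]
  · rw [ec_mul hb hbT j i hij]
    unfold cube
    rw [if_neg]
    intro h
    apply hij
    have h2 := Equiv.swap_apply_right (0 : Fin (k + 2)) j
    exact (Equiv.swap 0 j).injective (h.trans h2.symm)

end Pool.CL
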