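import Pool.Agent.Lib.MP_c77da8_nt.CL.Defs

/-!
# CL-Shift: the average over `D^K` is almost invariant under small translations

PROOF.  One coordinate: for `h : G → ℝ`, `|h| ≤ 1`, `s = e • t`, `t ∈ D'`, `|e| ≤ B`:
`|∑_{x ∈ D} h x - ∑_{x ∈ D} h (x + s)| ≤ 2 κ |D|`: `∑_{x ∈ D} h (x + s) = ∑_{x ∈ D, x + s ∈ D} + ∑_{x ∈ D, x + s ∉ D}`, the first is the sum
of `h` over `{x' ∈ D : x' - s ∈ D}` (translation), and `#{x' ∈ D : x' - s ∉ D} = |D| - #{x ∈ D : x + s ∈ D} = #{x ∈ D : x + s ∉ D} ≤ κ |D|`.
All coordinates: induction over a finset `T` of shifted coordinates: statement for `fun i => x i + (if i ∈ T then e i • t i else 0)`;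
in the step `insert j T` use `av_update j` (file `CG/Basic.lean`) to isolate the coordinate `j` of `x : K → Pt D`.
Total `≤ 2 κ card K`.
-/

set_option autoImplicit false

namespace Pool.CL

open Finset Pool.CG

/-- one coordinate -/
private theorem one_coord {G : Type} [AddCommGroup G] [DecidableEq G] {D : Finset G} {κ : ℝ} (s : G)
    (hs : ((D.filter fun x => x + s ∉ D).card : ℝ) ≤ κ * D.card) (hD : D.Nonempty) (h : G → ℝ)
    (hh : ∀ x, |h x| ≤ 1) :
    |av (fun x : Pt D => h (x : G)) - av (fun x : Pt D => h ((x : G) + s))| ≤ 2 * κ := by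
  classical
  have hDpos : (0 : ℝ) < (D.card : ℝ) := by exact_mod_cast hD.card_pos
  have hcard : (Fintype.card (Pt D) : ℝ) = (D.card : ℝ) := by
    rw [Fintype.card_coe]
  have e1 : (∑ x : Pt D, h (x : G)) = ∑ x ∈ D, h x := Finset.sum_coe_sort D h
  have e2 : (∑ x : Pt D, h ((x : G) + s)) = ∑ x ∈ D, h (x + s) := Finset.sum_coe_sort D fun x => h (x + s)
  set A : Finset G := D.filter fun x => x + s ∈ D with hA
  set Bd : Finset G := D.filter fun x => x + s ∉ D with hBd
  set A' : Finset G := A.image (fun x => x + s) with hA'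
  have hinj : Function.Injective (fun x : G => x + s) := add_left_injective s
  have hA'D : A' ⊆ D := by
    intro y hy
    rw [hA', Finset.mem_image] at hy
    obtain ⟨x, hx, rfl⟩ := hy
    exact (Finset.mem_filter.mp hx).2
  have hcA : A.card + Bd.card = D.card := Finset.card_filter_add_card_filter_not (fun x => x + s ∈ D)
  have hcA' : A'.card = A.card := Finset.card_image_of_injective _ hinj
  have hcd : (D \ A').card = Bd.card := by
    have := Finset.card_sdiff_add_card_eq_card hA'D
    omega
  have s1 : (∑ x ∈ D, h (x + s)) = (∑ x ∈ A', h x) + ∑ x ∈ Bd, h (x + s) := by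
    rw [hA', Finset.sum_image (fun x _ y _ hxy => hinj hxy)]
    exact (Finset.sum_filter_add_sum_filter_not D (fun x => x + s ∈ D) fun x => h (x + s)).symm
  have s2 : (∑ x ∈ D, h x) = (∑ x ∈ D \ A', h x) + ∑ x ∈ A', h x := (Finset.sum_sdiff hA'D).symm
  have b1 : |∑ x ∈ D \ A', h x| ≤ (Bd.card : ℝ) := by
    refine (Finset.abs_sum_le_sum_abs _ _).trans ?_
    refine (Finset.sum_le_sum fun x _ => hh x).trans ?_
    rw [Finset.sum_const, nsmul_eq_mul, mul_one, hcd]
  have b2 : |∑ x ∈ Bd, h (x + s)| ≤ (Bd.card : ℝ) := by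
    refine (Finset.abs_sum_le_sum_abs _ _).trans ?_
    refine (Finset.sum_le_sum fun x _ => hh (x + s)).trans ?_
    rw [Finset.sum_const, nsmul_eq_mul, mul_one]
  unfold av
  rw [hcard, ← sub_div, abs_div, Nat.abs_cast, div_le_iff₀ hDpos]
  rw [e1, e2, s1, s2]
  have e3 : (∑ x ∈ D \ A', h x) + (∑ x ∈ A', h x) - ((∑ x ∈ A', h x) + ∑ x ∈ Bd, h (x + s)) =
      (∑ x ∈ D \ A', h x) - ∑ x ∈ Bd, h (x + s) := by ring
  rw [e3]
  have b3 := abs_sub (∑ x ∈ D \ A', h x) (∑ x ∈ Bd, h (x + s))
  linarith

/-- the translations of the coordinates in `T` -/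
private theorem shift_T {G K : Type} [AddCommGroup G] [DecidableEq G] [Fintype K] [DecidableEq K] {D : Finset G}
    {κ : ℝ} (c : K → G) (hc : ∀ i, ((D.filter fun x => x + c i ∉ D).card : ℝ) ≤ κ * D.card) (hD : D.Nonempty)
    (Ψ : (K → G) → ℝ) (hΨ : ∀ x, |Ψ x| ≤ 1) (T : Finset K) :
    |av (fun x : K → Pt D => Ψ (cv x)) -
        av (fun x : K → Pt D => Ψ (fun i => (x i : G) + if i ∈ T then c i else 0))| ≤ 2 * T.card * κ := by
  classical
  induction T using Finset.induction_on with
  | empty =>
    have : (fun x : K → Pt D => Ψ (fun i => (x i : G) + if i ∈ (∅ : Finset K) then c i else 0)) =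
        fun x : K → Pt D => Ψ (cv x) := by
      funext x
      congr 1
      funext i
      simp [cv]
    rw [this]
    simp
  | insert j T hj ih =>
    have key : |av (fun x : K → Pt D => Ψ (fun i => (x i : G) + if i ∈ T then c i else 0)) -
        av (fun x : K → Pt D => Ψ (fun i => (x i : G) + if i ∈ insert j T then c i else 0))| ≤ 2 * κ := by
      have : Nonempty (Pt D) := ⟨⟨hD.choose, hD.choose_spec⟩⟩
      rw [av_update j (fun x : K → Pt D => Ψ (fun i => (x i : G) + if i ∈ T then c i else 0)),
        av_update j (fun x : K → Pt D => Ψ (fun i => (x i : G) + if i ∈ insert j T then c i else 0)), ← av_sub]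
      refine (abs_av_le _).trans (av_le_of_le fun x => ?_)
      have h1 := one_coord (c j) (hc j) hD
        (fun v => Ψ (fun i => if i = j then v else (x i : G) + if i ∈ T then c i else 0)) (fun v => hΨ _)
      have f1 : (fun u : Pt D => Ψ (fun i => ((Function.update x j u i : Pt D) : G) + if i ∈ T then c i else 0)) =
          fun u : Pt D => Ψ (fun i => if i = j then (u : G) else (x i : G) + if i ∈ T then c i else 0) := by
        funext u
        congr 1
        funext i
        by_cases hi : i = j
        · subst hi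
          simp [hj]
        · simp [hi]
      have f2 : (fun u : Pt D =>
            Ψ (fun i => ((Function.update x j u i : Pt D) : G) + if i ∈ insert j T then c i else 0)) =
          fun u : Pt D => Ψ (fun i => if i = j then (u : G) + c j else (x i : G) + if i ∈ T then c i else 0) := by
        funext u
        congr 1
        funext i
        by_cases hi : i = j
        · subst hi
          simp
        · simp [hi]
      rw [f1, f2]
      exact h1
    have hcard : ((insert j T).card : ℝ) = T.card + 1 := by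
      rw [Finset.card_insert_of_notMem hj]
      push_cast
      ring
    rw [hcard]
    have tri := abs_sub_le (av (fun x : K → Pt D => Ψ (cv x)))
      (av (fun x : K → Pt D => Ψ (fun i => (x i : G) + if i ∈ T then c i else 0)))
      (av (fun x : K → Pt D => Ψ (fun i => (x i : G) + if i ∈ insert j T then c i else 0)))
    linarith

theorem shift_av {G K : Type} [AddCommGroup G] [DecidableEq G] [Fintype K] [DecidableEq K] {D D' : Finset G} {B : ℕ}
    {κ : ℝ} (h : Inv D D' B κ) (hD : D.Nonempty) (Ψ : (K → G) → ℝ) (hΨ : ∀ x, |Ψ x| ≤ 1) (e : K → ℤ)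
    (he : ∀ i, |e i| ≤ (B : ℤ)) (t : K → G) (ht : ∀ i, t i ∈ D') :
    |av (fun x : K → Pt D => Ψ (cv x)) - av (fun x : K → Pt D => Ψ (fun i => (x i : G) + e i • t i))| ≤
      2 * Fintype.card K * κ := by
  have h1 := shift_T (fun i => e i • t i) (fun i => h (t i) (ht i) (e i) (he i)) hD Ψ hΨ univ
  simpa using h1

end Pool.CL
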