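import Pool.Agent.Lib.MP_c77da8_nt.CL.ProdA
import Pool.Agent.Lib.MP_c77da8_nt.CL.Ext
import Pool.Agent.Lib.MP_c77da8_nt.CL.Shift
import Pool.Agent.Lib.MP_c77da8_nt.CL.TestL

/-!
# CL-ProdB: one test function with the shift

`PsiB d0 b j u y v = ∏_{i ≠ j} extU d0 (u y i) i v` for `v : Fin (k+2) → G`.
`phi_shift`: apply `shift_av` with `Ψ v = PsiB d0 b j u (z - b • psi j v) v` (bounded by 1 by `extU_bd`), `e = ec B b j`, and the vector
`t ∘ σ`, `σ = Equiv.swap 0 j`; for `v = cv x`: `extU_cv` gives `Ψ (cv x) = ∏ u (z - b psi_j) i x`, i.e. the average is `phiL b j u z`.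
`psiB_regroup`: for a family `l : Fin n`: `∏_l PsiB (y_l) (v_l)`, `v_l i = w_l i + e_l i • t (σ_l i)`: as functions of `t` the
product is `∏_{s ≠ 0} U_s(t)` with `U_s = ∏_l extU d0 (u_l (y_l) (σ_l s)) (σ_l s) v_l`, (`σ_l` is an involution; reindex
`i = σ_l s`, `i ≠ j_l ↔ s ≠ 0`), and `U_s` does not depend on `t s` (`extU_ind`: changing `t s` changes the coordinate `σ_l s` of `v_l`).
-/

set_option autoImplicit false

namespace Pool.CL

open Finset Pool.CG

/-- the product of the extended functions -/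
noncomputable def PsiB {G : Type} [AddCommGroup G] {k : ℕ} {D : Finset G} (d0 : Pt D) (j : Fin (k + 2))
    (u : G → Fin (k + 2) → (Fin (k + 2) → Pt D) → ℝ) (y : G) (v : Fin (k + 2) → G) : ℝ :=
  ∏ i ∈ univ.erase j, extU d0 (u y i) i v

theorem psiB_bd {G : Type} [AddCommGroup G] {k : ℕ} {D : Finset G} (d0 : Pt D) (j : Fin (k + 2))
    (u : G → Fin (k + 2) → (Fin (k + 2) → Pt D) → ℝ) (hu : GoodL u) (y : G) (v : Fin (k + 2) → G) :
    |PsiB d0 j u y v| ≤ 1 := by
  unfold PsiB
  rw [Finset.abs_prod]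
  refine Finset.prod_le_one (fun i _ => abs_nonneg _) fun i _ => ?_
  have h := extU_bd d0 (u y i) i (fun x => hu.1 y i x) v
  rw [abs_of_nonneg h.1]
  exact h.2

theorem phi_shift {G : Type} [AddCommGroup G] [Fintype G] [DecidableEq G] {k B b : ℕ} (hb : 1 ≤ b) {κ : ℝ}
    {D D' : Finset G} (hInv : Inv D D' B κ) (d0 : Pt D) (j : Fin (k + 2))
    (u : G → Fin (k + 2) → (Fin (k + 2) → Pt D) → ℝ) (hu : GoodL u) (z : G) (t : Fin (k + 2) → G)
    (ht : ∀ i, t i ∈ D') :
    |phiL b j u z - av (fun x : Fin (k + 2) → Pt D =>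
      PsiB d0 j u (z - b • psi j (fun i => (x i : G) + ec B b j i • t (Equiv.swap 0 j i)))
        (fun i => (x i : G) + ec B b j i • t (Equiv.swap 0 j i)))| ≤ 2 * (k + 2 : ℕ) * κ := by
  have hD : D.Nonempty := ⟨d0.1, d0.2⟩
  have h := shift_av hInv hD (fun v : Fin (k + 2) → G => PsiB d0 j u (z - b • psi j v) v)
    (fun v => psiB_bd d0 j u hu _ v) (fun i => ec B b j i) (fun i => ec_le B b hb j i)
    (fun i => t (Equiv.swap 0 j i)) (fun i => ht _)
  have e1 : phiL b j u z = av (fun x : Fin (k + 2) → Pt D =>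
      PsiB d0 j u (z - b • psi j (cv x)) (cv x)) := by
    unfold phiL
    refine av_congr fun x => ?_
    unfold PsiB
    refine Finset.prod_congr rfl fun i _ => ?_
    rw [extU_cv d0 _ i (hu.2 _ i) x]
  rw [e1]
  rw [Fintype.card_fin] at h
  exact h

theorem psiB_regroup {G : Type} [AddCommGroup G] [Fintype G] [DecidableEq G] {k n : ℕ}
    {D D' : Finset G} (d0 : Pt D) (j : Fin n → Fin (k + 2))
    (u : Fin n → G → Fin (k + 2) → (Fin (k + 2) → Pt D) → ℝ) (hu : ∀ l, GoodL (u l)) (y : Fin n → G → G)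
    (w : Fin n → Fin (k + 2) → G) (e : Fin n → Fin (k + 2) → ℤ) :
    ∃ U : G → Fin (k + 2) → (Fin (k + 2) → Pt D') → ℝ, (∀ y0 i t, |U y0 i t| ≤ 1) ∧ (∀ y0 i, Ind i (U y0 i)) ∧
      ∀ (y0 : G) (t : Fin (k + 2) → Pt D'),
        ∏ l, PsiB d0 (j l) (u l) (y l y0) (fun i => w l i + e l i • (t (Equiv.swap 0 (j l) i) : G)) =
          ∏ s ∈ univ.erase 0, U y0 s t := by
  classical
  refine ⟨fun y0 s t => ∏ l, extU d0 (u l (y l y0) (Equiv.swap 0 (j l) s)) (Equiv.swap 0 (j l) s)
    (fun i => w l i + e l i • (t (Equiv.swap 0 (j l) i) : G)), ?_, ?_, ?_⟩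
  · intro y0 s t
    rw [Finset.abs_prod]
    refine Finset.prod_le_one (fun l _ => abs_nonneg _) fun l _ => ?_
    have h := extU_bd d0 (u l (y l y0) (Equiv.swap 0 (j l) s)) (Equiv.swap 0 (j l) s)
      (fun x => (hu l).1 _ _ x) (fun i => w l i + e l i • (t (Equiv.swap 0 (j l) i) : G))
    rw [abs_of_nonneg h.1]
    exact h.2
  · intro y0 s t a
    refine Finset.prod_congr rfl fun l _ => ?_
    have hv : (fun i => w l i + e l i • ((Function.update t s a (Equiv.swap 0 (j l) i) : Pt D') : G)) =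
        Function.update (fun i => w l i + e l i • (t (Equiv.swap 0 (j l) i) : G))
          (Equiv.swap 0 (j l) s) (w l (Equiv.swap 0 (j l) s) + e l (Equiv.swap 0 (j l) s) • (a : G)) := by
      funext i
      by_cases hi : i = Equiv.swap 0 (j l) s
      · subst hi
        rw [Function.update_self, Equiv.swap_apply_self, Function.update_self]
      · have hi' : Equiv.swap 0 (j l) i ≠ s := by
          intro h
          apply hi
          rw [← h, Equiv.swap_apply_self]
        rw [Function.update_of_ne hi, Function.update_of_ne hi']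
    rw [hv]
    exact extU_ind d0 _ _ _ _
  · intro y0 t
    rw [Finset.prod_comm]
    refine Finset.prod_congr rfl fun l _ => ?_
    unfold PsiB
    symm
    refine Finset.prod_equiv (Equiv.swap 0 (j l)) ?_ ?_
    · intro s
      rw [Finset.mem_erase, Finset.mem_erase]
      simp only [Finset.mem_univ, and_true, ne_eq]
      rw [not_iff_not]
      constructor
      · rintro rfl
        exact Equiv.swap_apply_left _ _
      · intro h
        have h2 := congrArg (Equiv.swap 0 (j l)) h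
        rwa [Equiv.swap_apply_self, Equiv.swap_apply_right] at h2
    · intro s _
      rfl

end Pool.CL
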