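import Pool.Agent.Lib.MP_c77da8_nt.CL.ProdB
import Pool.Agent.Lib.MP_c77da8_nt.CL.Gvn

/-!
# CL-ProdC: `ν - 1` is almost orthogonal to the products of at most `m` local test functions

PROOF.  `B = BT k T`, `κ = τ / (16 (m + 1) (k + 2))`, `η = min 1 η₁` with `η₁` from `gvn_loc k (τ/2)`.  `av ν ≤ 2` (`lfav_av`).
Fix `z` and `t : Fin (k+2) → Pt D'`.  Let `P_l = av_x PsiB ..` as in `phi_shift`; `0 ≤ phiL ≤ 1`, `|P_l| ≤ 1`, so
`|∏ phiL_l(z) - ∏ P_l(z,t)| ≤ n · 2 (k+2) κ ≤ τ/8`.  Average over `t` (the left product does not depend on `t`; `Pt D'` is not empty):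
`|av_z (ν-1) ∏ phiL_l - av_z (ν-1) av_t ∏ P_l| ≤ av (ν + 1) τ/8 ≤ 3τ/8`.
`∏_l P_l = av_{X : Fin n → Fin (k+2) → Pt D} ∏_l PsiB(..X l..)` (product of averages; induction on `n` or
`Finset.prod_univ_sum`, `Fintype.piFinset_univ`, `Fintype.card_fun/pi`).  Exchange the averages; for fixed `X` substitute
`z = y + ∑_l cube k B 0 l • t_l` (for fixed `t`): by `psi_shift` the base point of the `l`-th factor is
`z - b_l psi_{j_l}(v_l) = y - b_l psi_{j_l}(cv (X l))`.  `psiB_regroup` (`y l y0 = y0 - b_l • psi (j l) (cv (X l))`, `w l = cv (X l)`,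
`e l = ec B (b l) (j l)`) and `gvn_loc` give `≤ τ/2` for every `X`.
-/

set_option autoImplicit false

namespace Pool.CL

open Finset Pool.CG

/-- a product of averages is an average over the product -/
theorem prod_av {n : ℕ} {Ω : Type} [Fintype Ω] (F : Fin n → Ω → ℝ) :
    ∏ l, av (F l) = av (fun X : Fin n → Ω => ∏ l, F l (X l)) := by
  classical
  unfold av
  rw [Finset.prod_div_distrib, Finset.prod_univ_sum, Fintype.piFinset_univ, Finset.prod_const,
    Finset.card_univ, Fintype.card_fin, Fintype.card_fun, Fintype.card_fin, Nat.cast_pow]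

private theorem ProdC_tel {ι : Type} (s : Finset ι) (a b : ι → ℝ) (ε : ℝ) (ha : ∀ i, |a i| ≤ 1)
    (hb : ∀ i, |b i| ≤ 1) (h : ∀ i, |a i - b i| ≤ ε) : |∏ i ∈ s, a i - ∏ i ∈ s, b i| ≤ s.card * ε := by
  classical
  induction s using Finset.induction_on with
  | empty => simp
  | insert i s hi ih =>
    rw [Finset.prod_insert hi, Finset.prod_insert hi, Finset.card_insert_of_notMem hi]
    have e : a i * ∏ x ∈ s, a x - b i * ∏ x ∈ s, b x =
        a i * (∏ x ∈ s, a x - ∏ x ∈ s, b x) + (a i - b i) * ∏ x ∈ s, b x := by ring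
    rw [e]
    have h1 : |a i * (∏ x ∈ s, a x - ∏ x ∈ s, b x)| ≤ s.card * ε := by
      rw [abs_mul]
      calc |a i| * |∏ x ∈ s, a x - ∏ x ∈ s, b x| ≤ 1 * (s.card * ε) :=
            mul_le_mul (ha i) ih (abs_nonneg _) zero_le_one
        _ = s.card * ε := one_mul _
    have h2 : |(a i - b i) * ∏ x ∈ s, b x| ≤ ε := by
      rw [abs_mul]
      have h3 : |∏ x ∈ s, b x| ≤ 1 := by
        rw [Finset.abs_prod]
        exact Finset.prod_le_one (fun i _ => abs_nonneg _) fun i _ => hb i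
      calc |a i - b i| * |∏ x ∈ s, b x| ≤ |a i - b i| * 1 :=
            mul_le_mul_of_nonneg_left h3 (abs_nonneg _)
        _ ≤ ε := by rw [mul_one]; exact h i
    refine (abs_add_le _ _).trans ?_
    push_cast
    linarith

/-- the average `P_l` of the shifted test function -/
private noncomputable def ProdC_v {G : Type} [AddCommGroup G] {k : ℕ} {D D' : Finset G} (B b : ℕ) (j : Fin (k + 2))
    (x : Fin (k + 2) → Pt D) (t : Fin (k + 2) → Pt D') : Fin (k + 2) → G :=
  fun i => (x i : G) + ec B b j i • (t (Equiv.swap 0 j i) : G)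

private theorem ProdC_P {G : Type} [AddCommGroup G] [Fintype G] [DecidableEq G] {k T b : ℕ} (hb : 1 ≤ b) {κ : ℝ}
    {D D' : Finset G} (hInv : Inv D D' (BT k T) κ) (d0 : Pt D) (j : Fin (k + 2))
    (u : G → Fin (k + 2) → (Fin (k + 2) → Pt D) → ℝ) (hu : GoodL u) (z : G) (t : Fin (k + 2) → Pt D') :
    |phiL b j u z - av (fun x : Fin (k + 2) → Pt D =>
      PsiB d0 j u (z - b • psi j (ProdC_v (BT k T) b j x t)) (ProdC_v (BT k T) b j x t))| ≤
        2 * (k + 2 : ℕ) * κ :=
  phi_shift hb hInv d0 j u hu z (fun i => (t i : G)) (fun i => (t i).2)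

theorem prod_loc (k m T : ℕ) (τ : ℝ) (hτ : 0 < τ) : ∃ (κ η : ℝ), 0 < κ ∧ 0 < η ∧
    ∀ (G : Type) [AddCommGroup G] [Fintype G] [DecidableEq G] (D D' : Finset G) (ν : G → ℝ), D.Nonempty → D'.Nonempty →
      (∀ x, 0 ≤ ν x) → Inv D D' (BT k T) κ → LFav η (affF (D := D') ν (cube k (BT k T)) {0}) →
      ∀ (n : ℕ) (b : Fin n → ℕ) (j : Fin n → Fin (k + 2)) (u : Fin n → G → Fin (k + 2) → (Fin (k + 2) → Pt D) → ℝ),
        n ≤ m → (∀ l, 1 ≤ b l ∧ b l ≤ T) → (∀ l, GoodL (u l)) →
        |av (fun z : G => (ν z - 1) * ∏ l, phiL (b l) (j l) (u l) z)| ≤ τ := by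
  obtain ⟨η₁, hη₁, H⟩ := gvn_loc k (τ / 2) (half_pos hτ)
  have hden : (0 : ℝ) < 16 * (m + 1) * (k + 2) := by positivity
  refine ⟨τ / (16 * (m + 1) * (k + 2)), min 1 η₁, div_pos hτ hden, lt_min one_pos hη₁, ?_⟩
  intro G _ _ _ D D' ν hD hD' hν hInv hLF n b j u hn hb hu
  set κ : ℝ := τ / (16 * (m + 1) * (k + 2)) with hκ
  have hκ0 : 0 < κ := div_pos hτ hden
  set B : ℕ := BT k T with hB
  obtain ⟨d, hd⟩ := hD
  obtain ⟨d', hd'⟩ := hD'
  have hne : Nonempty (Pt D) := ⟨⟨d, hd⟩⟩
  have hne' : Nonempty (Pt D') := ⟨⟨d', hd'⟩⟩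
  have : Nonempty G := ⟨0⟩
  let d0 : Pt D := ⟨d, hd⟩
  -- the average of `ν`
  have hav : av ν ≤ 2 := by
    have h1 := (lfav_av k B (min 1 η₁) D' ⟨d', hd'⟩ ν hLF).trans (min_le_left _ _)
    nlinarith
  -- the products
  let Q : G → (Fin (k + 2) → Pt D') → (Fin n → Fin (k + 2) → Pt D) → ℝ := fun z t X =>
    ∏ l, PsiB d0 (j l) (u l) (z - b l • psi (j l) (ProdC_v B (b l) (j l) (X l) t)) (ProdC_v B (b l) (j l) (X l) t)
  have hQ : ∀ z t, |∏ l, phiL (b l) (j l) (u l) z - av (fun X => Q z t X)| ≤ n * (2 * (k + 2 : ℕ) * κ) := by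
    intro z t
    have h1 : av (fun X => Q z t X) = ∏ l, av (fun x : Fin (k + 2) → Pt D =>
        PsiB d0 (j l) (u l) (z - b l • psi (j l) (ProdC_v B (b l) (j l) x t)) (ProdC_v B (b l) (j l) x t)) :=
      (prod_av (fun (l : Fin n) (x : Fin (k + 2) → Pt D) =>
        PsiB d0 (j l) (u l) (z - b l • psi (j l) (ProdC_v B (b l) (j l) x t)) (ProdC_v B (b l) (j l) x t))).symm
    rw [h1]
    have h2 := ProdC_tel (univ : Finset (Fin n)) (fun l => phiL (b l) (j l) (u l) z)
      (fun l => av (fun x : Fin (k + 2) → Pt D =>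
        PsiB d0 (j l) (u l) (z - b l • psi (j l) (ProdC_v B (b l) (j l) x t)) (ProdC_v B (b l) (j l) x t)))
      (2 * (k + 2 : ℕ) * κ)
      (fun l => by
        rw [abs_of_nonneg (phiL_nonneg _ _ _ (hu l) z)]
        exact phiL_le_one _ _ _ (hu l) z)
      (fun l => (abs_av_le _).trans (av_le_of_le fun x => psiB_bd d0 (j l) (u l) (hu l) _ _))
      (fun l => ProdC_P (hb l).1 hInv d0 (j l) (u l) (hu l) z t)
    rw [Finset.card_univ, Fintype.card_fin] at h2
    exact h2
  have heps : (n : ℝ) * (2 * (k + 2 : ℕ) * κ) ≤ τ / 8 := by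
    have hn' : (n : ℝ) ≤ m := by exact_mod_cast hn
    have h1 : (n : ℝ) * (2 * (k + 2 : ℕ) * κ) ≤ ((m : ℝ) + 1) * (2 * (k + 2 : ℕ) * κ) := by
      refine mul_le_mul_of_nonneg_right (by linarith) (by positivity)
    refine h1.trans (le_of_eq ?_)
    rw [hκ]
    push_cast
    field_simp
    norm_num
  -- first step
  have step1 : |av (fun z : G => (ν z - 1) * ∏ l, phiL (b l) (j l) (u l) z) -
      av (fun z : G => av (fun t : Fin (k + 2) → Pt D' => (ν z - 1) * av (fun X => Q z t X)))| ≤ 3 * τ / 8 := by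
    have e1 : av (fun z : G => (ν z - 1) * ∏ l, phiL (b l) (j l) (u l) z) =
        av (fun z : G => av (fun _ : Fin (k + 2) → Pt D' => (ν z - 1) * ∏ l, phiL (b l) (j l) (u l) z)) :=
      av_congr fun z => (av_const _).symm
    rw [e1, ← av_sub]
    have e2 : ∀ z : G, |av (fun _ : Fin (k + 2) → Pt D' => (ν z - 1) * ∏ l, phiL (b l) (j l) (u l) z) -
        av (fun t : Fin (k + 2) → Pt D' => (ν z - 1) * av (fun X => Q z t X))| ≤ (ν z + 1) * (τ / 8) := by
      intro z
      rw [← av_sub]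
      refine (abs_av_le _).trans (av_le_of_le fun t => ?_)
      rw [← mul_sub, abs_mul]
      have h2 := hν z
      have h3 : |ν z - 1| ≤ ν z + 1 := by
        rw [abs_le]
        constructor <;> linarith
      exact mul_le_mul h3 ((hQ z t).trans heps) (abs_nonneg _) (by linarith)
    refine (abs_av_le_of e2).trans ?_
    rw [av_mul_const, av_add, av_const]
    nlinarith
  -- second step
  have step2 : |av (fun z : G => av (fun t : Fin (k + 2) → Pt D' => (ν z - 1) * av (fun X => Q z t X)))| ≤ τ / 2 := by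
    have e1 : av (fun z : G => av (fun t : Fin (k + 2) → Pt D' => (ν z - 1) * av (fun X => Q z t X))) =
        av (fun X : Fin n → Fin (k + 2) → Pt D => av (fun z : G => av (fun t : Fin (k + 2) → Pt D' =>
          (ν z - 1) * Q z t X))) := by
      have f1 : ∀ z : G, av (fun t : Fin (k + 2) → Pt D' => (ν z - 1) * av (fun X => Q z t X)) =
          av (fun X : Fin n → Fin (k + 2) → Pt D => av (fun t : Fin (k + 2) → Pt D' => (ν z - 1) * Q z t X)) := by
        intro z
        rw [av_comm]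
        exact av_congr fun t => (av_const_mul _ _).symm
      rw [av_congr f1, av_comm]
    rw [e1]
    refine (abs_av_le _).trans (av_le_of_le fun X => ?_)
    have e2 : av (fun z : G => av (fun t : Fin (k + 2) → Pt D' => (ν z - 1) * Q z t X)) =
        av (fun y : G => av (fun t : Fin (k + 2) → Pt D' =>
          (ν (y + ∑ l, cube k B 0 l • (t l : G)) - 1) *
            ∏ l, PsiB d0 (j l) (u l) (y - b l • psi (j l) (cv (X l)))
              (fun i => cv (X l) i + ec B (b l) (j l) i • (t (Equiv.swap 0 (j l) i) : G)))) := by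
      rw [av_comm, av_comm (fun (y : G) (t : Fin (k + 2) → Pt D') =>
          (ν (y + ∑ l, cube k B 0 l • (t l : G)) - 1) *
            ∏ l, PsiB d0 (j l) (u l) (y - b l • psi (j l) (cv (X l)))
              (fun i => cv (X l) i + ec B (b l) (j l) i • (t (Equiv.swap 0 (j l) i) : G)))]
      refine av_congr fun t => ?_
      rw [← av_equiv (Equiv.addRight (∑ l, cube k B 0 l • (t l : G))) (fun z : G => (ν z - 1) * Q z t X)]
      refine av_congr fun y => ?_
      simp only [Equiv.coe_addRight]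
      congr 1
      refine Finset.prod_congr rfl fun l _ => ?_
      have hs := psi_shift (k := k) (T := T) (hb l).1 (hb l).2 (j l) (cv (X l)) (fun i => (t i : G))
      have hv : ProdC_v B (b l) (j l) (X l) t =
          fun i => cv (X l) i + ec B (b l) (j l) i • (t (Equiv.swap 0 (j l) i) : G) := rfl
      rw [hv, hs]
      congr 1
      abel
    rw [e2]
    obtain ⟨U, hU1, hU2, hU3⟩ := psiB_regroup (D' := D') d0 j u hu (fun l y0 => y0 - b l • psi (j l) (cv (X l)))
      (fun l => cv (X l)) (fun l i => ec B (b l) (j l) i)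
    have h1 := H G D' B ν ⟨d', hd'⟩ hν (fun S hS => (hLF S hS).trans (min_le_right _ _)) U hU1 hU2
    have e3 : av (fun y : G => av (fun t : Fin (k + 2) → Pt D' =>
          (ν (y + ∑ l, cube k B 0 l • (t l : G)) - 1) *
            ∏ l, PsiB d0 (j l) (u l) (y - b l • psi (j l) (cv (X l)))
              (fun i => cv (X l) i + ec B (b l) (j l) i • (t (Equiv.swap 0 (j l) i) : G)))) =
        av (fun y : G => av (fun t : Fin (k + 2) → Pt D' =>
          (ν (y + ∑ l, cube k B 0 l • (t l : G)) - 1) * ∏ i ∈ univ.erase 0, U y i t)) := by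
      refine av_congr fun y => av_congr fun t => ?_
      rw [← hU3 y t]
    rw [e3]
    exact h1
  have h := abs_sub_abs_le_abs_sub (av (fun z : G => (ν z - 1) * ∏ l, phiL (b l) (j l) (u l) z))
    (av (fun z : G => av (fun t : Fin (k + 2) → Pt D' => (ν z - 1) * av (fun X => Q z t X))))
  linarith

end Pool.CL
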