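import Pool.Agent.Lib.MP_c77da8_nt.CL.ProdC
import Pool.Agent.Lib.MP_c77da8_nt.CL.DenseL
import Pool.Agent.Lib.MP_c77da8_nt.CL.CntL
import Pool.Agent.Lib.MP_c77da8_nt.CG.Dm

/-!
# CL-RSL: the relative Szemerédi theorem for narrow progressions

PROOF (compare `Pool.CG.relative_szemeredi`, `CG/RS.lean`).  `dense_loc k (d/2)` gives `T, c₀`; `cnt_loc k (c₀/2)` gives `η₁, ε₁`;
`dm_b (min ε₁ (d/2))` gives `m, ε₂`; `prod_loc k m T ε₂` gives `κ, η₂`.  `η = min η₁ η₂`, `c = c₀/2`, `B = BT k T`.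
Test functions `Φ = {φ | ∃ b j u, 1 ≤ b ∧ b ≤ T ∧ GoodL u ∧ φ = phiL b j u}`: `|φ| ≤ 1` (`phiL_nonneg`, `phiL_le_one`); the products of at most
`m` of them (a list; choose `b j u` for its members) are treated by `prod_loc`.  `dm_b` gives `g`, `0 ≤ g ≤ 1`, with
`|av (f - g) φ| ≤ min ε₁ (d/2)` for `φ ∈ Φ`.  The function `1 = phiL 1 0 (fun _ _ _ => 1)` is in `Φ`, so `av g ≥ d - d/2`.  `dense_loc` gives `b`
and `cnt_loc` for this `b` gives the claim.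
-/

set_option autoImplicit false

namespace Pool.CL

open Finset Pool.CG

theorem rs_local (k : ℕ) (d : ℝ) (hd : 0 < d) : ∃ (T : ℕ) (κ η c : ℝ), 1 ≤ T ∧ 0 < κ ∧ 0 < η ∧ 0 < c ∧
    ∀ (G : Type) [AddCommGroup G] [Fintype G] [DecidableEq G] (D D' : Finset G) (ν f : G → ℝ),
      D.Nonempty → D'.Nonempty → (∀ x, 0 ≤ f x ∧ f x ≤ ν x) → d ≤ av f → Inv D D' (BT k T) κ →
      LFav η (affF (D := D') ν (cube k (BT k T)) {0}) →
      (∀ b : ℕ, 1 ≤ b → b ≤ T → LFav η (affF (D := D) ν (patt k b) univ)) →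
      ∃ b : ℕ, 1 ≤ b ∧ b ≤ T ∧
        c ≤ av (fun y : G => av (fun x : Fin (k + 2) → Pt D => ∏ j, f (y + b • psi j (cv x)))) := by
  obtain ⟨T, c₀, hT, hc₀, hdense⟩ := dense_loc k (d / 2) (by linarith)
  obtain ⟨η₁, ε₁, hη₁, hε₁, hcnt⟩ := cnt_loc k (c₀ / 2) (by linarith)
  obtain ⟨m, ε₂, hε₂, hdm⟩ := dm_b (min ε₁ (d / 2)) (lt_min hε₁ (by linarith))
  obtain ⟨κ, η₂, hκ, hη₂, hprod⟩ := prod_loc k m T ε₂ hε₂
  refine ⟨T, κ, min η₁ η₂, c₀ / 2, hT, hκ, lt_min hη₁ hη₂, by linarith, ?_⟩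
  intro G _ _ _ D D' ν f hD hD' hf hdf hInv hcube hpatt
  have hν : ∀ x, 0 ≤ ν x := fun x => (hf x).1.trans (hf x).2
  have hGn : Nonempty G := ⟨0⟩
  obtain ⟨x₀, hx₀⟩ := id hD
  have hPt : Nonempty (Fin (k + 2) → Pt D) := ⟨fun _ => ⟨x₀, hx₀⟩⟩
  -- the dense model
  obtain ⟨g, hg, hg'⟩ := hdm G ν f
    {φ | ∃ (b : ℕ) (j : Fin (k + 2)) (u : G → Fin (k + 2) → (Fin (k + 2) → Pt D) → ℝ),
      1 ≤ b ∧ b ≤ T ∧ GoodL u ∧ φ = phiL b j u} hf
    (by
      rintro φ ⟨b, j, u, _, _, hu, rfl⟩ z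
      rw [abs_of_nonneg (phiL_nonneg b j u hu z)]
      exact phiL_le_one b j u hu z)
    (by
      intro l hl hlen
      have hx : ∀ i : Fin l.length, ∃ (b : ℕ) (j : Fin (k + 2))
          (u : G → Fin (k + 2) → (Fin (k + 2) → Pt D) → ℝ),
          1 ≤ b ∧ b ≤ T ∧ GoodL u ∧ l[i.1] = phiL b j u := fun i => hl _ (List.getElem_mem _)
      choose b j u h1 h2 h3 h4 using hx
      have h := hprod G D D' ν hD hD' hν hInv (hcube.mono (min_le_right _ _)) l.length b j u hlen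
        (fun i => ⟨h1 i, h2 i⟩) h3
      have e : ∀ z, (l.map fun φ => φ z).prod = ∏ i : Fin l.length, phiL (b i) (j i) (u i) z := by
        intro z
        rw [← Fin.prod_univ_fun_getElem l fun φ => φ z]
        exact Finset.prod_congr rfl fun i _ => congrFun (h4 i) z
      simp only [e]
      exact h)
  -- the density of the model
  have hone : GoodL (fun (_ : G) (_ : Fin (k + 2)) (_ : Fin (k + 2) → Pt D) => (1 : ℝ)) :=
    ⟨fun _ _ _ => ⟨zero_le_one, le_rfl⟩, fun _ i => Ind.const i 1⟩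
  have hphi : ∀ z : G, phiL 1 0 (fun (_ : G) (_ : Fin (k + 2)) (_ : Fin (k + 2) → Pt D) => (1 : ℝ)) z = 1 := by
    intro z
    unfold phiL
    simp only [Finset.prod_const_one]
    exact av_const 1
  have h2 := (hg' _ ⟨1, 0, _, le_rfl, hT, hone, rfl⟩).trans (min_le_right _ _)
  simp only [hphi, mul_one] at h2
  rw [av_sub] at h2
  have h3 : d / 2 ≤ av g := by
    have := (abs_le.mp h2).2
    linarith
  obtain ⟨b, hb1, hbT, h4⟩ := hdense G D g hD hg h3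
  have h5 := hcnt G D b ν f g hD hf hg ((hpatt b hb1 hbT).mono (min_le_left _ _))
    (fun j u hu => (hg' _ ⟨b, j, u, hb1, hbT, hu, rfl⟩).trans (min_le_left _ _))
  exact ⟨b, hb1, hbT, by linarith⟩

end Pool.CL
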