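import Pool.Agent.Lib.MP_c77da8_nt.CL.Defs
import Pool.Agent.Lib.MP_c77da8_nt.CG.OrdB
import Pool.Agent.Lib.MP_c77da8_nt.CG.Jen

/-!
# CL-RomL: the lemma of Romanoff type, uniformly in `w`, with a constant `C`

Copy `CG/Rom2.lean` (`romanoff_gen`, with its private lemmas) with `g = 2`, `B = 1` and these two changes.
(1) The threshold `M0` (here `H0`) must not depend on `w`: in `t5` replace `C1 w^(-1/8)` (times `3/2 (c/δ)`) by its upper bound `η/2`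
(which holds for all `w ≥ w1` since `w^(-1/8)` decreases: `ev` is an eventual statement in `w`), i.e. use
`exp(c/H) (1 + η/2 + 3/2 (c/δ) (1/δ) H^(1/8)/H) → 1 + η/2`.
(2) The constant `C ≥ 0`: either carry it through `Rom2_av`, or apply the statement with `C = 1` to `Ω' = Ω × Fin m`, `m ≥ max C 1`,
`A' (ω, i) = A ω` if `i = 0` and `1` otherwise: the probability is divided by `m`, and `av' = (1/m) av + (1 - 1/m)` (`exp 0 = 1`, no prime
divides `1`), so `av ≤ 1 + m η'` with `η' = η/m`.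
-/

set_option autoImplicit false

namespace Pool.CL

open Finset Pool.CG

/-- the sum of `n^(δ-1)` -/
private theorem RomL_sum (δ : ℝ) (hδ : 0 < δ) (hδ1 : δ ≤ 1) (Y : ℕ) :
    ∑ n ∈ Icc 1 Y, (n : ℝ) ^ (δ - 1) ≤ 1 / δ * (Y : ℝ) ^ δ := by
  induction Y with
  | zero =>
    simp
    positivity
  | succ n ih =>
    rw [Finset.sum_Icc_succ_top (by omega)]
    have hn : (0 : ℝ) < (n : ℝ) + 1 := by positivity
    have hb := _root_.rpow_one_add_le_one_add_mul_self (s := -(1 / ((n : ℝ) + 1)))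
      (by
        have : 1 / ((n : ℝ) + 1) ≤ 1 := by
          rw [div_le_one hn]
          have : (0 : ℝ) ≤ n := Nat.cast_nonneg n
          linarith
        linarith) (p := δ) hδ.le hδ1
    have e1 : (1 : ℝ) + -(1 / ((n : ℝ) + 1)) = n / (n + 1) := by field_simp; ring
    rw [e1, Real.div_rpow (Nat.cast_nonneg n) hn.le] at hb
    have hpos : 0 < ((n : ℝ) + 1) ^ δ := Real.rpow_pos_of_pos hn _
    rw [div_le_iff₀ hpos] at hb
    have e2 : ((n : ℝ) + 1) ^ (δ - 1) = ((n : ℝ) + 1) ^ δ / ((n : ℝ) + 1) :=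
      Real.rpow_sub_one hn.ne' _
    have e3 : (1 + δ * -(1 / ((n : ℝ) + 1))) * ((n : ℝ) + 1) ^ δ =
        ((n : ℝ) + 1) ^ δ - δ * (((n : ℝ) + 1) ^ δ / ((n : ℝ) + 1)) := by
      ring
    push_cast
    rw [e2]
    rw [e3] at hb
    have e4 : 1 / δ * ((n : ℝ) + 1) ^ δ =
        1 / δ * (((n : ℝ) + 1) ^ δ - δ * (((n : ℝ) + 1) ^ δ / ((n : ℝ) + 1))) +
          ((n : ℝ) + 1) ^ δ / ((n : ℝ) + 1) := by
      field_simp
      ring
    rw [e4]
    have h5 := mul_le_mul_of_nonneg_left hb (by positivity : (0 : ℝ) ≤ 1 / δ)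
    linarith

/-- the large prime factors -/
private theorem RomL_large (σ M a : ℕ) (B : ℝ) (hM : 3 ≤ M) (ha0 : a ≠ 0)
    (ha : (a : ℝ) ≤ Real.exp (B * (M : ℝ) ^ σ)) (s : Finset ℕ)
    (hs : ∀ p ∈ s, p.Prime ∧ M ^ (σ + 1) < p ∧ p ∣ a) : ∑ p ∈ s, 1 / (p : ℝ) ≤ B / M := by
  have hM0 : (0 : ℝ) < M := by exact_mod_cast (by omega : 0 < M)
  have hprod : ∏ p ∈ s, p ∣ a :=
    Finset.prod_primes_dvd a (fun p hp => (hs p hp).1.prime) (fun p hp => (hs p hp).2.2)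
  have h1 : ∏ p ∈ s, p ≤ a := Nat.le_of_dvd (Nat.pos_of_ne_zero ha0) hprod
  have h2 : (M ^ (σ + 1)) ^ s.card ≤ ∏ p ∈ s, p := by
    rw [← Finset.prod_const]
    exact Finset.prod_le_prod' fun p hp => (hs p hp).2.1.le
  have h3 : ((M : ℝ) ^ (σ + 1)) ^ s.card ≤ Real.exp (B * (M : ℝ) ^ σ) := by
    refine le_trans ?_ ha
    exact_mod_cast h2.trans h1
  have h4 : (s.card : ℝ) ≤ B * (M : ℝ) ^ σ := by
    have h5 : Real.exp (s.card : ℝ) ≤ ((M : ℝ) ^ (σ + 1)) ^ s.card := by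
      have : Real.exp (s.card : ℝ) = (Real.exp 1) ^ s.card := by
        rw [← Real.exp_nat_mul, mul_one]
      rw [this]
      refine pow_le_pow_left₀ (Real.exp_pos _).le ?_ _
      have h6 : (3 : ℝ) ≤ M := by exact_mod_cast hM
      have h7 : (M : ℝ) ^ 1 ≤ (M : ℝ) ^ (σ + 1) := pow_le_pow_right₀ (by linarith) (by omega)
      have h8 := Real.exp_one_lt_d9
      linarith
    exact Real.exp_le_exp.mp (h5.trans h3)
  calc ∑ p ∈ s, 1 / (p : ℝ) ≤ ∑ p ∈ s, 1 / (M : ℝ) ^ (σ + 1) := by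
        refine Finset.sum_le_sum fun p hp => ?_
        refine one_div_le_one_div_of_le (by positivity) ?_
        exact_mod_cast (hs p hp).2.1.le
    _ = (s.card : ℝ) * (1 / (M : ℝ) ^ (σ + 1)) := by rw [Finset.sum_const, nsmul_eq_mul]
    _ ≤ (B * (M : ℝ) ^ σ) * (1 / (M : ℝ) ^ (σ + 1)) :=
        mul_le_mul_of_nonneg_right h4 (by positivity)
    _ = B / M := by
        rw [pow_succ]
        field_simp

/-- the bound for one `a` -/
private theorem RomL_point (c B C0 δ : ℝ) (hc : 0 ≤ c) (hδ : 0 < δ) (w σ M a R : ℕ) (hM : 3 ≤ M)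
    (hC0 : ∀ Y : ℕ, ∑ p ∈ Pr w Y, 1 / ((p : ℝ) * Real.log p) ≤ C0 / Real.log w)
    (hcC : c * (C0 / Real.log w) ≤ δ) (ha0 : a ≠ 0)
    (ha : (a : ℝ) ≤ Real.exp (B * (M : ℝ) ^ σ)) :
    Real.exp (c * ∑ p ∈ (Pr w R).filter (fun p => p ∣ a), 1 / (p : ℝ)) ≤
      Real.exp (c * (B / M)) *
        (1 + 3 / 2 * (c / δ) * ∑ p ∈ (Pr w (M ^ (σ + 1))).filter (fun p => p ∣ a), (p : ℝ) ^ (δ - 1)) := by
  classical
  set S := (Pr w R).filter (fun p => p ∣ a) with hS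
  set Q := (Pr w (M ^ (σ + 1))).filter (fun p => p ∣ a) with hQ
  have hsplit : ∑ p ∈ S, 1 / (p : ℝ) ≤ ∑ p ∈ Q, 1 / (p : ℝ) + B / M := by
    rw [← Finset.sum_filter_add_sum_filter_not S (fun p => p ≤ M ^ (σ + 1))]
    refine add_le_add ?_ ?_
    · refine Finset.sum_le_sum_of_subset_of_nonneg ?_ (fun _ _ _ => by positivity)
      intro p hp
      rw [Finset.mem_filter, hS, Finset.mem_filter, Pr, Finset.mem_filter, Finset.mem_Icc] at hp
      rw [hQ, Finset.mem_filter, Pr, Finset.mem_filter, Finset.mem_Icc]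
      exact ⟨⟨⟨hp.1.1.1.1, hp.2⟩, hp.1.1.2⟩, hp.1.2⟩
    · refine RomL_large σ M a B hM ha0 ha _ ?_
      intro p hp
      rw [Finset.mem_filter, hS, Finset.mem_filter, Pr, Finset.mem_filter, Finset.mem_Icc] at hp
      exact ⟨hp.1.1.2.1, not_le.mp hp.2, hp.1.2⟩
  have hQ2 : ∀ p ∈ Q, 2 ≤ p := by
    intro p hp
    rw [hQ, Finset.mem_filter, Pr, Finset.mem_filter] at hp
    exact hp.1.2.1.two_le
  have hJ := jensen_gen c δ hc hδ Q hQ2 (by
    refine le_trans ?_ hcC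
    refine mul_le_mul_of_nonneg_left ?_ hc
    refine le_trans ?_ (hC0 (M ^ (σ + 1)))
    refine Finset.sum_le_sum_of_subset_of_nonneg (Finset.filter_subset _ _) ?_
    intro p hp _
    rw [Pr, Finset.mem_filter] at hp
    have : 0 ≤ Real.log (p : ℝ) := Real.log_natCast_nonneg p
    positivity)
  calc Real.exp (c * ∑ p ∈ S, 1 / (p : ℝ))
      ≤ Real.exp (c * (B / M) + c * ∑ p ∈ Q, 1 / (p : ℝ)) := by
        refine Real.exp_le_exp.mpr ?_
        have := mul_le_mul_of_nonneg_left hsplit hc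
        linarith
    _ = Real.exp (c * (B / M)) * Real.exp (c * ∑ p ∈ Q, 1 / (p : ℝ)) := Real.exp_add _ _
    _ ≤ _ := mul_le_mul_of_nonneg_left hJ (Real.exp_pos _).le

/-- the average for fixed `w, M` -/
private theorem RomL_av (g : ℕ) (c B C0 C1 C2 δ : ℝ) (hc : 0 ≤ c) (hC2 : 0 ≤ C2) (hδ : 0 < δ) (hδ1 : δ ≤ 1) (w σ M : ℕ) (hM : 3 ≤ M)
    (hC0 : ∀ Y : ℕ, ∑ p ∈ Pr w Y, 1 / ((p : ℝ) * Real.log p) ≤ C0 / Real.log w)
    (hcC : c * (C0 / Real.log w) ≤ δ)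
    (hC1 : ∀ Y : ℕ, ∑ p ∈ Pr w Y, (p : ℝ) ^ (δ - 1) / (orderOf (g : ZMod p) : ℝ) ≤
      C1 * (w : ℝ) ^ (-(1 / 8) : ℝ))
    (Ω : Type) [Fintype Ω] [Nonempty Ω] (A : Ω → ℕ)
    (hA : ∀ ω, (A ω : ℝ) ≤ Real.exp (B * (M : ℝ) ^ σ))
    (hp : ∀ p : ℕ, p.Prime → w < p → ((univ.filter fun ω => A ω ≠ 0 ∧ p ∣ A ω).card : ℝ) / Fintype.card Ω ≤
        C2 * (1 / (orderOf (g : ZMod p) : ℝ) + 1 / (M : ℝ))) (R : ℕ) :
    av (fun ω => if A ω = 0 then 0 else
        Real.exp (c * ∑ p ∈ (Pr w R).filter (fun p => p ∣ A ω), 1 / (p : ℝ))) ≤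
      Real.exp (c * (B / M)) * (1 + 3 / 2 * (c / δ) * (C2 * (C1 * (w : ℝ) ^ (-(1 / 8) : ℝ) +
        1 / δ * ((M : ℝ) ^ (((σ : ℝ) + 1) * δ) / M)))) := by
  classical
  have hM0 : (0 : ℝ) < M := by exact_mod_cast (by omega : 0 < M)
  have hcard : (0 : ℝ) < Fintype.card Ω := by exact_mod_cast Fintype.card_pos
  set E := Real.exp (c * (B / M)) with hE
  have hE0 : 0 < E := Real.exp_pos _
  set T := Pr w (M ^ (σ + 1)) with hT
  have hTmem : ∀ p ∈ T, p.Prime ∧ w < p := by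
    intro p hpT
    rw [hT, Pr, Finset.mem_filter] at hpT
    exact hpT.2
  have step1 : ∀ ω : Ω, (if A ω = 0 then 0 else
        Real.exp (c * ∑ p ∈ (Pr w R).filter (fun p => p ∣ A ω), 1 / (p : ℝ))) ≤
      E * (1 + 3 / 2 * (c / δ) * ∑ p ∈ T, (p : ℝ) ^ (δ - 1) * (if A ω ≠ 0 ∧ p ∣ A ω then 1 else 0)) := by
    intro ω
    by_cases h0 : A ω = 0
    · rw [if_pos h0]
      have : 0 ≤ ∑ p ∈ T, (p : ℝ) ^ (δ - 1) * (if A ω ≠ 0 ∧ p ∣ A ω then (1 : ℝ) else 0) := by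
        refine Finset.sum_nonneg fun p _ => ?_
        refine mul_nonneg (Real.rpow_nonneg (Nat.cast_nonneg _) _) ?_
        split_ifs <;> norm_num
      have h12 : 0 ≤ 3 / 2 * (c / δ) * ∑ p ∈ T, (p : ℝ) ^ (δ - 1) * (if A ω ≠ 0 ∧ p ∣ A ω then (1 : ℝ) else 0) :=
        mul_nonneg (by positivity) this
      exact mul_nonneg hE0.le (by linarith)
    · rw [if_neg h0]
      refine (RomL_point c B C0 δ hc hδ w σ M (A ω) R hM hC0 hcC h0 (hA ω)).trans (le_of_eq ?_)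
      rw [← hE, ← hT]
      congr 3
      rw [Finset.sum_filter]
      refine Finset.sum_congr rfl fun p _ => ?_
      by_cases hd : p ∣ A ω
      · rw [if_pos hd, if_pos ⟨h0, hd⟩, mul_one]
      · rw [if_neg hd, if_neg (fun h => hd h.2), mul_zero]
  have step2 : av (fun ω => if A ω = 0 then 0 else
        Real.exp (c * ∑ p ∈ (Pr w R).filter (fun p => p ∣ A ω), 1 / (p : ℝ))) ≤
      E * (1 + 3 / 2 * (c / δ) * ∑ p ∈ T, (p : ℝ) ^ (δ - 1) *
        (((univ.filter fun ω => A ω ≠ 0 ∧ p ∣ A ω).card : ℝ) / Fintype.card Ω)) := by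
    unfold av
    rw [div_le_iff₀ hcard]
    refine (Finset.sum_le_sum fun ω _ => step1 ω).trans (le_of_eq ?_)
    rw [← Finset.mul_sum, Finset.sum_add_distrib, ← Finset.mul_sum, Finset.sum_comm]
    rw [Finset.sum_const, Finset.card_univ, nsmul_eq_mul, mul_one]
    have e : ∀ p ∈ T, ∑ ω : Ω, (p : ℝ) ^ (δ - 1) * (if A ω ≠ 0 ∧ p ∣ A ω then (1 : ℝ) else 0) =
        ((p : ℝ) ^ (δ - 1) *
        (((univ.filter fun ω => A ω ≠ 0 ∧ p ∣ A ω).card : ℝ) / Fintype.card Ω)) * Fintype.card Ω := by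
      intro p _
      rw [← Finset.mul_sum, Finset.sum_boole, mul_assoc, div_mul_cancel₀ _ hcard.ne']
    rw [Finset.sum_congr rfl e, ← Finset.sum_mul]
    ring
  refine step2.trans ?_
  refine mul_le_mul_of_nonneg_left ?_ hE0.le
  have step3 : ∑ p ∈ T, (p : ℝ) ^ (δ - 1) *
        (((univ.filter fun ω => A ω ≠ 0 ∧ p ∣ A ω).card : ℝ) / Fintype.card Ω) ≤
      C2 * (C1 * (w : ℝ) ^ (-(1 / 8) : ℝ) + 1 / δ * ((M : ℝ) ^ (((σ : ℝ) + 1) * δ) / M)) := by
    calc ∑ p ∈ T, (p : ℝ) ^ (δ - 1) *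
          (((univ.filter fun ω => A ω ≠ 0 ∧ p ∣ A ω).card : ℝ) / Fintype.card Ω)
        ≤ ∑ p ∈ T, C2 * ((p : ℝ) ^ (δ - 1) / (orderOf (g : ZMod p) : ℝ) +
            (p : ℝ) ^ (δ - 1) / M) := by
          refine Finset.sum_le_sum fun p hpT => ?_
          have h := mul_le_mul_of_nonneg_left (hp p (hTmem p hpT).1 (hTmem p hpT).2)
            (Real.rpow_nonneg (Nat.cast_nonneg p) (δ - 1))
          refine h.trans (le_of_eq ?_)
          rw [mul_left_comm, mul_add, mul_one_div, mul_one_div]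
      _ = C2 * (∑ p ∈ T, (p : ℝ) ^ (δ - 1) / (orderOf (g : ZMod p) : ℝ) +
            (∑ p ∈ T, (p : ℝ) ^ (δ - 1)) / M) := by
          rw [← Finset.mul_sum, Finset.sum_add_distrib, Finset.sum_div]
      _ ≤ C2 * (C1 * (w : ℝ) ^ (-(1 / 8) : ℝ) +
            1 / δ * ((M : ℝ) ^ (((σ : ℝ) + 1) * δ) / M)) := by
          refine mul_le_mul_of_nonneg_left ?_ hC2
          refine add_le_add (hC1 (M ^ (σ + 1))) ?_
          rw [← mul_div_assoc]
          refine div_le_div_of_nonneg_right ?_ hM0.le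
          have h1 : ∑ p ∈ T, (p : ℝ) ^ (δ - 1) ≤ ∑ n ∈ Icc 1 (M ^ (σ + 1)), (n : ℝ) ^ (δ - 1) := by
            refine Finset.sum_le_sum_of_subset_of_nonneg ?_
              (fun n _ _ => Real.rpow_nonneg (Nat.cast_nonneg _) _)
            rw [hT, Pr]
            exact Finset.filter_subset _ _
          refine h1.trans ((RomL_sum δ hδ hδ1 (M ^ (σ + 1))).trans (le_of_eq ?_))
          push_cast
          rw [← Real.rpow_natCast, ← Real.rpow_mul hM0.le]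
          norm_num
  have := mul_le_mul_of_nonneg_left step3 (by positivity : 0 ≤ 3 / 2 * (c / δ))
  linarith

theorem romanoff_loc (σ : ℕ) (c C η : ℝ) (hc : 0 ≤ c) (hC : 0 ≤ C) (hη : 0 < η) :
    ∃ w0 H0 : ℕ, ∀ w ≥ w0, ∀ H ≥ H0, ∀ (Ω : Type) [Fintype Ω] [Nonempty Ω] (A : Ω → ℕ),
      (∀ ω, (A ω : ℝ) ≤ Real.exp ((H : ℝ) ^ σ)) →
      (∀ p : ℕ, p.Prime → w < p → ((univ.filter fun ω => A ω ≠ 0 ∧ p ∣ A ω).card : ℝ) / Fintype.card Ω ≤
        C * (1 / (orderOf (2 : ZMod p) : ℝ) + 1 / (H : ℝ))) →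
      ∀ R : ℕ, av (fun ω => if A ω = 0 then 0 else
        Real.exp (c * ∑ p ∈ (Pr w R).filter (fun p => p ∣ A ω), 1 / (p : ℝ))) ≤ 1 + η := by
  obtain ⟨C0, hC0pos, hC0⟩ := plogp_sum
  obtain ⟨C1, hC1pos, hC1⟩ := order_sum 2 le_rfl
  obtain ⟨δ, hδdef⟩ : ∃ δ : ℝ, δ = 1 / (8 * ((σ : ℝ) + 1)) := ⟨_, rfl⟩
  have hσ0 : (0 : ℝ) ≤ σ := Nat.cast_nonneg σ
  have hδ : 0 < δ := by rw [hδdef]; positivity
  have hδ8 : δ ≤ 1 / 8 := by
    rw [hδdef]
    apply one_div_le_one_div_of_le (by norm_num)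
    linarith
  have hδσ : ((σ : ℝ) + 1) * δ = 1 / 8 := by
    rw [hδdef]
    field_simp
  -- choice of `w0`
  have hlog : Filter.Tendsto (fun w : ℕ => Real.log (w : ℝ)) Filter.atTop Filter.atTop :=
    Real.tendsto_log_atTop.comp tendsto_natCast_atTop_atTop
  have t1 : Filter.Tendsto (fun w : ℕ => c * (C0 / Real.log (w : ℝ))) Filter.atTop (nhds (c * 0)) :=
    (hlog.const_div_atTop C0).const_mul c
  have t2 : Filter.Tendsto (fun w : ℕ => 3 / 2 * (c / δ) * (C * (C1 * (w : ℝ) ^ (-(1 / 8) : ℝ))))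
      Filter.atTop (nhds (3 / 2 * (c / δ) * (C * (C1 * 0)))) :=
    ((((tendsto_rpow_neg_atTop (by norm_num : (0 : ℝ) < 1 / 8)).comp
      tendsto_natCast_atTop_atTop).const_mul C1).const_mul C).const_mul (3 / 2 * (c / δ))
  rw [mul_zero] at t1
  rw [mul_zero, mul_zero, mul_zero] at t2
  have ev := (t1.eventually_le_const hδ).and
    (t2.eventually_le_const (by linarith : (0 : ℝ) < η / 2))
  obtain ⟨w1, hw1⟩ := Filter.eventually_atTop.mp ev
  -- choice of `H0`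
  have t3 : Filter.Tendsto (fun M : ℕ => Real.exp (c * (1 / (M : ℝ)))) Filter.atTop (nhds 1) := by
    have h : Filter.Tendsto (fun M : ℕ => c * (1 / (M : ℝ))) Filter.atTop (nhds (c * 0)) :=
      (tendsto_const_div_atTop_nhds_zero_nat 1).const_mul c
    rw [mul_zero] at h
    have h2 := (Real.continuous_exp.tendsto 0).comp h
    rw [Real.exp_zero] at h2
    exact h2
  have t4 : Filter.Tendsto (fun M : ℕ => (M : ℝ) ^ (((σ : ℝ) + 1) * δ) / (M : ℝ)) Filter.atTop (nhds 0) := by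
    have h := (tendsto_rpow_neg_atTop (by norm_num : (0 : ℝ) < 7 / 8)).comp
      (tendsto_natCast_atTop_atTop (R := ℝ))
    refine h.congr' ?_
    filter_upwards [Filter.eventually_gt_atTop 0] with M hM
    have hM0 : (0 : ℝ) < M := by exact_mod_cast hM
    simp only [Function.comp]
    rw [hδσ, show (-(7 / 8) : ℝ) = 1 / 8 - 1 by norm_num, Real.rpow_sub_one hM0.ne']
  have t5 : Filter.Tendsto (fun M : ℕ => Real.exp (c * (1 / (M : ℝ))) *
      ((1 + η / 2) + 3 / 2 * (c / δ) * (C * (1 / δ * ((M : ℝ) ^ (((σ : ℝ) + 1) * δ) / M)))))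
      Filter.atTop (nhds (1 * ((1 + η / 2) + 3 / 2 * (c / δ) * (C * (1 / δ * 0))))) :=
    t3.mul ((((t4.const_mul (1 / δ)).const_mul C).const_mul (3 / 2 * (c / δ))).const_add _)
  have ev2 := t5.eventually_le_const
    (show 1 * ((1 + η / 2) + 3 / 2 * (c / δ) * (C * (1 / δ * 0))) < 1 + η by
      rw [one_mul, mul_zero, mul_zero, mul_zero, add_zero]
      linarith)
  obtain ⟨M1, hM1⟩ := Filter.eventually_atTop.mp ev2
  refine ⟨max w1 2, max M1 3, fun w hw M hM Ω _ _ A hA hp R => ?_⟩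
  have hww1 : w1 ≤ w := (le_max_left _ _).trans hw
  have hw2 : 2 ≤ w := (le_max_right _ _).trans hw
  obtain ⟨hcC, hη2⟩ := hw1 w hww1
  have hMM1 : M1 ≤ M := (le_max_left _ _).trans hM
  have hM2 : 3 ≤ M := (le_max_right _ _).trans hM
  have key := RomL_av 2 c 1 C0 C1 C δ hc hC hδ (by linarith) w σ M hM2 (fun Y => hC0 w Y hw2) hcC
    (fun Y => ?_) Ω A (fun ω => by rw [one_mul]; exact hA ω) (fun p h1 h2 => ?_) R
  · refine key.trans (le_trans ?_ (hM1 M hMM1))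
    refine mul_le_mul_of_nonneg_left ?_ (Real.exp_pos _).le
    rw [mul_add C, mul_add (3 / 2 * (c / δ))]
    linarith
  · refine le_trans (Finset.sum_le_sum fun p hp => ?_) (hC1 w Y hw2)
    rw [Pr, Finset.mem_filter, Finset.mem_Icc] at hp
    have hp1 : (1 : ℝ) ≤ p := by exact_mod_cast hp.1.1
    refine div_le_div_of_nonneg_right ?_ (Nat.cast_nonneg _)
    exact Real.rpow_le_rpow_of_exponent_le hp1 (by linarith)
  · exact_mod_cast hp p h1 h2

end Pool.CL
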